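import Pool.Agent.BallBlock.AreaLip

/-!
Parametrise `cyl R a b` by `F (s, z) = (R cos (s/R), R sin (s/R), z)` on `[0, 2πR] × [a,b]`; it is 1-Lipschitz since
`(cos x - cos y)² + (sin x - sin y)² = 4 sin² ((x-y)/2) ≤ (x-y)²`. Every point of `cyl R a b` is in the image. Then `area_lip`, `vol_rect`.
-/

open MeasureTheory Set Real

namespace BallBlock

/-- the parametrisation of the cylinder -/
private noncomputable def areacylF (R : ℝ) (p : E2) : E3 :=
  !₂[R * Real.cos (p 0 / R), R * Real.sin (p 0 / R), p 1]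

private theorem areacyl_angle {x y R : ℝ} (hR : 0 < R) (h : x ^ 2 + y ^ 2 = R ^ 2) :
    ∃ t : ℝ, 0 ≤ t ∧ t ≤ 2 * Real.pi ∧ R * Real.cos t = x ∧ R * Real.sin t = y := by
  set z : ℂ := ⟨x, y⟩ with hz
  have hn : ‖z‖ = R := by
    rw [Complex.norm_def, Complex.normSq_apply]
    have h1 : z.re * z.re + z.im * z.im = R ^ 2 := by rw [← h, hz]; ring
    rw [h1, Real.sqrt_sq hR.le]
  have hz0 : z ≠ 0 := by
    rw [← norm_ne_zero_iff, hn]; exact hR.ne'
  have hc : R * Real.cos z.arg = x := by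
    rw [Complex.cos_arg hz0, hn, mul_div_cancel₀ _ hR.ne']
  have hs : R * Real.sin z.arg = y := by
    rw [Complex.sin_arg, hn, mul_div_cancel₀ _ hR.ne']
  have h1 := Complex.neg_pi_lt_arg z
  have h2 := Complex.arg_le_pi z
  have hpi := Real.pi_pos
  rcases le_or_gt 0 z.arg with h0 | h0
  · exact ⟨z.arg, h0, by linarith, hc, hs⟩
  · refine ⟨z.arg + 2 * Real.pi, by linarith, by linarith, ?_, ?_⟩
    · rw [Real.cos_add_two_pi]; exact hc
    · rw [Real.sin_add_two_pi]; exact hs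

private theorem areacyl_trig (x y : ℝ) :
    (Real.cos x - Real.cos y) ^ 2 + (Real.sin x - Real.sin y) ^ 2 ≤ (x - y) ^ 2 := by
  have h1 := Real.one_sub_sq_div_two_le_cos (x := x - y)
  rw [Real.cos_sub] at h1
  have h2 := Real.sin_sq_add_cos_sq x
  have h3 := Real.sin_sq_add_cos_sq y
  nlinarith

theorem area_cyl {R a b : ℝ} (hR : 0 < R) (hab : a ≤ b) :
    area (cyl R a b) ≤ ENNReal.ofReal (2 * Real.pi * R * (b - a)) := by
  set s : Set E2 := {p : E2 | (0 ≤ p 0 ∧ p 0 ≤ 2 * Real.pi * R) ∧ (a ≤ p 1 ∧ p 1 ≤ b)} with hs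
  have h1 : cyl R a b ⊆ areacylF R '' s := by
    rintro p ⟨hp, hpa, hpb⟩
    obtain ⟨t, ht0, ht1, htc, hts⟩ := areacyl_angle hR hp
    refine ⟨!₂[R * t, p 2], ⟨⟨?_, ?_⟩, ?_, ?_⟩, ?_⟩
    · show 0 ≤ R * t
      positivity
    · show R * t ≤ 2 * Real.pi * R
      nlinarith
    · exact hpa
    · exact hpb
    · have h2 : R * t / R = t := mul_div_cancel_left₀ t hR.ne'
      ext i
      fin_cases i
      · show R * Real.cos (R * t / R) = p 0
        rw [h2]; exact htc
      · show R * Real.sin (R * t / R) = p 1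
        rw [h2]; exact hts
      · rfl
  have h2 : ∀ p ∈ s, ∀ q ∈ s, dist (areacylF R p) (areacylF R q) ≤ dist p q := by
    intro p _ q _
    rw [EuclideanSpace.dist_eq, EuclideanSpace.dist_eq]
    apply Real.sqrt_le_sqrt
    rw [Fin.sum_univ_three, Fin.sum_univ_two]
    show dist (R * Real.cos (p 0 / R)) (R * Real.cos (q 0 / R)) ^ 2 +
      dist (R * Real.sin (p 0 / R)) (R * Real.sin (q 0 / R)) ^ 2 + dist (p 1) (q 1) ^ 2 ≤
      dist (p 0) (q 0) ^ 2 + dist (p 1) (q 1) ^ 2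
    rw [Real.dist_eq, Real.dist_eq, Real.dist_eq, Real.dist_eq, sq_abs, sq_abs, sq_abs, sq_abs]
    have h3 := areacyl_trig (p 0 / R) (q 0 / R)
    have h4 : R ^ 2 * (p 0 / R - q 0 / R) ^ 2 = (p 0 - q 0) ^ 2 := by
      field_simp
    have h5 : R ^ 2 * ((Real.cos (p 0 / R) - Real.cos (q 0 / R)) ^ 2 +
        (Real.sin (p 0 / R) - Real.sin (q 0 / R)) ^ 2) ≤ (p 0 - q 0) ^ 2 := by
      rw [← h4]
      exact mul_le_mul_of_nonneg_left h3 (sq_nonneg R)
    linarith
  calc area (cyl R a b) ≤ area (areacylF R '' s) := by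
        unfold area
        gcongr
    _ ≤ volume s := area_lip h2
    _ ≤ ENNReal.ofReal ((2 * Real.pi * R - 0) * (b - a)) :=
        vol_rect (by positivity) hab
    _ = ENNReal.ofReal (2 * Real.pi * R * (b - a)) := by rw [sub_zero]

end BallBlock
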