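import Pool.Agent.BallBlock.Defs

/-!
Subadditivity of `area` (measure of unions; `ENNReal.ofReal` sums; induction on the list).
-/

open MeasureTheory Set

namespace BallBlock

theorem area_mono {S T : Set E3} (h : S ⊆ T) : area S ≤ area T := by
  unfold area
  exact mul_le_mul_right (measure_mono h) _

theorem area_union_le (S T : Set E3) : area (S ∪ T) ≤ area S + area T := by
  unfold area
  rw [← mul_add]
  exact mul_le_mul_right (measure_union_le S T) _

theorem area_iUnion_le {n : ℕ} (P : Fin n → Set E3) : area (⋃ i, P i) ≤ ∑ i, area (P i) := by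
  unfold area
  rw [← Finset.mul_sum]
  refine mul_le_mul_right ?_ _
  have h := measure_iUnion_le (μ := (Measure.hausdorffMeasure 2 : Measure E3)) P
  rwa [tsum_fintype] at h

theorem area_iUnion_list {ι : Type} (l : List ι) (P : ι → Set E3) (c : ι → ℝ) (hc : ∀ i ∈ l, 0 ≤ c i)
    (h : ∀ i ∈ l, area (P i) ≤ ENNReal.ofReal (c i)) :
    area (⋃ i ∈ l, P i) ≤ ENNReal.ofReal ((l.map c).sum) := by
  induction l with
  | nil =>
    simp [area]
  | cons a l ih =>
    have h1 : (⋃ i ∈ a :: l, P i) = P a ∪ ⋃ i ∈ l, P i := by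
      ext x
      simp only [List.mem_cons, mem_iUnion, mem_union, exists_prop]
      constructor
      · rintro ⟨i, hi | hi, hx⟩
        · subst hi
          exact Or.inl hx
        · exact Or.inr ⟨i, hi, hx⟩
      · rintro (hx | ⟨i, hi, hx⟩)
        · exact ⟨a, Or.inl rfl, hx⟩
        · exact ⟨i, Or.inr hi, hx⟩
    have hs : 0 ≤ (l.map c).sum := by
      apply List.sum_nonneg
      intro y hy
      rw [List.mem_map] at hy
      obtain ⟨i, hi, rfl⟩ := hy
      exact hc i (List.mem_cons_of_mem _ hi)
    rw [h1, List.map_cons, List.sum_cons, ENNReal.ofReal_add (hc a List.mem_cons_self) hs]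
    refine (area_union_le _ _).trans (add_le_add (h a List.mem_cons_self) (ih ?_ ?_))
    · exact fun i hi => hc i (List.mem_cons_of_mem _ hi)
    · exact fun i hi => h i (List.mem_cons_of_mem _ hi)

end BallBlock
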