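import Pool.Agent.BallBlock.AreaLip
import Pool.Agent.BallBlock.AreaUnion

/-!
For every `n ≥ 1` cut the lower hemisphere into the bands `φ_i ≤ φ ≤ φ_{i+1}`, `φ_i = i (π/2) / n` (`φ` = angle from the south pole). A band is
contained in the image of `[φ_i, φ_{i+1}] × [0, 2π R]`, `R = sin φ_{i+1}`, under `F (φ, s) = (sin φ cos (s/R), sin φ sin (s/R), - cos φ)`, which is 1-Lipschitz there:
the squared chord is `4 sin² ((φ-φ')/2) + 4 sin φ sin φ' sin² ((s-s')/(2R)) ≤ (φ-φ')² + (s-s')²` as `sin φ, sin φ' ≤ R`. So the area is at most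
`Σ_i h 2π sin φ_{i+1}` with `h = π/(2n)`, and `h sin φ_{i+1} ≤ (cos φ_i - cos φ_{i+1}) + h (sin φ_{i+1} - sin φ_i)` (because `cos φ_i - cos φ_{i+1} = ∫ sin ≥ h sin φ_i`),
telescoping to `≤ 2π (1 + h)`. Let `n → ∞`.
-/

open MeasureTheory Set Real

namespace BallBlock

/-- the parametrisation of a band -/
noncomputable def areahemiF (R : ℝ) (p : E2) : E3 :=
  !₂[sin (p 0) * cos (p 1 / R), sin (p 0) * sin (p 1 / R), - cos (p 0)]

/-- the rectangle of a band -/
def areahemiS (a b R : ℝ) : Set E2 :=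
  {p : E2 | (a ≤ p 0 ∧ p 0 ≤ b) ∧ (-(π * R) ≤ p 1 ∧ p 1 ≤ π * R)}

private theorem areahemi_lip {a b : ℝ} (ha : 0 ≤ a) (hb : b ≤ π / 2) (hR : 0 < sin b) :
    ∀ p ∈ areahemiS a b (sin b), ∀ q ∈ areahemiS a b (sin b),
      dist (areahemiF (sin b) p) (areahemiF (sin b) q) ≤ dist p q := by
  intro p hp q hq
  obtain ⟨⟨hp1, hp2⟩, -⟩ := hp
  obtain ⟨⟨hq1, hq2⟩, -⟩ := hq
  rw [EuclideanSpace.dist_eq, EuclideanSpace.dist_eq]
  apply Real.sqrt_le_sqrt
  rw [Fin.sum_univ_three, Fin.sum_univ_two]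
  simp only [Real.dist_eq, sq_abs]
  have e0 : (areahemiF (sin b) p) 0 = sin (p 0) * cos (p 1 / sin b) := rfl
  have e1 : (areahemiF (sin b) p) 1 = sin (p 0) * sin (p 1 / sin b) := rfl
  have e2 : (areahemiF (sin b) p) 2 = - cos (p 0) := rfl
  have f0 : (areahemiF (sin b) q) 0 = sin (q 0) * cos (q 1 / sin b) := rfl
  have f1 : (areahemiF (sin b) q) 1 = sin (q 0) * sin (q 1 / sin b) := rfl
  have f2 : (areahemiF (sin b) q) 2 = - cos (q 0) := rfl
  rw [e0, e1, e2, f0, f1, f2]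
  have hpi := Real.pi_pos
  have s1 : 0 ≤ sin (p 0) := sin_nonneg_of_nonneg_of_le_pi (by linarith) (by linarith)
  have s2 : 0 ≤ sin (q 0) := sin_nonneg_of_nonneg_of_le_pi (by linarith) (by linarith)
  have s3 : sin (p 0) ≤ sin b := sin_le_sin_of_le_of_le_pi_div_two (by linarith) hb hp2
  have s4 : sin (q 0) ≤ sin b := sin_le_sin_of_le_of_le_pi_div_two (by linarith) hb hq2
  have s5 : sin (p 0) * sin (q 0) ≤ sin b ^ 2 := by
    rw [sq]
    exact mul_le_mul s3 s4 s2 hR.le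
  have c1 := one_sub_sq_div_two_le_cos (x := p 0 - q 0)
  have c2 := one_sub_sq_div_two_le_cos (x := p 1 / sin b - q 1 / sin b)
  have c3 : (sin (p 0) * cos (p 1 / sin b) - sin (q 0) * cos (q 1 / sin b)) ^ 2 +
      (sin (p 0) * sin (p 1 / sin b) - sin (q 0) * sin (q 1 / sin b)) ^ 2 +
      (-cos (p 0) - -cos (q 0)) ^ 2 = 2 * (1 - cos (p 0 - q 0)) +
        2 * (sin (p 0) * sin (q 0)) * (1 - cos (p 1 / sin b - q 1 / sin b)) := by
    rw [cos_sub, cos_sub]
    have t1 := sin_sq_add_cos_sq (p 0)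
    have t2 := sin_sq_add_cos_sq (q 0)
    have t3 := sin_sq_add_cos_sq (p 1 / sin b)
    have t4 := sin_sq_add_cos_sq (q 1 / sin b)
    have t5 : (sin (p 0) * cos (p 1 / sin b)) ^ 2 + (sin (p 0) * sin (p 1 / sin b)) ^ 2 =
        sin (p 0) ^ 2 := by
      have : (sin (p 0) * cos (p 1 / sin b)) ^ 2 + (sin (p 0) * sin (p 1 / sin b)) ^ 2 =
        sin (p 0) ^ 2 * (sin (p 1 / sin b) ^ 2 + cos (p 1 / sin b) ^ 2) := by ring
      rw [this, t3, mul_one]
    have t6 : (sin (q 0) * cos (q 1 / sin b)) ^ 2 + (sin (q 0) * sin (q 1 / sin b)) ^ 2 =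
        sin (q 0) ^ 2 := by
      have : (sin (q 0) * cos (q 1 / sin b)) ^ 2 + (sin (q 0) * sin (q 1 / sin b)) ^ 2 =
        sin (q 0) ^ 2 * (sin (q 1 / sin b) ^ 2 + cos (q 1 / sin b) ^ 2) := by ring
      rw [this, t4, mul_one]
    linear_combination t5 + t6 + t1 + t2
  rw [c3]
  have c4 : 1 - cos (p 0 - q 0) ≤ (p 0 - q 0) ^ 2 / 2 := by linarith
  have c5 : 1 - cos (p 1 / sin b - q 1 / sin b) ≤ (p 1 / sin b - q 1 / sin b) ^ 2 / 2 := by linarith
  have c6 : 2 * (sin (p 0) * sin (q 0)) * (1 - cos (p 1 / sin b - q 1 / sin b)) ≤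
      2 * (sin (p 0) * sin (q 0)) * ((p 1 / sin b - q 1 / sin b) ^ 2 / 2) :=
    mul_le_mul_of_nonneg_left c5 (by positivity)
  have c7 : 2 * (sin (p 0) * sin (q 0)) * ((p 1 / sin b - q 1 / sin b) ^ 2 / 2) ≤
      2 * (sin b ^ 2) * ((p 1 / sin b - q 1 / sin b) ^ 2 / 2) :=
    mul_le_mul_of_nonneg_right (by linarith) (by positivity)
  have c8 : 2 * (sin b ^ 2) * ((p 1 / sin b - q 1 / sin b) ^ 2 / 2) = (p 1 - q 1) ^ 2 := by
    field_simp
  linarith

private theorem areahemi_band {a b : ℝ} (ha : 0 ≤ a) (hab : a ≤ b) (hb : b ≤ π / 2)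
    (hR : 0 < sin b) :
    area (areahemiF (sin b) '' areahemiS a b (sin b)) ≤
      ENNReal.ofReal (2 * π * ((b - a) * sin b)) := by
  refine (area_lip (areahemi_lip ha hb hR)).trans ?_
  have hpi := Real.pi_pos
  have h0 : 0 ≤ π * sin b := by positivity
  refine (vol_rect hab (by linarith : -(π * sin b) ≤ π * sin b)).trans (le_of_eq ?_)
  congr 1
  ring

private theorem areahemi_cover {n : ℕ} (hn : 0 < n) :
    hemi ⊆ ⋃ i : Fin n, areahemiF (sin (((i : ℕ) + 1 : ℝ) * (π / (2 * n)))) ''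
      areahemiS ((i : ℕ) * (π / (2 * n))) (((i : ℕ) + 1 : ℝ) * (π / (2 * n)))
        (sin (((i : ℕ) + 1 : ℝ) * (π / (2 * n)))) := by
  intro p hp
  obtain ⟨hp1, hp2⟩ := hp
  have hpi := Real.pi_pos
  have hn0 : (0 : ℝ) < n := by exact_mod_cast hn
  set h : ℝ := π / (2 * n) with hh
  have hh0 : 0 < h := by positivity
  have hnh : (n : ℝ) * h = π / 2 := by
    rw [hh]
    field_simp
  have hp3 : p 2 ^ 2 ≤ 1 := by nlinarith [sq_nonneg (p 0), sq_nonneg (p 1)]
  have hp4 : -1 ≤ p 2 := by nlinarith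
  set φ : ℝ := arccos (- p 2) with hφ
  have hφ0 : 0 ≤ φ := arccos_nonneg _
  have hφ1 : φ ≤ π / 2 := by
    rw [hφ, arccos_le_pi_div_two]
    linarith
  have hcos : cos φ = - p 2 := cos_arccos (by linarith) (by linarith)
  have hsin0 : 0 ≤ sin φ := sin_nonneg_of_nonneg_of_le_pi hφ0 (by linarith)
  have hsin2 : sin φ ^ 2 = p 0 ^ 2 + p 1 ^ 2 := by
    have := sin_sq_add_cos_sq φ
    rw [hcos] at this
    linarith
  -- the index
  have hidx : ∃ i : Fin n, (i : ℕ) * h ≤ φ ∧ φ ≤ ((i : ℕ) + 1 : ℝ) * h := by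
    by_cases hlt : φ < n * h
    · have h1 : ⌊φ / h⌋₊ < n := by
        rw [Nat.floor_lt (by positivity), div_lt_iff₀ hh0]
        exact hlt
      refine ⟨⟨⌊φ / h⌋₊, h1⟩, ?_, ?_⟩
      · have h2 := Nat.floor_le (show 0 ≤ φ / h by positivity)
        rw [le_div_iff₀ hh0] at h2
        exact h2
      · have h2 := (Nat.lt_floor_add_one (φ / h)).le
        rw [div_le_iff₀ hh0] at h2
        exact h2
    · refine ⟨⟨n - 1, by omega⟩, ?_, ?_⟩
      · have h2 : ((n - 1 : ℕ) : ℝ) = n - 1 := by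
          rw [Nat.cast_sub (by omega)]
          simp
        simp only
        rw [h2]
        nlinarith
      · have h2 : ((n - 1 : ℕ) : ℝ) = n - 1 := by
          rw [Nat.cast_sub (by omega)]
          simp
        simp only
        rw [h2]
        have h3 : ((n : ℝ) - 1 + 1) * h = π / 2 := by
          rw [← hnh]
          ring
        rw [h3]
        exact hφ1
  obtain ⟨i, hi1, hi2⟩ := hidx
  rw [mem_iUnion]
  refine ⟨i, ?_⟩
  set R : ℝ := sin (((i : ℕ) + 1 : ℝ) * h) with hR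
  have hin : ((i : ℕ) + 1 : ℝ) ≤ n := by exact_mod_cast i.2
  have hang0 : 0 < ((i : ℕ) + 1 : ℝ) * h := by positivity
  have hang1 : ((i : ℕ) + 1 : ℝ) * h ≤ π / 2 := by
    rw [← hnh]
    exact mul_le_mul_of_nonneg_right hin hh0.le
  have hR0 : 0 < R := sin_pos_of_pos_of_lt_pi hang0 (by linarith)
  set w : ℂ := ⟨p 0, p 1⟩ with hw
  have hw1 : ‖w‖ = sin φ := by
    rw [← Real.sqrt_sq hsin0, hsin2, Complex.norm_def, Complex.normSq_apply]
    congr 1
    rw [hw]
    ring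
  have hre : sin φ * cos (Complex.arg w) = p 0 := by
    rw [← hw1]
    exact Complex.norm_mul_cos_arg w
  have him : sin φ * sin (Complex.arg w) = p 1 := by
    rw [← hw1]
    exact Complex.norm_mul_sin_arg w
  have ha1 := Complex.neg_pi_lt_arg w
  have ha2 := Complex.arg_le_pi w
  refine ⟨!₂[φ, R * Complex.arg w], ?_, ?_⟩
  · refine ⟨⟨hi1, hi2⟩, ?_, ?_⟩
    · change -(π * R) ≤ R * Complex.arg w
      nlinarith
    · change R * Complex.arg w ≤ π * R
      nlinarith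
  · have e1 : R * Complex.arg w / R = Complex.arg w := by
      field_simp
    ext j
    fin_cases j
    · change sin φ * cos (R * Complex.arg w / R) = p 0
      rw [e1, hre]
    · change sin φ * sin (R * Complex.arg w / R) = p 1
      rw [e1, him]
    · change - cos φ = p 2
      rw [hcos, neg_neg]

private theorem areahemi_mvt {a b : ℝ} (ha : 0 ≤ a) (hab : a ≤ b) (hb : b ≤ π / 2) :
    (b - a) * sin a ≤ cos a - cos b := by
  have hpi := Real.pi_pos
  have h1 := (convex_Icc a b).mul_sub_le_image_sub_of_le_deriv (f := fun x => - cos x)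
    (continuous_cos.neg.continuousOn) (differentiable_cos.neg.differentiableOn) (C := sin a)
    (by
      intro x hx
      rw [interior_Icc] at hx
      have h2 : deriv (fun x => - cos x) x = sin x := by
        rw [deriv.fun_neg, Real.deriv_cos, neg_neg]
      rw [h2]
      exact sin_le_sin_of_le_of_le_pi_div_two (by linarith) (by linarith [hx.2]) hx.1.le)
    a (left_mem_Icc.2 hab) b (right_mem_Icc.2 hab) hab
  linarith

private theorem areahemi_step {n : ℕ} (hn : 0 < n) :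
    area hemi ≤ ENNReal.ofReal (2 * π * (1 + π / (2 * n))) := by
  have hpi := Real.pi_pos
  have hn0 : (0 : ℝ) < n := by exact_mod_cast hn
  have hcov := areahemi_cover hn
  set h : ℝ := π / (2 * n) with hh
  have hh0 : 0 < h := by positivity
  have hnh : (n : ℝ) * h = π / 2 := by
    rw [hh]
    field_simp
  refine (area_mono hcov).trans ((area_iUnion_le _).trans ?_)
  have h1 : ∀ i : Fin n, area (areahemiF (sin (((i : ℕ) + 1 : ℝ) * h)) ''
      areahemiS ((i : ℕ) * h) (((i : ℕ) + 1 : ℝ) * h) (sin (((i : ℕ) + 1 : ℝ) * h))) ≤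
      ENNReal.ofReal (2 * π * ((cos ((i : ℕ) * h) - cos (((i : ℕ) + 1 : ℝ) * h)) +
        h * (sin (((i : ℕ) + 1 : ℝ) * h) - sin ((i : ℕ) * h)))) := by
    intro i
    have hin : ((i : ℕ) + 1 : ℝ) ≤ n := by exact_mod_cast i.2
    have hang0 : 0 < ((i : ℕ) + 1 : ℝ) * h := by positivity
    have hang1 : ((i : ℕ) + 1 : ℝ) * h ≤ π / 2 := by
      rw [← hnh]
      exact mul_le_mul_of_nonneg_right hin hh0.le
    have hR0 : 0 < sin (((i : ℕ) + 1 : ℝ) * h) := sin_pos_of_pos_of_lt_pi hang0 (by linarith)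
    have ha0 : 0 ≤ (i : ℕ) * h := by positivity
    have hab : (i : ℕ) * h ≤ ((i : ℕ) + 1 : ℝ) * h := by nlinarith
    refine (areahemi_band ha0 hab hang1 hR0).trans (ENNReal.ofReal_le_ofReal ?_)
    refine mul_le_mul_of_nonneg_left ?_ (by positivity)
    have h2 := areahemi_mvt ha0 hab hang1
    have h3 : ((i : ℕ) + 1 : ℝ) * h - (i : ℕ) * h = h := by ring
    rw [h3] at h2 ⊢
    linarith
  refine (Finset.sum_le_sum fun i _ => h1 i).trans (le_of_eq ?_)
  rw [← ENNReal.ofReal_sum_of_nonneg]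
  · congr 1
    rw [← Finset.mul_sum]
    congr 1
    rw [Finset.sum_add_distrib, ← Finset.mul_sum]
    have h2 : ∑ i : Fin n, (cos ((i : ℕ) * h) - cos (((i : ℕ) + 1 : ℝ) * h)) = 1 := by
      have h3 := Finset.sum_range_sub' (fun i : ℕ => cos ((i : ℝ) * h)) n
      rw [Fin.sum_univ_eq_sum_range (fun i : ℕ => cos ((i : ℝ) * h) - cos (((i : ℝ) + 1) * h)) n]
      push_cast at h3
      rw [h3, hnh]
      simp
    have h3 : ∑ i : Fin n, (sin (((i : ℕ) + 1 : ℝ) * h) - sin ((i : ℕ) * h)) = 1 := by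
      have h4 := Finset.sum_range_sub (fun i : ℕ => sin ((i : ℝ) * h)) n
      rw [Fin.sum_univ_eq_sum_range (fun i : ℕ => sin (((i : ℝ) + 1) * h) - sin ((i : ℝ) * h)) n]
      push_cast at h4
      rw [h4, hnh]
      simp
    rw [h2, h3, mul_one]
  · intro i _
    have hin : ((i : ℕ) + 1 : ℝ) ≤ n := by exact_mod_cast i.2
    have hang1 : ((i : ℕ) + 1 : ℝ) * h ≤ π / 2 := by
      rw [← hnh]
      exact mul_le_mul_of_nonneg_right hin hh0.le
    have ha0 : 0 ≤ (i : ℕ) * h := by positivity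
    have hab : (i : ℕ) * h ≤ ((i : ℕ) + 1 : ℝ) * h := by nlinarith
    have h2 := areahemi_mvt ha0 hab hang1
    have h3 : sin ((i : ℕ) * h) ≤ sin (((i : ℕ) + 1 : ℝ) * h) :=
      sin_le_sin_of_le_of_le_pi_div_two (by linarith) hang1 hab
    have h4 : 0 ≤ sin ((i : ℕ) * h) :=
      sin_nonneg_of_nonneg_of_le_pi ha0 (by linarith)
    have h5 : 0 ≤ (((i : ℕ) + 1 : ℝ) * h - (i : ℕ) * h) * sin ((i : ℕ) * h) :=
      mul_nonneg (by linarith) h4
    have h6 : 0 ≤ h * (sin (((i : ℕ) + 1 : ℝ) * h) - sin ((i : ℕ) * h)) :=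
      mul_nonneg hh0.le (by linarith)
    exact mul_nonneg (by positivity) (by linarith)

theorem area_hemi : area hemi ≤ ENNReal.ofReal (2 * Real.pi) := by
  have h1 : Filter.Tendsto (fun n : ℕ => ENNReal.ofReal (2 * π * (1 + π / (2 * ((n + 1 : ℕ) : ℝ)))))
      Filter.atTop (nhds (ENNReal.ofReal (2 * π))) := by
    apply ENNReal.tendsto_ofReal
    have h2 : Filter.Tendsto (fun n : ℕ => π / 2 * (1 / ((n : ℝ) + 1))) Filter.atTop
        (nhds (π / 2 * 0)) :=
      tendsto_one_div_add_atTop_nhds_zero_nat.const_mul _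
    rw [mul_zero] at h2
    have h3 := ((h2.const_add 1).const_mul (2 * π))
    rw [add_zero, mul_one] at h3
    refine h3.congr fun n => ?_
    push_cast
    field_simp
  exact ge_of_tendsto' h1 fun n => areahemi_step (Nat.succ_pos n)

end BallBlock
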