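import Pool.Agent.BallBlock.HausPlane

/-!
`area_lip`: `LipschitzOnWith 1 F s` and `LipschitzOnWith.hausdorffMeasure_image_le`, then `haus_plane` and `(π/4) (4/π) = 1`.
`vol_rect`, `vol_trap`: transfer to `ℝ × ℝ` or `Fin 2 → ℝ` by `EuclideanSpace.volume_preserving_...` and use `volume_regionBetween_eq_integral` (or Fubini).
-/

open MeasureTheory Set

namespace BallBlock

theorem area_lip {F : E2 → E3} {s : Set E2} (h : ∀ p ∈ s, ∀ q ∈ s, dist (F p) (F q) ≤ dist p q) :
    area (F '' s) ≤ volume s := by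
  have h1 : LipschitzOnWith 1 F s := LipschitzOnWith.of_dist_le_mul fun p hp q hq => by
    rw [NNReal.coe_one, one_mul]
    exact h p hp q hq
  have h2 := h1.hausdorffMeasure_image_le (d := 2) (by norm_num)
  rw [ENNReal.coe_one, ENNReal.one_rpow, one_mul] at h2
  have h3 := h2.trans (haus_plane s)
  unfold area
  refine (mul_le_mul_right h3 _).trans (le_of_eq ?_)
  rw [← mul_assoc, ← ENNReal.ofReal_mul (by positivity)]
  have h4 : Real.pi / 4 * (4 / Real.pi) = 1 := by
    have := Real.pi_ne_zero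
    field_simp
  rw [h4, ENNReal.ofReal_one, one_mul]

/-- The projection to the product. -/
private noncomputable def arealip_e : E2 ≃ᵐ ℝ × ℝ :=
  (MeasurableEquiv.toLp 2 (Fin 2 → ℝ)).symm.trans MeasurableEquiv.finTwoArrow

private theorem arealip_e_mp : MeasurePreserving arealip_e (volume : Measure E2) volume :=
  (EuclideanSpace.volume_preserving_symm_measurableEquiv_toLp (Fin 2)).trans
    (volume_preserving_finTwoArrow ℝ)

private theorem arealip_e_apply (p : E2) : arealip_e p = (p 0, p 1) := rfl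

/-- The volume of a region between two graphs. -/
private theorem arealip_between {a b : ℝ} {f g : ℝ → ℝ} (hf : Measurable f) (hg : Measurable g) :
    volume {p : E2 | (a ≤ p 0 ∧ p 0 ≤ b) ∧ (f (p 0) ≤ p 1 ∧ p 1 ≤ g (p 0))} =
      ∫⁻ x in Icc a b, ENNReal.ofReal (g x - f x) := by
  have hm : MeasurableSet {p : ℝ × ℝ | (a ≤ p.1 ∧ p.1 ≤ b) ∧ (f p.1 ≤ p.2 ∧ p.2 ≤ g p.1)} := by
    refine ((measurableSet_le measurable_const measurable_fst).inter
      (measurableSet_le measurable_fst measurable_const)).inter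
      ((measurableSet_le (hf.comp measurable_fst) measurable_snd).inter
        (measurableSet_le measurable_snd (hg.comp measurable_fst)))
  have h1 : {p : E2 | (a ≤ p 0 ∧ p 0 ≤ b) ∧ (f (p 0) ≤ p 1 ∧ p 1 ≤ g (p 0))} =
      arealip_e ⁻¹' {p : ℝ × ℝ | (a ≤ p.1 ∧ p.1 ≤ b) ∧ (f p.1 ≤ p.2 ∧ p.2 ≤ g p.1)} := by
    ext p
    rw [mem_preimage, arealip_e_apply]
    rfl
  rw [h1, arealip_e_mp.measure_preimage_equiv, Measure.volume_eq_prod, Measure.prod_apply hm,
    ← lintegral_indicator measurableSet_Icc]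
  refine lintegral_congr fun x => ?_
  by_cases hx : x ∈ Icc a b
  · rw [indicator_of_mem hx]
    have h2 : Prod.mk x ⁻¹' {p : ℝ × ℝ | (a ≤ p.1 ∧ p.1 ≤ b) ∧ (f p.1 ≤ p.2 ∧ p.2 ≤ g p.1)} =
        Icc (f x) (g x) := by
      ext y
      exact ⟨fun h => h.2, fun h => ⟨hx, h⟩⟩
    rw [h2, Real.volume_Icc]
  · rw [indicator_of_notMem hx]
    have h2 : Prod.mk x ⁻¹' {p : ℝ × ℝ | (a ≤ p.1 ∧ p.1 ≤ b) ∧ (f p.1 ≤ p.2 ∧ p.2 ≤ g p.1)} = ∅ := by
      ext y
      exact ⟨fun h => hx h.1, fun h => h.elim⟩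
    rw [h2, measure_empty]

theorem vol_rect {a b c d : ℝ} (hab : a ≤ b) (hcd : c ≤ d) :
    volume {p : E2 | (a ≤ p 0 ∧ p 0 ≤ b) ∧ (c ≤ p 1 ∧ p 1 ≤ d)} ≤ ENNReal.ofReal ((b - a) * (d - c)) := by
  have h := arealip_between (a := a) (b := b) (f := fun _ => c) (g := fun _ => d) measurable_const
    measurable_const
  rw [lintegral_const, Measure.restrict_apply_univ, Real.volume_Icc,
    ← ENNReal.ofReal_mul (by linarith), mul_comm] at h
  exact h.le

theorem vol_trap {L b0 b1 t0 t1 : ℝ} (hL : 0 < L) (h0 : b0 ≤ t0) (h1 : b1 ≤ t1) :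
    volume {p : E2 | (0 ≤ p 0 ∧ p 0 ≤ L) ∧ (lr b0 b1 (p 0 / L) ≤ p 1 ∧ p 1 ≤ lr t0 t1 (p 0 / L))} ≤
      ENNReal.ofReal (L * ((t0 - b0) + (t1 - b1)) / 2) := by
  have hc : ∀ u v : ℝ, Continuous fun x : ℝ => lr u v (x / L) := by
    intro u v
    unfold lr
    fun_prop
  have h := arealip_between (a := 0) (b := L) (hc b0 b1).measurable (hc t0 t1).measurable
  refine (le_of_eq h).trans (le_of_eq ?_)
  have hcont : Continuous fun x : ℝ => lr t0 t1 (x / L) - lr b0 b1 (x / L) := (hc t0 t1).sub (hc b0 b1)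
  rw [← ofReal_integral_eq_lintegral_ofReal]
  · congr 1
    rw [integral_Icc_eq_integral_Ioc, ← intervalIntegral.integral_of_le hL.le]
    have h2 : ∀ x : ℝ, lr t0 t1 (x / L) - lr b0 b1 (x / L) =
        (t0 - b0) + ((t1 - b1) - (t0 - b0)) / L * x := by
      intro x
      unfold lr
      ring
    simp_rw [h2]
    rw [intervalIntegral.integral_add, intervalIntegral.integral_const,
      intervalIntegral.integral_const_mul, integral_id, smul_eq_mul]
    · field_simp
      ring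
    · exact continuous_const.intervalIntegrable _ _
    · exact (by fun_prop : Continuous fun x : ℝ => ((t1 - b1) - (t0 - b0)) / L * x).intervalIntegrable _ _
  · exact hcont.continuousOn.integrableOn_Icc
  · refine (ae_restrict_iff' measurableSet_Icc).2 (Filter.Eventually.of_forall fun x hx => ?_)
    show 0 ≤ lr t0 t1 (x / L) - lr b0 b1 (x / L)
    have e1 : 0 ≤ x / L := div_nonneg hx.1 hL.le
    have e2 : x / L ≤ 1 := (div_le_one hL).2 hx.2
    unfold lr
    nlinarith [mul_nonneg e1 (sub_nonneg.2 h1), mul_nonneg (sub_nonneg.2 e2) (sub_nonneg.2 h0)]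

end BallBlock
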