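import Pool.Agent.BallBlock.AreaLip

/-!
Isometric parametrisation: `L = √((x1-x0)²+(y1-y0)²)`, `F (s, z) = (x0 + (s/L) (x1-x0), y0 + (s/L) (y1-y0), z)` on the trapezoid of `vol_trap`.
-/

open MeasureTheory Set Real

namespace BallBlock

theorem area_wall {x0 y0 x1 y1 b0 b1 t0 t1 : ℝ} (hne : 0 < (x1 - x0) ^ 2 + (y1 - y0) ^ 2)
    (h0 : b0 ≤ t0) (h1 : b1 ≤ t1) :
    area (wallSet x0 y0 x1 y1 b0 b1 t0 t1) ≤
      ENNReal.ofReal (Real.sqrt ((x1 - x0) ^ 2 + (y1 - y0) ^ 2) * ((t0 - b0) + (t1 - b1)) / 2) := by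
  set L : ℝ := Real.sqrt ((x1 - x0) ^ 2 + (y1 - y0) ^ 2) with hL
  have hL0 : 0 < L := Real.sqrt_pos.2 hne
  have hL2 : L ^ 2 = (x1 - x0) ^ 2 + (y1 - y0) ^ 2 := Real.sq_sqrt hne.le
  let F : E2 → E3 := fun p =>
    WithLp.toLp 2 ![x0 + (p 0 / L) * (x1 - x0), y0 + (p 0 / L) * (y1 - y0), p 1]
  have hdist : ∀ p q : E2, dist (F p) (F q) = dist p q := by
    intro p q
    rw [EuclideanSpace.dist_eq, EuclideanSpace.dist_eq, Fin.sum_univ_three, Fin.sum_univ_two]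
    congr 1
    have e0 : (F p) 0 = x0 + (p 0 / L) * (x1 - x0) := rfl
    have e1 : (F p) 1 = y0 + (p 0 / L) * (y1 - y0) := rfl
    have e2 : (F p) 2 = p 1 := rfl
    have f0 : (F q) 0 = x0 + (q 0 / L) * (x1 - x0) := rfl
    have f1 : (F q) 1 = y0 + (q 0 / L) * (y1 - y0) := rfl
    have f2 : (F q) 2 = q 1 := rfl
    rw [e0, e1, e2, f0, f1, f2, Real.dist_eq, Real.dist_eq, Real.dist_eq, Real.dist_eq, sq_abs, sq_abs, sq_abs,
      sq_abs]
    have key : ((p 0 - q 0) / L) ^ 2 * L ^ 2 = (p 0 - q 0) ^ 2 := by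
      rw [← mul_pow, div_mul_cancel₀ _ hL0.ne']
    rw [← key, hL2]
    ring
  have himg : wallSet x0 y0 x1 y1 b0 b1 t0 t1 = F ''
      {p : E2 | (0 ≤ p 0 ∧ p 0 ≤ L) ∧ (lr b0 b1 (p 0 / L) ≤ p 1 ∧ p 1 ≤ lr t0 t1 (p 0 / L))} := by
    ext w
    constructor
    · rintro ⟨l, hl0, hl1, hw0, hw1, hw2, hw3⟩
      refine ⟨WithLp.toLp 2 ![l * L, w 2], ?_, ?_⟩
      · have a0 : (WithLp.toLp 2 ![l * L, w 2] : E2) 0 = l * L := rfl
        have a1 : (WithLp.toLp 2 ![l * L, w 2] : E2) 1 = w 2 := rfl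
        show (0 ≤ (WithLp.toLp 2 ![l * L, w 2] : E2) 0 ∧ (WithLp.toLp 2 ![l * L, w 2] : E2) 0 ≤ L) ∧
          (lr b0 b1 ((WithLp.toLp 2 ![l * L, w 2] : E2) 0 / L) ≤ (WithLp.toLp 2 ![l * L, w 2] : E2) 1 ∧
            (WithLp.toLp 2 ![l * L, w 2] : E2) 1 ≤ lr t0 t1 ((WithLp.toLp 2 ![l * L, w 2] : E2) 0 / L))
        rw [a0, a1, mul_div_cancel_right₀ _ hL0.ne']
        refine ⟨⟨by positivity, ?_⟩, hw2, hw3⟩
        nlinarith
      · ext i
        have a0 : (WithLp.toLp 2 ![l * L, w 2] : E2) 0 = l * L := rfl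
        fin_cases i
        · show x0 + ((l * L) / L) * (x1 - x0) = w 0
          rw [mul_div_cancel_right₀ _ hL0.ne', hw0]
          unfold lr
          ring
        · show y0 + ((l * L) / L) * (y1 - y0) = w 1
          rw [mul_div_cancel_right₀ _ hL0.ne', hw1]
          unfold lr
          ring
        · rfl
    · rintro ⟨p, ⟨⟨hp0, hp1⟩, hp2, hp3⟩, rfl⟩
      refine ⟨p 0 / L, by positivity, ?_, ?_, ?_, hp2, hp3⟩
      · rw [div_le_one hL0]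
        exact hp1
      · show x0 + (p 0 / L) * (x1 - x0) = lr x0 x1 (p 0 / L)
        unfold lr
        ring
      · show y0 + (p 0 / L) * (y1 - y0) = lr y0 y1 (p 0 / L)
        unfold lr
        ring
  rw [himg]
  exact (area_lip (fun p _ q _ => (hdist p q).le)).trans (vol_trap hL0 h0 h1)

end BallBlock
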