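import Pool.Agent.BallBlock.Leaf

/-!
Decoder and tree walk.
-/

open Real

namespace BallBlock

open K

private theorem cons2_drop {α : Type} {l : List α} {k : ℕ} {p q : α} (h : Cons2 (dropC l k) p q) : Cons2 l p q := by
  induction l generalizing k with
  | nil => exact h
  | cons x l ih =>
    cases k with
    | zero => exact h
    | succ k => exact Cons2.tail x (ih h)

private theorem cons2_nth {α : Type} {ch : List (List α)} {c : ℕ} {p q : α} (h : Cons2 (nth ch c) p q) :
    ∃ l ∈ ch, Cons2 l p q := by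
  induction ch generalizing c with
  | nil => exact absurd h (by intro h'; cases h')
  | cons A ch ih =>
    cases c with
    | zero => exact ⟨A, by simp, h⟩
    | succ c =>
      obtain ⟨l, hl, hc⟩ := ih h
      exact ⟨l, by simp [hl], hc⟩

private theorem subs_ok {P : Nd → Nd → Prop} (l : List Nd) (hP : ∀ p q, Cons2 l p q → P p q) :
    ∀ n j0 j1 : ℕ, j0 ≤ 256 → j1 ≤ 256 → Linked (subs l n j0 j1) ∧
      (∀ s ∈ subs l n j0 j1, IsMk s ∧ P s.p s.q) ∧
      (∀ s r, subs l n j0 j1 = s :: r → ∃ p q l' j, l = p :: q :: l' ∧ s = mkSub p q j0 j) := by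
  induction l with
  | nil =>
    intro n j0 j1 _ _
    have e : subs [] n j0 j1 = [] := rfl
    rw [e]
    exact ⟨trivial, fun s hs => absurd hs (by simp), fun s r h => absurd h (by simp)⟩
  | cons p l ih =>
    intro n j0 j1 h0 h1
    cases l with
    | nil =>
      have e : subs [p] n j0 j1 = [] := rfl
      rw [e]
      exact ⟨trivial, fun s hs => absurd hs (by simp), fun s r h => absurd h (by simp)⟩
    | cons q l =>
      have hpq : P p q := hP p q (Cons2.head p q l)
      have ih' := ih (fun a b hab => hP a b (Cons2.tail p hab))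
      cases n with
      | zero =>
        have e : subs (p :: q :: l) 0 j0 j1 = [mkSub p q j0 j1] := rfl
        rw [e]
        refine ⟨trivial, ?_, ?_⟩
        · intro s hs
          rw [List.mem_singleton] at hs
          subst hs
          exact ⟨isMk_mkSub h0 h1, hpq⟩
        · intro s r h
          rw [List.cons_eq_cons] at h
          exact ⟨p, q, l, j1, rfl, h.1.symm⟩
      | succ n =>
        have e : subs (p :: q :: l) (n + 1) j0 j1 = mkSub p q j0 256 :: subs (q :: l) n 0 j1 := rfl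
        rw [e]
        obtain ⟨i1, i2, i3⟩ := ih' n 0 j1 (by omega) h1
        refine ⟨?_, ?_, ?_⟩
        · rcases hs : subs (q :: l) n 0 j1 with _ | ⟨t, r⟩
          · exact trivial
          · obtain ⟨p', q', l', j, hl, ht⟩ := i3 t r hs
            refine ⟨?_, hs ▸ i1⟩
            have : p' = q := by
              rw [List.cons_eq_cons] at hl; exact hl.1.symm
            rw [ht, this]
            exact mkSub_link
        · intro s hs
          rcases List.mem_cons.1 hs with h | h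
          · subst h
            exact ⟨isMk_mkSub h0 (le_refl _), hpq⟩
          · exact i2 s h
        · intro s r h
          rw [List.cons_eq_cons] at h
          exact ⟨p, q, l, 256, rfl, h.1.symm⟩

theorem decIt_ok {E : Nd → Nd → Prop} {h : ℕ} {ch : List (List Nd)}
    (hE : ∀ c ∈ ch, ∀ p q, Cons2 c p q → E p q ∧ BotOK h p q) (n : ℕ) : ItemOK E h (decIt ch n) := by
  have hP : ∀ p q, Cons2 (dropC (nth ch (Nat.mod n 32)) (Nat.mod (Nat.div n 32) 64)) p q → (E p q ∧ BotOK h p q) := by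
    intro p q hpq
    obtain ⟨l, hl, hc⟩ := cons2_nth (cons2_drop hpq)
    exact hE l hl p q hc
  obtain ⟨h1, h2, -⟩ := subs_ok (P := fun p q => E p q ∧ BotOK h p q) _ hP (Nat.mod (Nat.div n 524288) 32)
    (Nat.mod (Nat.div n 2048) 256) (Nat.succ (Nat.mod (Nat.div n 16777216) 256))
    (le_of_lt (Nat.mod_lt _ (by norm_num))) (Nat.mod_lt _ (by norm_num))
  exact ⟨h1, h2⟩

private theorem dig_len {α : Type} (f : ℕ → α) (w m n : ℕ) : (dig f w m n).length = m := by
  induction m generalizing n with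
  | zero => rfl
  | succ m ih =>
    have e : dig f w (m + 1) n = f (Nat.mod n w) :: dig f w m (Nat.div n w) := rfl
    rw [e, List.length_cons, ih]

private theorem dig_mem {α : Type} (f : ℕ → α) (w m n : ℕ) : ∀ x ∈ dig f w m n, ∃ k, x = f k := by
  induction m generalizing n with
  | zero => intro x hx; cases hx
  | succ m ih =>
    have e : dig f w (m + 1) n = f (Nat.mod n w) :: dig f w m (Nat.div n w) := rfl
    rw [e]
    intro x hx
    rcases List.mem_cons.1 hx with h | h
    · exact ⟨_, h⟩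
    · exact ih _ x h

private theorem run_sound {E : Nd → Nd → Prop} {h : ℕ} {ch : List (List Nd)}
    (hE : ∀ c ∈ ch, ∀ p q, Cons2 c p q → E p q ∧ BotOK h p q)
    {pI qI pJ qJ : Nd} (eI : E pI qI) (eJ : E pJ qJ) (rI : RimOK h pI qI) (rJ : RimOK h pJ qJ) (t : K.T) :
    ∀ i0 i1 j0 j1 : ℕ, i0 ≤ i1 → i1 ≤ 256 → j0 ≤ j1 → j1 ≤ 256 → run h ch pI qI pJ qJ t i0 i1 j0 j1 = true →
    ∀ l m : ℝ, (i0 : ℝ) / 256 ≤ l → l ≤ (i1 : ℝ) / 256 → (j0 : ℝ) / 256 ≤ m → m ≤ (j1 : ℝ) / 256 →
    Good E (lr (nx pI) (nx qI) l) (lr (ny pI) (ny qI) l) (lr (nx pJ) (nx qJ) m) (lr (ny pJ) (ny qJ) m) := by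
  induction t with
  | I a b iha ihb =>
    intro i0 i1 j0 j1 hi hi1 hj hj1 hr l m hl0 hl1 hm0 hm1
    have hr' : an (run h ch pI qI pJ qJ a i0 (mid i0 i1) j0 j1) (run h ch pI qI pJ qJ b (mid i0 i1) i1 j0 j1) = true := hr
    rw [an_iff] at hr'
    have hmid : mid i0 i1 = (i0 + i1) / 2 := rfl
    rcases le_total l ((mid i0 i1 : ℕ) / 256 : ℝ) with hc | hc
    · exact iha _ _ _ _ (by omega) (by omega) hj hj1 hr'.1 l m hl0 hc hm0 hm1
    · exact ihb _ _ _ _ (by omega) (by omega) hj hj1 hr'.2 l m hc hl1 hm0 hm1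
  | J a b iha ihb =>
    intro i0 i1 j0 j1 hi hi1 hj hj1 hr l m hl0 hl1 hm0 hm1
    have hr' : an (run h ch pI qI pJ qJ a i0 i1 j0 (mid j0 j1)) (run h ch pI qI pJ qJ b i0 i1 (mid j0 j1) j1) = true := hr
    rw [an_iff] at hr'
    have hmid : mid j0 j1 = (j0 + j1) / 2 := rfl
    rcases le_total m ((mid j0 j1 : ℕ) / 256 : ℝ) with hc | hc
    · exact iha _ _ _ _ hi hi1 (by omega) (by omega) hr'.1 l m hl0 hl1 hm0 hc
    · exact ihb _ _ _ _ hi hi1 (by omega) (by omega) hr'.2 l m hl0 hl1 hc hm1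
  | L k it g G hh H d D =>
    intro i0 i1 j0 j1 hi hi1 hj hj1 hr l m hl0 hl1 hm0 hm1
    obtain ⟨a, oI⟩ := edge_onSub (p := pI) (q := qI) (by omega : i0 ≤ 256) hi1 hl0 hl1
    obtain ⟨b, oJ⟩ := edge_onSub (p := pJ) (q := qJ) (by omega : j0 ≤ 256) hj1 hm0 hm1
    have hlen : (dig (decIt ch) 4294967296 k it).length = k := dig_len _ _ _ _
    refine leaf_sound (h := h) (L := ⟨dig (decIt ch) 4294967296 k it, dig pr2 256 g G, dig (fun x => x) 16 hh H,
      dig pr3 4096 d D⟩) (isMk_mkSub (by omega) hi1) (isMk_mkSub (by omega) hj1) eI eJ rI rJ ?_ ?_ oI oJ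
    · intro A hA
      obtain ⟨n, rfl⟩ := dig_mem _ _ _ _ A hA
      exact decIt_ok hE n
    · have : (dig (decIt ch) 4294967296 k it).length + 2 = Nat.add k 2 := by rw [hlen]
      show leafOK _ _ _ _ ((dig (decIt ch) 4294967296 k it).length + 2) = true
      rw [this]
      exact hr

theorem pair_sound {E : Nd → Nd → Prop} {h : ℕ} {ch : List (List Nd)} {rim : List Nd} {I J : ℕ} {t : K.T}
    (hE : ∀ c ∈ ch, ∀ p q, Cons2 c p q → E p q ∧ BotOK h p q)
    {pI qI pJ qJ : Nd} {lI lJ : List Nd} (hI : dropC rim I = pI :: qI :: lI) (hJ : dropC rim J = pJ :: qJ :: lJ)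
    (eI : E pI qI) (eJ : E pJ qJ) (rI : RimOK h pI qI) (rJ : RimOK h pJ qJ)
    (hok : pairOK h ch rim I J t = true)
    {l m : ℝ} (hl0 : 0 ≤ l) (hl1 : l ≤ 1) (hm0 : 0 ≤ m) (hm1 : m ≤ 1) :
    Good E (lr (nx pI) (nx qI) l) (lr (ny pI) (ny qI) l) (lr (nx pJ) (nx qJ) m) (lr (ny pJ) (ny qJ) m) := by
  have hr : run h ch pI qI pJ qJ t 0 256 0 256 = true := by
    unfold pairOK at hok
    rw [hI, hJ] at hok
    exact hok
  exact run_sound hE eI eJ rI rJ t 0 256 0 256 (by norm_num) (le_refl _) (by norm_num) (le_refl _) hr l m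
    (by simpa using hl0) (by norm_num; exact hl1) (by simpa using hm0) (by norm_num; exact hm1)

end BallBlock
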