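

/-!
Integer cell checker. All recursions are written with recursors and all arithmetic with `Nat`
operations so that the kernel evaluates them quickly.
-/

noncomputable section

namespace BallBlock
namespace K

structure Nd where
  a : Nat
  b : Nat
  t : Nat
  u : Nat

structure Vx where
  a : Nat
  b : Nat
  t : Nat
  u : Nat

structure Sub where
  p : Nd
  q : Nd
  v : Vx
  w : Vx
  vA : Nat
  wA : Nat
  ok : Bool

abbrev OO : Nat := 8388608
abbrev KT4 : Nat := 1125899906842624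

/-- conjunction, lazily reduced -/
def an (x y : Bool) : Bool := Bool.rec false y x
def orr (x y : Bool) : Bool := Bool.rec y true x

def ad (x y : Nat) : Nat := Nat.add (Nat.sub x y) (Nat.sub y x)
def s3 (x y : Nat) : Nat := Nat.add (Nat.mul x x) (Nat.mul 3 (Nat.mul y y))
def d2 (a b a' b' : Nat) : Nat := s3 (ad a a') (ad b b')
def dV (v w : Vx) : Nat := s3 (ad v.a w.a) (ad v.b w.b)
def lin (p q i j : Nat) : Nat := Nat.add (Nat.mul p i) (Nat.mul q j)

def mkV (p q : Nd) (i j : Nat) : Vx :=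
  ⟨lin p.a q.a i j, lin p.b q.b i j, Nat.mul 256 (lin p.t q.t i j), Nat.mul 256 (lin p.u q.u i j)⟩
def r4 (v : Vx) : Nat := Nat.mul 4 (Nat.add v.t (d2 v.a v.b OO OO))
def mkS2 (p q : Nd) (v w : Vx) (dl : Nat) : Sub :=
  ⟨p, q, v, w, Nat.sub (r4 v) dl, Nat.sub (r4 w) dl, an (Nat.ble dl (r4 v)) (Nat.ble dl (r4 w))⟩
def mkS1 (p q : Nd) (v w : Vx) : Sub := mkS2 p q v w (Nat.add KT4 (dV v w))
def mkSub (p q : Nd) (j0 j1 : Nat) : Sub := mkS1 p q (mkV p q (Nat.sub 256 j0) j0) (mkV p q (Nat.sub 256 j1) j1)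

def allL {α : Type} (f : α → Bool) (l : List α) : Bool :=
  List.rec true (fun x _ ih => an (f x) ih) l

/-- sub-edges: recursion on the list; `n` remaining edges -/
def subs (l : List Nd) : Nat → Nat → Nat → List Sub :=
  List.rec (motive := fun _ => Nat → Nat → Nat → List Sub) (fun _ _ _ => [])
    (fun p l ih n j0 j1 =>
      List.rec (motive := fun _ => List Sub) []
        (fun q _ _ => Nat.rec (motive := fun _ => List Sub) [mkSub p q j0 j1]
          (fun n _ => mkSub p q j0 256 :: ih n 0 j1) n) l) l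

def g2 (z A B : Nat) : Bool := Nat.ble (Nat.mul z z) (Nat.mul 4 (Nat.mul A B))
def gPt (v w : Vx) (A B : Nat) : Bool := g2 (Nat.sub (Nat.mul 4 (dV v w)) (Nat.add A B)) A B
def gSub (s t : Sub) : Bool :=
  an (gPt s.v t.v s.vA t.vA) (an (gPt s.v t.w s.vA t.wA) (an (gPt s.w t.v s.wA t.vA) (gPt s.w t.w s.wA t.wA)))
/-- nonempty and all elements satisfy `f` -/
def allN {α : Type} (f : α → Bool) (l : List α) : Bool :=
  List.rec false (fun x l' _ => an (f x) (allL f l')) l
def gItem (A B : List Sub) : Bool := allL (fun s => allN (gSub s) B) A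

def p1 (a b c d e : Nat) : Nat := Nat.add (Nat.add (Nat.mul a b) (Nat.mul c d)) e

structure Ln where
  pa : Nat
  pb : Nat
  qa : Nat
  qb : Nat
  c1 : Nat
  c2 : Nat
def phP (c : Ln) (v : Vx) : Nat := p1 c.qa v.b c.pb v.a c.c1
def phN (c : Ln) (v : Vx) : Nat := p1 c.pa v.b c.qb v.a c.c2
def mkLn (pa pb qa qb : Nat) : Ln := ⟨pa, pb, qa, qb, Nat.mul qb pa, Nat.mul qa pb⟩

structure DV where
  lp : Nat
  ln : Nat
  gp : Nat
  gn : Nat

structure ED where
  l : Ln
  L2 : Nat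
  uL : Nat
  pp : Nat
  pq : Nat
  du : Nat
  fl : Bool

def dot (a b c d : Nat) : Nat := Nat.add (Nat.mul a c) (Nat.mul 3 (Nat.mul b d))

def mkED2 (pa pb qa qb pu qu L2 : Nat) : ED :=
  ⟨mkLn pa pb qa qb, L2, Nat.mul pu L2, dot pa pb pa pb, dot pa pb qa qb, ad pu qu, Nat.ble pu qu⟩
def mkED1 (pa pb qa qb pu qu : Nat) : ED := mkED2 pa pb qa qb pu qu (d2 pa pb qa qb)
def mkED (p q : Nd) : ED :=
  mkED1 (Nat.mul 256 p.a) (Nat.mul 256 p.b) (Nat.mul 256 q.a) (Nat.mul 256 q.b) (Nat.mul 65536 p.u) (Nat.mul 65536 q.u)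

def mkDV2 (x y t dP dN : Nat) (e : ED) : DV :=
  ⟨Nat.sub x y, Nat.sub y x,
   Nat.add (Nat.mul t e.L2) (Nat.mul e.du (Bool.rec dP dN e.fl)),
   Nat.add e.uL (Nat.mul e.du (Bool.rec dN dP e.fl))⟩
def mkDV (e : ED) (v : Vx) : DV :=
  mkDV2 (phP e.l v) (phN e.l v) v.t (Nat.add (dot v.a v.b e.l.qa e.l.qb) e.pp) (Nat.add (dot v.a v.b e.l.pa e.l.pb) e.pq) e

def d3 (l l' g g' h h' : Nat) : Bool := Nat.ble (lin l' l h h') (lin l' l g g')
/-- `x` on the negative side, `y` on the positive side, and the interpolation inequality -/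
def dA (x y : DV) : Bool := an (Nat.beq x.lp 0) (an (Nat.beq y.ln 0) (d3 x.ln y.lp x.gp y.gp x.gn y.gn))
/-- the same with the sides exchanged -/
def dB (x y : DV) : Bool := an (Nat.beq x.ln 0) (an (Nat.beq y.lp 0) (d3 x.lp y.ln x.gp y.gp x.gn y.gn))
def dP4 (x y x' y' : DV) : Bool :=
  orr (an (dA x x') (an (dA x y') (an (dA y x') (dA y y')))) (an (dB x x') (an (dB x y') (an (dB y x') (dB y y'))))
def dS2 (e : ED) (s t : Sub) : Bool := dP4 (mkDV e s.v) (mkDV e s.w) (mkDV e t.v) (mkDV e t.w)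
def dItem (A K B : List Sub) : Bool := allL (fun k => allL (fun s => allN (dS2 (mkED k.p k.q) s) B) A) K

def hSub (h : Nat) (s : Sub) : Bool := an (Nat.ble s.v.u h) (Nat.ble s.w.u h)

def lstV (l : List Sub) : Vx → Vx := List.rec (motive := fun _ => Vx → Vx) (fun v => v) (fun s _ ih _ => ih s.w) l

def posL (c : Ln) (v : Vx) : Bool := Nat.ble (Nat.succ (phN c v)) (phP c v)
def negL (c : Ln) (v : Vx) : Bool := Nat.ble (Nat.succ (phP c v)) (phN c v)

structure C4 where
  c1 : Ln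
  c2 : Ln
  c3 : Ln
  c4 : Ln
def pos4 (c : C4) (v : Vx) : Bool := an (posL c.c1 v) (an (posL c.c2 v) (an (posL c.c3 v) (posL c.c4 v)))
def neg4 (c : C4) (v : Vx) : Bool := an (negL c.c1 v) (an (negL c.c2 v) (an (negL c.c3 v) (negL c.c4 v)))
def sep2 (c : C4) (v w : Vx) : Bool := orr (an (pos4 c v) (neg4 c w)) (an (neg4 c v) (pos4 c w))
def sepI (c : C4) (A : List Sub) : Bool :=
  List.rec (motive := fun _ => Bool) false (fun s l _ => sep2 c s.v (lstV l s.w)) A

structure DP where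
  x : Nat
  y : Nat
  z : Nat
  w : Nat
structure Crn where
  pa : Nat
  pb : Nat
  ra : Nat
  rb : Nat
  qa : Nat
  qb : Nat
  sa : Nat
  sb : Nat
def mkDP2 (c : Crn) (a b3 : Nat) : DP :=
  ⟨lin a b3 c.pa c.pb, lin a b3 c.ra c.rb, lin a b3 c.qa c.qb, lin a b3 c.sa c.sb⟩
def mkDP (c : Crn) (v : Vx) : DP := mkDP2 c v.a (Nat.mul 3 v.b)
def lt1 (x y z w : Nat) : Bool := Nat.ble (Nat.succ (Nat.add x y)) (Nat.add z w)
def lt4 (X Y : DP) : Bool :=
  an (lt1 X.z Y.x Y.z X.x) (an (lt1 X.w Y.x Y.w X.x) (an (lt1 X.z Y.y Y.z X.y) (lt1 X.w Y.y Y.w X.y)))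
def ltS (c : Crn) (s t : Sub) : Bool :=
  an (lt4 (mkDP c s.v) (mkDP c t.v)) (an (lt4 (mkDP c s.v) (mkDP c t.w)) (an (lt4 (mkDP c s.w) (mkDP c t.v)) (lt4 (mkDP c s.w) (mkDP c t.w))))
def ltI (c : Crn) (A B : List Sub) : Bool := allL (fun s => allL (ltS c s) B) A
def ordA (c : Crn) (l : List (List Sub)) : List Sub → Bool :=
  List.rec (motive := fun _ => List Sub → Bool) (fun _ => true) (fun B _ ih A => an (ltI c A B) (ih B)) l

def nth {α : Type} (l : List (List α)) : Nat → List α :=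
  List.rec (motive := fun _ => Nat → List α) (fun _ => []) (fun A _ ih n => Nat.rec (motive := fun _ => List α) A (fun n _ => ih n) n) l
def dropC {α : Type} (l : List α) : Nat → List α :=
  List.rec (motive := fun _ => Nat → List α) (fun _ => []) (fun x l ih n => Nat.rec (motive := fun _ => List α) (x :: l) (fun n _ => ih n) n) l

def aItem (A : List Sub) : Bool := allL (fun s => s.ok) A

def anyL {α : Type} (f : α → Bool) (l : List α) : Bool :=
  List.rec false (fun x _ ih => orr (f x) ih) l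
def blt (x y : Nat) : Bool := Nat.ble (Nat.succ x) y
def covG (x y : Nat) (g : Nat × Nat) : Bool := an (Nat.ble g.1 x) (Nat.ble y g.2)
def covH (x y : Nat) (k : Nat) : Bool := an (blt x k) (blt k y)
def covD (x y : Nat) (d : Nat × Nat × Nat) : Bool := an (Nat.ble d.1 x) (an (blt x d.2.1) (an (blt d.2.1 y) (Nat.ble y d.2.2)))
def covP (G : List (Nat × Nat)) (H : List Nat) (D : List (Nat × Nat × Nat)) (x y : Nat) : Bool :=
  orr (anyL (covG x y) G) (orr (anyL (covH x y) H) (anyL (covD x y) D))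
def covRow (G : List (Nat × Nat)) (H : List Nat) (D : List (Nat × Nat × Nat)) (x n : Nat) : Bool :=
  Nat.rec true (fun n ih => an (covP G H D x (Nat.add x (Nat.succ n))) ih) n
def covAll (G : List (Nat × Nat)) (H : List Nat) (D : List (Nat × Nat × Nat)) (n : Nat) : Nat → Bool :=
  Nat.rec (motive := fun _ => Nat → Bool) (fun _ => true) (fun n ih x => an (covRow G H D x n) (ih (Nat.succ x))) n

def isE {α : Type} (l : List α) : Bool := List.rec true (fun _ _ _ => false) l

def crn (s t : Sub) : Crn := ⟨s.v.a, s.v.b, s.w.a, s.w.b, t.v.a, t.v.b, t.w.a, t.w.b⟩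
def mkC4 (s t : Sub) : C4 :=
  ⟨mkLn s.v.a s.v.b t.v.a t.v.b, mkLn s.v.a s.v.b t.w.a t.w.b, mkLn s.w.a s.w.b t.v.a t.v.b, mkLn s.w.a s.w.b t.w.a t.w.b⟩

structure Leaf where
  its : List (List Sub)
  G : List (Nat × Nat)
  H : List Nat
  D : List (Nat × Nat × Nat)

def app {α : Type} (l : List α) (x : α) : List α := List.rec [x] (fun y _ ih => y :: ih) l

def leaf2 (h : Nat) (sI sJ : Sub) (L : Leaf) (len : Nat) (tl all : List (List Sub)) : Bool :=
  an (orr (isE L.its) (an (allL (sepI (mkC4 sI sJ)) L.its) (ordA (crn sI sJ) tl [sI])))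
  (an (allL aItem all)
  (an (allL (fun g => gItem (nth all g.1) (nth all g.2)) L.G)
  (an (allL (fun k => allL (hSub h) (nth all k)) L.H)
  (an (allL (fun d => dItem (nth all d.1) (nth all d.2.1) (nth all d.2.2)) L.D)
  (covAll L.G L.H L.D len 0)))))
def leaf1 (h : Nat) (sI sJ : Sub) (L : Leaf) (len : Nat) (tl : List (List Sub)) : Bool := leaf2 h sI sJ L len tl ([sI] :: tl)
def leafOK (h : Nat) (sI sJ : Sub) (L : Leaf) (len : Nat) : Bool := leaf1 h sI sJ L len (app L.its [sJ])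

/-- decode one item: chain, first edge, start, number of further edges, end -/
def decIt (ch : List (List Nd)) (n : Nat) : List Sub :=
  subs (dropC (nth ch (Nat.mod n 32)) (Nat.mod (Nat.div n 32) 64)) (Nat.mod (Nat.div n 524288) 32)
    (Nat.mod (Nat.div n 2048) 256) (Nat.succ (Nat.mod (Nat.div n 16777216) 256))
/-- list of `m` digits of base `w`, mapped -/
def dig {α : Type} (f : Nat → α) (w m : Nat) : Nat → List α :=
  Nat.rec (motive := fun _ => Nat → List α) (fun _ => []) (fun _ ih n => f (Nat.mod n w) :: ih (Nat.div n w)) m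

def pr2 (x : Nat) : Nat × Nat := (Nat.mod x 16, Nat.div x 16)
def pr3 (x : Nat) : Nat × Nat × Nat := (Nat.mod x 16, Nat.mod (Nat.div x 16) 16, Nat.div x 256)

inductive T where
  | I (a b : T) : T
  | J (a b : T) : T
  | L (m it g G h H d D : Nat) : T

def leafT (h : Nat) (ch : List (List Nd)) (sI sJ : Sub) (m it g G h' H d D : Nat) : Bool :=
  leafOK h sI sJ ⟨dig (decIt ch) 4294967296 m it, dig pr2 256 g G, dig (fun x => x) 16 h' H, dig pr3 4096 d D⟩ (Nat.add m 2)

def mid (a b : Nat) : Nat := Nat.div (Nat.add a b) 2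

def run (h : Nat) (ch : List (List Nd)) (pI qI pJ qJ : Nd) (t : T) : Nat → Nat → Nat → Nat → Bool :=
  T.rec (motive := fun _ => Nat → Nat → Nat → Nat → Bool)
    (fun _ _ x y i0 i1 j0 j1 => an (x i0 (mid i0 i1) j0 j1) (y (mid i0 i1) i1 j0 j1))
    (fun _ _ x y i0 i1 j0 j1 => an (x i0 i1 j0 (mid j0 j1)) (y i0 i1 (mid j0 j1) j1))
    (fun m it g G h' H d D i0 i1 j0 j1 => leafT h ch (mkSub pI qI i0 i1) (mkSub pJ qJ j0 j1) m it g G h' H d D) t

def withE (l : List Nd) (k : Nd → Nd → Bool) : Bool :=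
  List.rec (motive := fun _ => Bool) false (fun p l _ => List.rec (motive := fun _ => Bool) false (fun q _ _ => k p q) l) l

def pairOK (h : Nat) (ch : List (List Nd)) (rim : List Nd) (I J : Nat) (t : T) : Bool :=
  withE (dropC rim I) fun pI qI => withE (dropC rim J) fun pJ qJ => run h ch pI qI pJ qJ t 0 256 0 256

end K
end BallBlock
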