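import Mathlib
import Pool.Agent.BallBlock.Chk

/-!
Equations for the recursors of the checker (all by `cases` / induction and `rfl`).
-/

open Real

namespace BallBlock

open K

theorem an_iff {x y : Bool} : an x y = true ↔ x = true ∧ y = true := by
  cases x <;> cases y <;> simp [an]

theorem orr_iff {x y : Bool} : orr x y = true ↔ x = true ∨ y = true := by
  cases x <;> cases y <;> simp [orr]

theorem allL_iff {α : Type} {f : α → Bool} {l : List α} : allL f l = true ↔ ∀ x ∈ l, f x = true := by
  induction l with
  | nil => simp [allL]
  | cons a t ih =>
    have h : allL f (a :: t) = an (f a) (allL f t) := rfl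
    rw [h, an_iff, ih]
    simp

theorem allN_iff {α : Type} {f : α → Bool} {l : List α} : allN f l = true ↔ l ≠ [] ∧ ∀ x ∈ l, f x = true := by
  cases l with
  | nil => simp [allN]
  | cons a t =>
    have h : allN f (a :: t) = an (f a) (allL f t) := rfl
    rw [h, an_iff, allL_iff]
    simp

theorem anyL_iff {α : Type} {f : α → Bool} {l : List α} : anyL f l = true ↔ ∃ x ∈ l, f x = true := by
  induction l with
  | nil => simp [anyL]
  | cons a t ih =>
    have h : anyL f (a :: t) = orr (f a) (anyL f t) := rfl
    rw [h, orr_iff, ih]
    simp

end BallBlock
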