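import Pool.Agent.BallBlock.Plan2
import Pool.Agent.BallBlock.Rec

/-!
Finite checks of the table.
-/

open Real

namespace BallBlock

open K

/-! ### consecutive pairs -/

theorem mem_pairs_iff {α : Type} {l : List α} {p q : α} : (p, q) ∈ pairs l ↔ Cons2 l p q := by
  induction l with
  | nil => exact ⟨fun h => absurd h (by simp [pairs]), fun h => by cases h⟩
  | cons x l ih =>
    cases l with
    | nil => exact ⟨fun h => absurd h (by simp [pairs]), fun h => by cases h with | tail _ h => cases h⟩
    | cons y l =>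
      have e : pairs (x :: y :: l) = (x, y) :: pairs (y :: l) := rfl
      rw [e, List.mem_cons, ih, Prod.mk.injEq]
      constructor
      · rintro (⟨rfl, rfl⟩ | h)
        · exact Cons2.head _ _ _
        · exact Cons2.tail _ h
      · intro h
        cases h with
        | head => exact Or.inl ⟨rfl, rfl⟩
        | tail _ h => exact Or.inr h

private theorem cons2_of_drop {l : List Nd} {i : ℕ} {p q : Nd} {r : List Nd} (h : dropC l i = p :: q :: r) :
    Cons2 l p q := by
  induction l generalizing i with
  | nil => exact absurd h (by intro h'; cases h')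
  | cons x l ih =>
    cases i with
    | zero =>
      have e : x :: l = p :: q :: r := h
      rw [e]; exact Cons2.head _ _ _
    | succ i => exact Cons2.tail x (ih h)

/-- the pair at position `i` is among the first pairs -/
private theorem cons2_take {l : List Nd} {i n : ℕ} (hi : i < n) {p q : Nd} {r : List Nd}
    (h : dropC l i = p :: q :: r) : Cons2 (l.take (n + 1)) p q := by
  induction l generalizing i n with
  | nil => exact absurd h (by intro h'; cases h')
  | cons x l ih =>
    cases i with
    | zero =>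
      have e : x :: l = p :: q :: r := h
      rw [e]
      obtain ⟨m, rfl⟩ : ∃ m, n = m + 1 := ⟨n - 1, by omega⟩
      exact Cons2.head _ _ _
    | succ i =>
      obtain ⟨m, rfl⟩ : ∃ m, n = m + 1 := ⟨n - 1, by omega⟩
      exact Cons2.tail x (ih (by omega) h)

private theorem side_pairs {i : ℕ} (hi : i < 192) {p q : Nd} (h : Side i p q) : (p, q) ∈ pairs (rim.take 193) := by
  obtain ⟨r, hr⟩ := h
  exact mem_pairs_iff.2 (cons2_take hi hr)

/-! ### Bool tests -/

private def rad (p : Nd) : Int := ((p.a : Int) - 32768) ^ 2 + 3 * ((p.b : Int) - 32768) ^ 2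
private def up (p : Nd) : Int := (p.u : Int) - 4294967296

private def paraB (p : Nd) : Bool := decide (up p ≤ - rad p)
private def lowB (p : Nd) : Bool := decide (65536 * p.u ≤ hh)
private def topB (p : Nd) : Bool := decide (hh ≤ 65536 * p.t)

private theorem ny_sq (p : Nd) : ny p ^ 2 = 3 * (((p.b : ℝ) - 32768) * 256) ^ 2 := by
  unfold ny; rw [mul_pow, Real.sq_sqrt (by norm_num)]

private theorem para_sound {p : Nd} (h : paraB p = true) : nB p ≤ -(nx p ^ 2 + ny p ^ 2) / 2 := by
  have h1 : up p ≤ - rad p := of_decide_eq_true h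
  have h2 : ((up p : Int) : ℝ) ≤ ((- rad p : Int) : ℝ) := by exact_mod_cast h1
  unfold up rad at h2
  push_cast at h2
  rw [ny_sq]
  unfold nB nx
  nlinarith

private theorem low_sound {p : Nd} (h : lowB p = true) : nB p ≤ hR hh := by
  have h1 : 65536 * p.u ≤ hh := of_decide_eq_true h
  have h2 : (65536 : ℝ) * (p.u : ℝ) ≤ (hh : ℝ) := by exact_mod_cast h1
  unfold nB hR
  linarith

private theorem top_sound {p : Nd} (h : topB p = true) : hR hh ≤ nT p := by
  have h1 : hh ≤ 65536 * p.t := of_decide_eq_true h
  have h2 : (hh : ℝ) ≤ 65536 * (p.t : ℝ) := by exact_mod_cast h1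
  unfold nT hR
  linarith

private def botB (x : Nd × Nd) : Bool := (paraB x.1 && paraB x.2) || (lowB x.1 && lowB x.2)

private theorem bot_all : (chains.all fun c => (pairs c).all botB) = true := by decide +kernel

private theorem rim_all : ((pairs (rim.take 193)).all fun x => paraB x.1 && paraB x.2 && topB x.1 && topB x.2) = true := by
  decide +kernel

theorem table_ok : ∀ c ∈ chains, ∀ p q, Cons2 c p q → EE p q ∧ BotOK hh p q := by
  intro c hc p q h
  refine ⟨Or.inl ⟨c, hc, h⟩, ?_⟩
  have h1 := (List.all_eq_true.1 (List.all_eq_true.1 bot_all c hc)) (p, q) (mem_pairs_iff.2 h)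
  unfold botB at h1
  simp only [Bool.or_eq_true, Bool.and_eq_true] at h1
  rcases h1 with h1 | h1
  · exact Or.inl ⟨para_sound h1.1, para_sound h1.2⟩
  · exact Or.inr ⟨low_sound h1.1, low_sound h1.2⟩

theorem rim_ok {i : ℕ} {p q : Nd} (hi : i < 192) (hs : Side i p q) : RimOK hh p q := by
  have h1 := List.all_eq_true.1 rim_all (p, q) (side_pairs hi hs)
  simp only [Bool.and_eq_true] at h1
  exact ⟨para_sound h1.1.1.1, para_sound h1.1.1.2, top_sound h1.1.2, top_sound h1.2⟩

private def eqB (p q : Nd) : Bool := p.a == q.a && p.b == q.b && p.t == q.t && p.u == q.u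

private theorem eqB_sound {p q : Nd} (h : eqB p q = true) : p = q := by
  obtain ⟨a, b, t, u⟩ := p
  obtain ⟨a', b', t', u'⟩ := q
  unfold eqB at h
  simp only [Bool.and_eq_true, beq_iff_eq] at h
  obtain ⟨⟨⟨h1, h2⟩, h3⟩, h4⟩ := h
  subst h1; subst h2; subst h3; subst h4; rfl

private def arms : List (Nd × Nd) := pairs ch0 ++ pairs ch8 ++ pairs ch16

private theorem hub_all : ((pairs ch24 ++ pairs ch25 ++ pairs ch26).all fun x =>
    arms.any fun y => (eqB x.1 y.1 && eqB x.2 y.2) || (eqB x.1 y.2 && eqB x.2 y.1)) = true := by decide +kernel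

private theorem arms_sub {x : Nd × Nd} (h : x ∈ arms) : x ∈ walls := by
  unfold walls
  refine List.mem_append_left _ (List.mem_flatMap.2 ?_)
  unfold arms at h
  simp only [List.mem_append] at h
  rcases h with (h | h) | h
  · exact ⟨ch0, by unfold chains; simp, h⟩
  · exact ⟨ch8, by unfold chains; simp, h⟩
  · exact ⟨ch16, by unfold chains; simp, h⟩

theorem edge_walls {p q : Nd} (h : EE p q) : (p, q) ∈ walls ∨ (q, p) ∈ walls := by
  rcases h with ⟨c, hc, h⟩ | ⟨i, hi, hs⟩
  · have hcc : c ∈ chains.take 24 ∨ c ∈ [ch24, ch25, ch26] := by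
      have e : chains = chains.take 24 ++ [ch24, ch25, ch26] := rfl
      rw [e] at hc
      exact List.mem_append.1 hc
    rcases hcc with hc | hc
    · left
      exact List.mem_append_left _ (List.mem_flatMap.2 ⟨c, hc, mem_pairs_iff.2 h⟩)
    · have hm : (p, q) ∈ pairs ch24 ++ pairs ch25 ++ pairs ch26 := by
        simp only [List.mem_cons, List.mem_append, List.not_mem_nil, or_false] at hc ⊢
        rcases hc with rfl | rfl | rfl
        · exact Or.inl (Or.inl (mem_pairs_iff.2 h))
        · exact Or.inl (Or.inr (mem_pairs_iff.2 h))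
        · exact Or.inr (mem_pairs_iff.2 h)
      have h1 := List.all_eq_true.1 hub_all (p, q) hm
      obtain ⟨y, hy, h2⟩ := List.any_eq_true.1 h1
      simp only [Bool.or_eq_true, Bool.and_eq_true] at h2
      rcases h2 with h2 | h2
      · left
        have := arms_sub hy
        rw [eqB_sound h2.1, eqB_sound h2.2]; exact this
      · right
        have := arms_sub hy
        rw [eqB_sound h2.1, eqB_sound h2.2]; exact this
  · left
    exact List.mem_append_right _ (side_pairs hi hs)

private def posB (x : Nd × Nd) : Bool :=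
  (!(x.1.a == x.2.a) || !(x.1.b == x.2.b)) && (Nat.blt x.1.u x.1.t && Nat.blt x.2.u x.2.t)

private theorem pos_all : (walls.all posB) = true := by decide +kernel

theorem walls_pos : ∀ w ∈ walls, 0 < (nx w.2 - nx w.1) ^ 2 + (ny w.2 - ny w.1) ^ 2 ∧
    nB w.1 < nT w.1 ∧ nB w.2 < nT w.2 := by
  intro w hw
  have h1 := List.all_eq_true.1 pos_all w hw
  unfold posB at h1
  simp only [Bool.and_eq_true, Bool.or_eq_true, Bool.not_eq_true', beq_eq_false_iff_ne, ne_eq] at h1
  obtain ⟨h1, h2, h3⟩ := h1
  have h2' : w.1.u < w.1.t := by simpa using h2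
  have h3' : w.2.u < w.2.t := by simpa using h3
  have h2'' : (w.1.u : ℝ) < w.1.t := by exact_mod_cast h2'
  have h3'' : (w.2.u : ℝ) < w.2.t := by exact_mod_cast h3'
  refine ⟨?_, ?_, ?_⟩
  · have hsq : (ny w.2 - ny w.1) ^ 2 = 3 * (((w.2.b : ℝ) - w.1.b) * 256) ^ 2 := by
      have : ny w.2 - ny w.1 = √3 * (((w.2.b : ℝ) - w.1.b) * 256) := by unfold ny; ring
      rw [this, mul_pow, Real.sq_sqrt (by norm_num)]
    rw [hsq]
    rcases h1 with h1 | h1
    · have : (w.2.a : ℝ) - w.1.a ≠ 0 := by
        intro hz
        apply h1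
        have : (w.1.a : ℝ) = w.2.a := by linarith
        exact_mod_cast this
      have h4 : nx w.2 - nx w.1 = ((w.2.a : ℝ) - w.1.a) * 256 := by unfold nx; ring
      rw [h4]
      positivity
    · have : (w.2.b : ℝ) - w.1.b ≠ 0 := by
        intro hz
        apply h1
        have : (w.1.b : ℝ) = w.2.b := by linarith
        exact_mod_cast this
      positivity
  · unfold nB nT; linarith
  · unfold nB nT; linarith

end BallBlock
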