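import Pool.Agent.BallBlock.Cert00
import Pool.Agent.BallBlock.Cert01
import Pool.Agent.BallBlock.Cert02
import Pool.Agent.BallBlock.Cert03
import Pool.Agent.BallBlock.Cert04
import Pool.Agent.BallBlock.Cert05
import Pool.Agent.BallBlock.Cert06
import Pool.Agent.BallBlock.Cert07
import Pool.Agent.BallBlock.Cert08
import Pool.Agent.BallBlock.Cert09
import Pool.Agent.BallBlock.Cert10
import Pool.Agent.BallBlock.Cert11
import Pool.Agent.BallBlock.Cert12
import Pool.Agent.BallBlock.Cert13
import Pool.Agent.BallBlock.Cert14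
import Pool.Agent.BallBlock.Cert15
import Pool.Agent.BallBlock.Run
import Pool.Agent.BallBlock.TableOK

/-!
The certificates of all representatives.
-/

open Real

namespace BallBlock

open K

/-- all certificates -/
def tdata : List (Nat × Nat × K.T) :=
  tdata00 ++ tdata01 ++ tdata02 ++ tdata03 ++ tdata04 ++ tdata05 ++ tdata06 ++ tdata07 ++
    tdata08 ++ tdata09 ++ tdata10 ++ tdata11 ++ tdata12 ++ tdata13 ++ tdata14 ++ tdata15

private theorem all_ok : ∀ x ∈ tdata, pairOK hh chains rim x.1 x.2.1 x.2.2 = true := by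
  intro x hx
  unfold tdata at hx
  simp only [List.mem_append] at hx
  rcases hx with ((((((((((((((h | h) | h) | h) | h) | h) | h) | h) | h) | h) | h) | h) | h) | h) | h) | h
  · exact allL_iff.1 t_ok00 x h
  · exact allL_iff.1 t_ok01 x h
  · exact allL_iff.1 t_ok02 x h
  · exact allL_iff.1 t_ok03 x h
  · exact allL_iff.1 t_ok04 x h
  · exact allL_iff.1 t_ok05 x h
  · exact allL_iff.1 t_ok06 x h
  · exact allL_iff.1 t_ok07 x h
  · exact allL_iff.1 t_ok08 x h
  · exact allL_iff.1 t_ok09 x h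
  · exact allL_iff.1 t_ok10 x h
  · exact allL_iff.1 t_ok11 x h
  · exact allL_iff.1 t_ok12 x h
  · exact allL_iff.1 t_ok13 x h
  · exact allL_iff.1 t_ok14 x h
  · exact allL_iff.1 t_ok15 x h

/-- indices of the certificates -/
def repList : List (Nat × Nat) :=
  (List.range 96).flatMap fun d => ((List.range 64).filter fun I => (2 * I + d + 2) % 128 ≤ 64).map fun I => (I, I + (d + 1))

private theorem rep_eq : tdata.map (fun x => (x.1, x.2.1)) = repList := by decide +kernel

private theorem mem_rep {I J : ℕ} (h : isRep I J) : (I, J) ∈ repList := by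
  obtain ⟨h1, h2, h3, h4⟩ := h
  unfold repList
  rw [List.mem_flatMap]
  refine ⟨J - I - 1, List.mem_range.2 (by omega), ?_⟩
  rw [List.mem_map]
  refine ⟨I, ?_, ?_⟩
  · rw [List.mem_filter]
    refine ⟨List.mem_range.2 h1, ?_⟩
    rw [decide_eq_true_eq]
    have : 2 * I + (J - I - 1) + 2 = I + J + 1 := by omega
    rw [this]; exact h4
  · have : I + (J - I - 1 + 1) = J := by omega
    rw [this]

theorem rep_good {I J : ℕ} (h : isRep I J) : GoodS I J := by
  have hm := mem_rep h
  rw [← rep_eq, List.mem_map] at hm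
  obtain ⟨x, hx, hxe⟩ := hm
  have h1 : x.1 = I := congrArg Prod.fst hxe
  have h2 : x.2.1 = J := congrArg Prod.snd hxe
  have hok := all_ok x hx
  rw [h1, h2] at hok
  obtain ⟨hI, hIJ, hJ, -⟩ := h
  have hI' : I < 192 := by omega
  have hJ' : J < 192 := by omega
  intro p q p' q' hs hs' l m hl0 hl1 hm0 hm1
  obtain ⟨r, hr⟩ := hs
  obtain ⟨r', hr'⟩ := hs'
  exact pair_sound table_ok hr hr' (Or.inr ⟨I, hI', r, hr⟩) (Or.inr ⟨J, hJ', r', hr'⟩)
    (rim_ok hI' ⟨r, hr⟩) (rim_ok hJ' ⟨r', hr'⟩) hok hl0 hl1 hm0 hm1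

end BallBlock
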