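import Pool.Agent.BallBlock.Defs

/-!
Roots of the quadratic polynomial `(u²+v²+w²) s² + 2 (a u + b v + c w) s + (a²+b²+c² - 1)`, which has a real root `t`.
-/

open Real

namespace BallBlock

/-- A line `p + t v` (coordinates `a b c` and `u v w`) that meets the unit sphere has chord end points
`s1 ≤ s2`; the scalar products give the outward directions. -/
theorem chord {a b c u v w t : ℝ} (hv : 0 < u ^ 2 + v ^ 2 + w ^ 2)
    (ht : (a + t * u) ^ 2 + (b + t * v) ^ 2 + (c + t * w) ^ 2 = 1) :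
    ∃ s1 s2 : ℝ, s1 ≤ s2 ∧
      (a + s1 * u) ^ 2 + (b + s1 * v) ^ 2 + (c + s1 * w) ^ 2 = 1 ∧
      (a + s2 * u) ^ 2 + (b + s2 * v) ^ 2 + (c + s2 * w) ^ 2 = 1 ∧
      (a + s1 * u) * u + (b + s1 * v) * v + (c + s1 * w) * w ≤ 0 ∧
      0 ≤ (a + s2 * u) * u + (b + s2 * v) * v + (c + s2 * w) * w := by
  -- the other root
  obtain ⟨t', ht'⟩ : ∃ t' : ℝ, (u ^ 2 + v ^ 2 + w ^ 2) * (t' + t) = -2 * (a * u + b * v + c * w) := by
    refine ⟨-2 * (a * u + b * v + c * w) / (u ^ 2 + v ^ 2 + w ^ 2) - t, ?_⟩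
    rw [sub_add_cancel, mul_div_cancel₀ _ hv.ne']
  have h1 : (a + t' * u) ^ 2 + (b + t' * v) ^ 2 + (c + t' * w) ^ 2 = 1 := by
    have h2 : (a + t' * u) ^ 2 + (b + t' * v) ^ 2 + (c + t' * w) ^ 2 =
        (a + t * u) ^ 2 + (b + t * v) ^ 2 + (c + t * w) ^ 2 +
          (t' - t) * ((u ^ 2 + v ^ 2 + w ^ 2) * (t' + t) + 2 * (a * u + b * v + c * w)) := by
      ring
    rw [h2, ht, ht']
    ring
  have h3 : (a + t' * u) * u + (b + t' * v) * v + (c + t' * w) * w =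
      -((a + t * u) * u + (b + t * v) * v + (c + t * w) * w) := by
    linarith
  have h4 : (u ^ 2 + v ^ 2 + w ^ 2) * (t' - t) =
      -2 * ((a + t * u) * u + (b + t * v) * v + (c + t * w) * w) := by
    linarith
  rcases le_total ((a + t * u) * u + (b + t * v) * v + (c + t * w) * w) 0 with h0 | h0
  · refine ⟨t, t', ?_, ht, h1, h0, ?_⟩
    · have h5 : 0 ≤ (u ^ 2 + v ^ 2 + w ^ 2) * (t' - t) := by rw [h4]; linarith
      have := nonneg_of_mul_nonneg_right h5 hv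
      linarith
    · rw [h3]; linarith
  · refine ⟨t', t, ?_, h1, ht, ?_, h0⟩
    · have h5 : 0 ≤ (u ^ 2 + v ^ 2 + w ^ 2) * (t - t') := by linarith
      have := nonneg_of_mul_nonneg_right h5 hv
      linarith
    · rw [h3]; linarith

end BallBlock
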