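import Pool.Agent.BallBlock.Rec

/-!
Meaning of `covAll` (unfold the two `Nat.rec`: induction on the number of steps; `covRow G H D x n` checks the patterns
`(x, x+1), ..., (x, x+n)`, `covAll G H D n x` checks row `x` with `n-1` patterns, then continues with `x+1`, `n-1`).
-/

open Real

namespace BallBlock

open K

private theorem cover_blt {x y : ℕ} : blt x y = true ↔ x < y := by
  have h : blt x y = Nat.ble (x + 1) y := rfl
  rw [h, Nat.ble_eq]
  exact Nat.succ_le_iff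

private theorem cover_P {G : List (ℕ × ℕ)} {H : List ℕ} {D : List (ℕ × ℕ × ℕ)} {x y : ℕ}
    (h : covP G H D x y = true) :
    (∃ g ∈ G, g.1 ≤ x ∧ y ≤ g.2) ∨ (∃ k ∈ H, x < k ∧ k < y) ∨
      (∃ d ∈ D, d.1 ≤ x ∧ x < d.2.1 ∧ d.2.1 < y ∧ y ≤ d.2.2) := by
  unfold covP at h
  rw [orr_iff, orr_iff, anyL_iff, anyL_iff, anyL_iff] at h
  rcases h with ⟨g, hg, h⟩ | ⟨k, hk, h⟩ | ⟨d, hd, h⟩
  · unfold covG at h
    rw [an_iff, Nat.ble_eq, Nat.ble_eq] at h
    exact Or.inl ⟨g, hg, h⟩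
  · unfold covH at h
    rw [an_iff, cover_blt, cover_blt] at h
    exact Or.inr (Or.inl ⟨k, hk, h⟩)
  · unfold covD at h
    rw [an_iff, an_iff, an_iff, Nat.ble_eq, Nat.ble_eq, cover_blt, cover_blt] at h
    exact Or.inr (Or.inr ⟨d, hd, h⟩)

private theorem cover_row {G : List (ℕ × ℕ)} {H : List ℕ} {D : List (ℕ × ℕ × ℕ)} {x n : ℕ}
    (h : covRow G H D x n = true) : ∀ y, x < y → y ≤ x + n → covP G H D x y = true := by
  induction n with
  | zero =>
    intro y h1 h2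
    omega
  | succ n ih =>
    have h0 : covRow G H D x (n + 1) =
        an (covP G H D x (x + (n + 1))) (covRow G H D x n) := rfl
    rw [h0, an_iff] at h
    intro y h1 h2
    rcases Nat.lt_or_ge (x + n) y with h3 | h3
    · have : y = x + (n + 1) := by omega
      rw [this]
      exact h.1
    · exact ih h.2 y h1 h3

private theorem cover_all {G : List (ℕ × ℕ)} {H : List ℕ} {D : List (ℕ × ℕ × ℕ)} (m : ℕ) :
    ∀ x₀, covAll G H D m x₀ = true →
      ∀ x y, x₀ ≤ x → x < y → y < x₀ + m → covP G H D x y = true := by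
  induction m with
  | zero =>
    intro x₀ _ x y h1 h2 h3
    omega
  | succ n ih =>
    intro x₀ h x y h1 h2 h3
    have h0 : covAll G H D (n + 1) x₀ =
        an (covRow G H D x₀ n) (covAll G H D n (x₀ + 1)) := rfl
    rw [h0, an_iff] at h
    rcases Nat.eq_or_lt_of_le h1 with h4 | h4
    · subst h4
      exact cover_row h.1 y h2 (by omega)
    · exact ih (x₀ + 1) h.2 x y h4 h2 (by omega)

theorem cov_sound {G : List (ℕ × ℕ)} {H : List ℕ} {D : List (ℕ × ℕ × ℕ)} {m : ℕ}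
    (h : covAll G H D m 0 = true) {x y : ℕ} (hxy : x < y) (hy : y < m) :
    (∃ g ∈ G, g.1 ≤ x ∧ y ≤ g.2) ∨ (∃ k ∈ H, x < k ∧ k < y) ∨
      (∃ d ∈ D, d.1 ≤ x ∧ x < d.2.1 ∧ d.2.1 < y ∧ y ≤ d.2.2) :=
  cover_P (cover_all m 0 h x y (Nat.zero_le x) hxy (by omega))

end BallBlock
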