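import Pool.Agent.BallBlock.SubReal
import Pool.Agent.BallBlock.Rec

/-!
`mkC4 sI sJ` contains the four lines from a vertex of `sI` to a vertex of `sJ`; `phP c v - phN c v` is
`(qa - pa) (b - pb) - (qb - pb) (a - pa)`, so `√3` times it is the cross product `(Q - P) × (v - P)` (real coordinates). `sepI` says: the
first vertex of the item is strictly on one side of the four lines and the last vertex strictly on the other side (`lstV l s.w` is the end
vertex `w` of the last sub-edge). The cross product `φ(P, Q, v)` is affine in `P` and affine in `Q`, so for every `P` on `sI`, `Q` on `sJ`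
it has the same sign. Walking along the linked sub-edges take the first sub-edge with `φ(v) > 0 ≥ φ(w)` (or reversed signs): the
point `X = lr v w l`, `l = φ(v) / (φ(v) - φ(w)) ∈ (0, 1]` is on the line; transversality: `φ(w) - φ(v) ≠ 0` is the last expression.
-/

open Real

namespace BallBlock

open K

/-- cross product of `Q - P` and `v - P` -/
private noncomputable def crossF (Px Py Qx Qy : ℝ) (v : Vx) : ℝ :=
  (Qx - Px) * (vy v - Py) - (Qy - Py) * (vx v - Px)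

private theorem cross_ph (p q v : Vx) :
    crossF (vx p) (vy p) (vx q) (vy q) v =
      √3 * ((phP (mkLn p.a p.b q.a q.b) v : ℝ) - (phN (mkLn p.a p.b q.a q.b) v : ℝ)) := by
  have h1 : phP (mkLn p.a p.b q.a q.b) v = q.a * v.b + p.b * v.a + q.b * p.a := rfl
  have h2 : phN (mkLn p.a p.b q.a q.b) v = p.a * v.b + q.b * v.a + q.a * p.b := rfl
  rw [h1, h2]
  unfold crossF vx vy
  push_cast
  ring

private theorem cross_pos {p q v : Vx} (h : posL (mkLn p.a p.b q.a q.b) v = true) :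
    0 < crossF (vx p) (vy p) (vx q) (vy q) v := by
  rw [cross_ph]
  have h1 : phN (mkLn p.a p.b q.a q.b) v < phP (mkLn p.a p.b q.a q.b) v :=
    Nat.le_of_ble_eq_true h
  have h2 : (phN (mkLn p.a p.b q.a q.b) v : ℝ) < (phP (mkLn p.a p.b q.a q.b) v : ℝ) :=
    Nat.cast_lt.2 h1
  have h3 : (0 : ℝ) < √3 := Real.sqrt_pos.2 (by norm_num)
  exact mul_pos h3 (by linarith)

private theorem cross_neg {p q v : Vx} (h : negL (mkLn p.a p.b q.a q.b) v = true) :
    crossF (vx p) (vy p) (vx q) (vy q) v < 0 := by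
  rw [cross_ph]
  have h1 : phP (mkLn p.a p.b q.a q.b) v < phN (mkLn p.a p.b q.a q.b) v :=
    Nat.le_of_ble_eq_true h
  have h2 : (phP (mkLn p.a p.b q.a q.b) v : ℝ) < (phN (mkLn p.a p.b q.a q.b) v : ℝ) :=
    Nat.cast_lt.2 h1
  have h3 : (0 : ℝ) < √3 := Real.sqrt_pos.2 (by norm_num)
  exact mul_neg_of_pos_of_neg h3 (by linarith)

/-- bilinear interpolation -/
private theorem cross_lin (x0 y0 x1 y1 X0 Y0 X1 Y1 l m : ℝ) (v : Vx) :
    crossF (lr x0 x1 l) (lr y0 y1 l) (lr X0 X1 m) (lr Y0 Y1 m) v =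
      (1 - l) * (1 - m) * crossF x0 y0 X0 Y0 v + (1 - l) * m * crossF x0 y0 X1 Y1 v +
        l * (1 - m) * crossF x1 y1 X0 Y0 v + l * m * crossF x1 y1 X1 Y1 v := by
  unfold crossF lr
  ring

private theorem cross_weights {a b c d l m : ℝ} (hl0 : 0 ≤ l) (hl1 : l ≤ 1) (hm0 : 0 ≤ m)
    (hm1 : m ≤ 1) (ha : 0 < a) (hb : 0 < b) (hc : 0 < c) (hd : 0 < d) :
    0 < (1 - l) * (1 - m) * a + (1 - l) * m * b + l * (1 - m) * c + l * m * d := by
  set e : ℝ := min (min a b) (min c d) with he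
  have he0 : 0 < e := lt_min (lt_min ha hb) (lt_min hc hd)
  have hea : e ≤ a := (min_le_left _ _).trans (min_le_left _ _)
  have heb : e ≤ b := (min_le_left _ _).trans (min_le_right _ _)
  have hec : e ≤ c := (min_le_right _ _).trans (min_le_left _ _)
  have hed : e ≤ d := (min_le_right _ _).trans (min_le_right _ _)
  have h1 := mul_le_mul_of_nonneg_left hea
    (mul_nonneg (sub_nonneg.2 hl1) (sub_nonneg.2 hm1))
  have h2 := mul_le_mul_of_nonneg_left heb (mul_nonneg (sub_nonneg.2 hl1) hm0)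
  have h3 := mul_le_mul_of_nonneg_left hec (mul_nonneg hl0 (sub_nonneg.2 hm1))
  have h4 := mul_le_mul_of_nonneg_left hed (mul_nonneg hl0 hm0)
  have h5 : (1 - l) * (1 - m) * e + (1 - l) * m * e + l * (1 - m) * e + l * m * e = e := by ring
  linarith

private theorem cross_pos4 {sI sJ : Sub} {Px Py TP BP lP Qx Qy TQ BQ lQ : ℝ}
    (oP : OnSub sI Px Py TP BP lP) (oQ : OnSub sJ Qx Qy TQ BQ lQ) {v : Vx}
    (h : pos4 (mkC4 sI sJ) v = true) : 0 < crossF Px Py Qx Qy v := by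
  rw [pos4, an_iff, an_iff, an_iff] at h
  obtain ⟨h1, h2, h3, h4⟩ := h
  rw [oP.hX, oP.hY, oQ.hX, oQ.hY, cross_lin]
  exact cross_weights oP.l0 oP.l1 oQ.l0 oQ.l1 (cross_pos h1) (cross_pos h2) (cross_pos h3)
    (cross_pos h4)

private theorem cross_neg4 {sI sJ : Sub} {Px Py TP BP lP Qx Qy TQ BQ lQ : ℝ}
    (oP : OnSub sI Px Py TP BP lP) (oQ : OnSub sJ Qx Qy TQ BQ lQ) {v : Vx}
    (h : neg4 (mkC4 sI sJ) v = true) : crossF Px Py Qx Qy v < 0 := by
  rw [neg4, an_iff, an_iff, an_iff] at h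
  obtain ⟨h1, h2, h3, h4⟩ := h
  rw [oP.hX, oP.hY, oQ.hX, oQ.hY, cross_lin]
  have h5 := cross_weights oP.l0 oP.l1 oQ.l0 oQ.l1 (neg_pos.2 (cross_neg h1))
    (neg_pos.2 (cross_neg h2)) (neg_pos.2 (cross_neg h3)) (neg_pos.2 (cross_neg h4))
  linarith

/-- walking along linked sub-edges -/
private theorem cross_walk (F : Vx → ℝ) (l : List Sub) : ∀ s : Sub, Linked (s :: l) → 0 < F s.v →
    F (lstV l s.w) < 0 → ∃ t ∈ s :: l, 0 < F t.v ∧ F t.w ≤ 0 := by
  induction l with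
  | nil =>
    intro s _ h1 h2
    exact ⟨s, List.mem_cons_self, h1, le_of_lt h2⟩
  | cons t l ih =>
    intro s hl h1 h2
    rcases le_or_gt (F s.w) 0 with h3 | h3
    · exact ⟨s, List.mem_cons_self, h1, h3⟩
    · obtain ⟨h4, h5⟩ : s.w = t.v ∧ Linked (t :: l) := hl
      obtain ⟨r, hr, h6⟩ := ih t h5 (by rw [← h4]; exact h3) h2
      exact ⟨r, List.mem_cons_of_mem _ hr, h6⟩

/-- the crossing point of one sub-edge -/
private theorem cross_point {s : Sub} {Px Py Qx Qy : ℝ}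
    (h : (0 < crossF Px Py Qx Qy s.v ∧ crossF Px Py Qx Qy s.w ≤ 0) ∨
      (0 < -crossF Px Py Qx Qy s.v ∧ -crossF Px Py Qx Qy s.w ≤ 0)) :
    ∃ X Y Tp Bt l, OnSub s X Y Tp Bt l ∧
      (Qx - Px) * (Y - Py) - (Qy - Py) * (X - Px) = 0 ∧
      (Qx - Px) * (vy s.w - vy s.v) - (Qy - Py) * (vx s.w - vx s.v) ≠ 0 := by
  set f : ℝ := crossF Px Py Qx Qy s.v with hf
  set g : ℝ := crossF Px Py Qx Qy s.w with hg
  have hne : f - g ≠ 0 := by
    rcases h with ⟨h1, h2⟩ | ⟨h1, h2⟩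
    · exact ne_of_gt (by linarith)
    · exact ne_of_lt (by linarith)
  have hl : 0 ≤ f / (f - g) ∧ f / (f - g) ≤ 1 := by
    rcases h with ⟨h1, h2⟩ | ⟨h1, h2⟩
    · refine ⟨div_nonneg h1.le (by linarith), ?_⟩
      rw [div_le_one (by linarith)]
      linarith
    · refine ⟨div_nonneg_of_nonpos (by linarith) (by linarith), ?_⟩
      rw [div_le_one_of_neg (by linarith)]
      linarith
  set l : ℝ := f / (f - g) with hldef
  have hlf : l * (f - g) = f := by rw [hldef, div_mul_cancel₀ _ hne]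
  refine ⟨lr (vx s.v) (vx s.w) l, lr (vy s.v) (vy s.w) l, lr (vT s.v) (vT s.w) l,
    lr (vB s.v) (vB s.w) l, l, ⟨hl.1, hl.2, rfl, rfl, rfl, rfl⟩, ?_, ?_⟩
  · have h1 : (Qx - Px) * (lr (vy s.v) (vy s.w) l - Py) -
        (Qy - Py) * (lr (vx s.v) (vx s.w) l - Px) = f - l * (f - g) := by
      rw [hf, hg]; unfold crossF lr; ring
    rw [h1, hlf, sub_self]
  · have h1 : (Qx - Px) * (vy s.w - vy s.v) - (Qy - Py) * (vx s.w - vx s.v) = -(f - g) := by
      rw [hf, hg]; unfold crossF; ring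
    rw [h1]
    exact neg_ne_zero.2 hne

theorem cross_sound {sI sJ : Sub} {A : List Sub} (hl : Linked A) (hsep : sepI (mkC4 sI sJ) A = true)
    {Px Py TP BP lP Qx Qy TQ BQ lQ : ℝ} (oP : OnSub sI Px Py TP BP lP) (oQ : OnSub sJ Qx Qy TQ BQ lQ) :
    ∃ s ∈ A, ∃ X Y Tp Bt l, OnSub s X Y Tp Bt l ∧
      (Qx - Px) * (Y - Py) - (Qy - Py) * (X - Px) = 0 ∧
      (Qx - Px) * (vy s.w - vy s.v) - (Qy - Py) * (vx s.w - vx s.v) ≠ 0 := by
  cases A with
  | nil => exact absurd hsep Bool.false_ne_true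
  | cons s l =>
    have h1 : sep2 (mkC4 sI sJ) s.v (lstV l s.w) = true := hsep
    rw [sep2, orr_iff, an_iff, an_iff] at h1
    rcases h1 with ⟨h2, h3⟩ | ⟨h2, h3⟩
    · obtain ⟨t, ht, h4⟩ := cross_walk (crossF Px Py Qx Qy) l s hl (cross_pos4 oP oQ h2)
        (cross_neg4 oP oQ h3)
      obtain ⟨X, Y, Tp, Bt, r, h5⟩ := cross_point (Or.inl h4)
      exact ⟨t, ht, X, Y, Tp, Bt, r, h5⟩
    · obtain ⟨t, ht, h4⟩ := cross_walk (fun v => -crossF Px Py Qx Qy v) l s hl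
        (neg_pos.2 (cross_neg4 oP oQ h2)) (neg_lt_zero.2 (cross_pos4 oP oQ h3))
      obtain ⟨X, Y, Tp, Bt, r, h5⟩ := cross_point (Or.inr h4)
      exact ⟨t, ht, X, Y, Tp, Bt, r, h5⟩

end BallBlock
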