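import Pool.Agent.BallBlock.SubReal
import Pool.Agent.BallBlock.Rec

/-!
Meaning of the D check. With `e = q - p` (nodes of the edge of `k`, refined coordinates), the checker computes for
a vertex `v` the numbers `lp - ln = L(v)` where `√3 L(v) = e × (v - p)` (cross product) [`lp`, `ln` = positive and negative part],
and `gp - gn = G(v) = (2 T(v) - B~(v)) |e|²` where `B~(v) = 2 B_p + (2 B_q - 2 B_p) ⟨v - p, e⟩ / |e|²` is the affine extension of the
doubled bottom, constant across the edge (metric `a a' + 3 b b'` = real scalar product). The check says: either for all four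
pairs (x vertex of s, y vertex of t) `L x ≤ 0 ≤ L y` and `L y * G x - L x * G y ≥ 0`, or the same with both signs of `L` reversed.
`L` and `G` are affine functions of the point along a sub-edge, so `L Y * G X - L X * G Y` is bi-affine and the same holds for the
points `(X, Y, Tp)` of `s` and `(X', Y', Tp')` of `t`. The point `lr X X' w` is on the line of `k` (`IsMk k`, `OnSub k`; the direction
of the sub-edge is a multiple of `e`), so `(1-w) L X + w L X' = 0`; `htr` says the line `X X'` is not parallel to `e`, so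
`L X ≠ L X'`, hence `(1-w) G X + w G X' = (L X' * G X - L X * G X') / (L X' - L X) ≥ 0`, and `(1-w) B~(X) + w B~(X') = B~(Xk) = 2 Bk`
(`onSub_edge` gives the parameter `m` on the edge). Divide by `|e|² > 0`.
-/

open Real

namespace BallBlock

open K

private theorem dcert_core {LP LP' GP GP' w : ℝ} (_hw0 : 0 < w) (hw1 : w < 1)
    (h0 : (1 - w) * LP + w * LP' = 0) (hne : LP' - LP ≠ 0) (h1 : 0 ≤ LP')
    (h3 : 0 ≤ LP' * GP - LP * GP') : 0 ≤ (1 - w) * GP + w * GP' := by
  have hpos : 0 < LP' := by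
    rcases h1.eq_or_lt with h | h
    · exfalso
      apply hne
      rw [← h, mul_zero, add_zero] at h0
      rcases mul_eq_zero.mp h0 with h4 | h4
      · linarith
      · rw [h4, ← h, sub_zero]
    · exact h
  have h5 : LP' * ((1 - w) * GP + w * GP') = (1 - w) * (LP' * GP - LP * GP') := by
    have : w * LP' = -((1 - w) * LP) := by linarith
    calc LP' * ((1 - w) * GP + w * GP') = (1 - w) * (LP' * GP) + (w * LP') * GP' := by ring
      _ = (1 - w) * (LP' * GP) + (-((1 - w) * LP)) * GP' := by rw [this]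
      _ = (1 - w) * (LP' * GP - LP * GP') := by ring
  have h6 : 0 ≤ LP' * ((1 - w) * GP + w * GP') := by
    rw [h5]
    exact mul_nonneg (by linarith) h3
  exact nonneg_of_mul_nonneg_right h6 hpos

private theorem dcert_biaff {a b c d A B C D l m w : ℝ} (hl0 : 0 ≤ l) (hl1 : l ≤ 1) (hm0 : 0 ≤ m)
    (hm1 : m ≤ 1) (hw0 : 0 < w) (hw1 : w < 1) (hc : 0 ≤ c) (hd : 0 ≤ d)
    (h1 : 0 ≤ c * A - a * C) (h2 : 0 ≤ d * A - a * D) (h3 : 0 ≤ c * B - b * C) (h4 : 0 ≤ d * B - b * D)
    (h0 : (1 - w) * lr a b l + w * lr c d m = 0) (hne : lr c d m - lr a b l ≠ 0) :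
    0 ≤ (1 - w) * lr A B l + w * lr C D m := by
  apply dcert_core hw0 hw1 h0 hne
  · unfold lr
    have := mul_nonneg (sub_nonneg.mpr hm1) hc
    have := mul_nonneg hm0 hd
    linarith
  · have e : lr c d m * lr A B l - lr a b l * lr C D m =
        ((1 - l) * (1 - m)) * (c * A - a * C) + ((1 - l) * m) * (d * A - a * D) +
        (l * (1 - m)) * (c * B - b * C) + (l * m) * (d * B - b * D) := by
      unfold lr
      ring
    rw [e]
    have k1 := mul_nonneg (mul_nonneg (sub_nonneg.mpr hl1) (sub_nonneg.mpr hm1)) h1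
    have k2 := mul_nonneg (mul_nonneg (sub_nonneg.mpr hl1) hm0) h2
    have k3 := mul_nonneg (mul_nonneg hl0 (sub_nonneg.mpr hm1)) h3
    have k4 := mul_nonneg (mul_nonneg hl0 hm0) h4
    linarith

/-- cross product with the edge -/
private noncomputable def dcertL (p q : Nd) (X Y : ℝ) : ℝ :=
  (nx q - nx p) * (Y - ny p) - (ny q - ny p) * (X - nx p)

/-- height above the affine extension of the bottom (doubled, times the squared length) -/
private noncomputable def dcertG (p q : Nd) (X Y T : ℝ) : ℝ :=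
  (2 * T - 2 * nB p) * ((nx q - nx p) ^ 2 + (ny q - ny p) ^ 2) -
    (2 * nB q - 2 * nB p) * ((X - nx p) * (nx q - nx p) + (Y - ny p) * (ny q - ny p))

private theorem dcertL_lr (p q : Nd) (X Y X' Y' l : ℝ) :
    dcertL p q (lr X X' l) (lr Y Y' l) = lr (dcertL p q X Y) (dcertL p q X' Y') l := by
  unfold dcertL lr
  ring

private theorem dcertG_lr (p q : Nd) (X Y T X' Y' T' l : ℝ) :
    dcertG p q (lr X X' l) (lr Y Y' l) (lr T T' l) = lr (dcertG p q X Y T) (dcertG p q X' Y' T') l := by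
  unfold dcertG lr
  ring

private theorem dcert_sub (x y : ℕ) : ((Nat.sub x y : ℕ) : ℝ) - ((Nat.sub y x : ℕ) : ℝ) = x - y := by
  show ((x - y : ℕ) : ℝ) - ((y - x : ℕ) : ℝ) = x - y
  rcases le_total x y with h | h
  · rw [Nat.sub_eq_zero_of_le h, Nat.cast_sub h]
    simp
  · rw [Nat.sub_eq_zero_of_le h, Nat.cast_sub h]
    simp

private theorem dcert_ad (x y : ℕ) : ((ad x y : ℕ) : ℝ) ^ 2 = ((y : ℝ) - x) ^ 2 := by
  show (((x - y) + (y - x) : ℕ) : ℝ) ^ 2 = ((y : ℝ) - x) ^ 2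
  rcases le_total x y with h | h
  · rw [Nat.sub_eq_zero_of_le h, zero_add, Nat.cast_sub h]
  · rw [Nat.sub_eq_zero_of_le h, add_zero, Nat.cast_sub h]
    ring

private theorem dcert_L (p q : Nd) (v : Vx) :
    dcertL p q (vx v) (vy v) = √3 * (((mkDV (mkED p q) v).lp : ℝ) - (mkDV (mkED p q) v).ln) := by
  have e : ((mkDV (mkED p q) v).lp : ℝ) - (mkDV (mkED p q) v).ln =
      ((phP (mkED p q).l v : ℕ) : ℝ) - ((phN (mkED p q).l v : ℕ) : ℝ) := dcert_sub _ _
  rw [e]
  have e1 : phP (mkED p q).l v = (256 * q.a) * v.b + (256 * p.b) * v.a + (256 * q.b) * (256 * p.a) := rfl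
  have e2 : phN (mkED p q).l v = (256 * p.a) * v.b + (256 * q.b) * v.a + (256 * q.a) * (256 * p.b) := rfl
  rw [e1, e2]
  unfold dcertL nx ny vx vy
  push_cast
  ring

private theorem dcert_L2 (p q : Nd) :
    (((mkED p q).L2 : ℕ) : ℝ) = (nx q - nx p) ^ 2 + (ny q - ny p) ^ 2 := by
  have e : (mkED p q).L2 = (ad (256 * p.a) (256 * q.a)) * (ad (256 * p.a) (256 * q.a)) +
      3 * ((ad (256 * p.b) (256 * q.b)) * (ad (256 * p.b) (256 * q.b))) := rfl
  rw [e]
  push_cast
  have e1 := dcert_ad (256 * p.a) (256 * q.a)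
  have e2 := dcert_ad (256 * p.b) (256 * q.b)
  rw [sq] at e1 e2
  rw [e1, e2]
  unfold nx ny
  have e3 : (√3 : ℝ) ^ 2 = 3 := Real.sq_sqrt (by norm_num)
  have e4 : (√3 * (((q.b : ℝ) - 32768) * 256) - √3 * (((p.b : ℝ) - 32768) * 256)) ^ 2 =
      √3 ^ 2 * ((((q.b : ℝ) - 32768) * 256) - (((p.b : ℝ) - 32768) * 256)) ^ 2 := by ring
  rw [e4, e3]
  push_cast
  ring

private theorem dcert_G (p q : Nd) (v : Vx) :
    dcertG p q (vx v) (vy v) (vT v) = ((mkDV (mkED p q) v).gp : ℝ) - (mkDV (mkED p q) v).gn := by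
  have hL2 := dcert_L2 p q
  set K : ℕ := (mkED p q).L2 with hK
  set dP : ℕ := (v.a * (256 * q.a) + 3 * (v.b * (256 * q.b))) +
    ((256 * p.a) * (256 * p.a) + 3 * ((256 * p.b) * (256 * p.b))) with hdP
  set dN : ℕ := (v.a * (256 * p.a) + 3 * (v.b * (256 * p.b))) +
    ((256 * p.a) * (256 * q.a) + 3 * ((256 * p.b) * (256 * q.b))) with hdN
  have egp : (mkDV (mkED p q) v).gp = v.t * K +
      (ad (65536 * p.u) (65536 * q.u)) * (Bool.rec dP dN (Nat.ble (65536 * p.u) (65536 * q.u)) : ℕ) := rfl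
  have egn : (mkDV (mkED p q) v).gn = (65536 * p.u) * K +
      (ad (65536 * p.u) (65536 * q.u)) * (Bool.rec dN dP (Nat.ble (65536 * p.u) (65536 * q.u)) : ℕ) := rfl
  have e3 : (√3 : ℝ) * √3 = 3 := Real.mul_self_sqrt (by norm_num)
  have hdot : (vx v - nx p) * (nx q - nx p) + (vy v - ny p) * (ny q - ny p) = (dP : ℝ) - dN := by
    have e4 : (vy v - ny p) * (ny q - ny p) = (√3 * √3) *
        ((((v.b : ℝ) - 8388608) - ((p.b : ℝ) - 32768) * 256) *
          (((q.b : ℝ) - 32768) * 256 - ((p.b : ℝ) - 32768) * 256)) := by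
      unfold vy ny
      ring
    rw [e4, e3, hdP, hdN]
    unfold vx nx
    push_cast
    ring
  unfold dcertG
  rw [hdot, ← hL2]
  have hT : 2 * vT v = (v.t : ℝ) - 281474976710656 := by unfold vT; ring
  have hBp : 2 * nB p = 65536 * (p.u : ℝ) - 281474976710656 := by unfold nB; ring
  have hBq : 2 * nB q = 65536 * (q.u : ℝ) - 281474976710656 := by unfold nB; ring
  rw [hT, hBp, hBq, egp, egn]
  by_cases h : 65536 * p.u ≤ 65536 * q.u
  · have hb : Nat.ble (65536 * p.u) (65536 * q.u) = true := Nat.ble_eq.mpr h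
    rw [hb]
    have had : ad (65536 * p.u) (65536 * q.u) = 65536 * q.u - 65536 * p.u := by
      show (65536 * p.u - 65536 * q.u) + (65536 * q.u - 65536 * p.u) = _
      omega
    rw [had]
    push_cast [Nat.cast_sub h]
    ring
  · have hb : Nat.ble (65536 * p.u) (65536 * q.u) = false := by
      rw [Bool.eq_false_iff]
      intro hh
      exact h (Nat.ble_eq.mp hh)
    rw [hb]
    have h' : 65536 * q.u ≤ 65536 * p.u := by omega
    have had : ad (65536 * p.u) (65536 * q.u) = 65536 * p.u - 65536 * q.u := by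
      show (65536 * p.u - 65536 * q.u) + (65536 * q.u - 65536 * p.u) = _
      omega
    rw [had]
    push_cast [Nat.cast_sub h']
    ring

/-- the pair check, real form -/
private theorem dcert_dA {p q : Nd} {v v' : Vx} (h : dA (mkDV (mkED p q) v) (mkDV (mkED p q) v') = true) :
    0 ≤ dcertL p q (vx v') (vy v') ∧
    0 ≤ dcertL p q (vx v') (vy v') * dcertG p q (vx v) (vy v) (vT v) -
      dcertL p q (vx v) (vy v) * dcertG p q (vx v') (vy v') (vT v') := by
  rw [dcert_L, dcert_L, dcert_G, dcert_G]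
  set x := mkDV (mkED p q) v
  set y := mkDV (mkED p q) v'
  unfold dA at h
  rw [an_iff, an_iff] at h
  obtain ⟨h1, h2, h3⟩ := h
  have h1' : x.lp = 0 := Nat.eq_of_beq_eq_true h1
  have h2' : y.ln = 0 := Nat.eq_of_beq_eq_true h2
  have h3' : y.lp * x.gn + x.ln * y.gn ≤ y.lp * x.gp + x.ln * y.gp := Nat.ble_eq.mp h3
  have h4 : (y.lp : ℝ) * x.gn + x.ln * y.gn ≤ y.lp * x.gp + x.ln * y.gp := by exact_mod_cast h3'
  have h5 : (0 : ℝ) ≤ √3 := Real.sqrt_nonneg 3
  rw [h1', h2', Nat.cast_zero, sub_zero, zero_sub]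
  constructor
  · positivity
  · have : √3 * (y.lp : ℝ) * ((x.gp : ℝ) - x.gn) - √3 * (-(x.ln : ℝ)) * ((y.gp : ℝ) - y.gn) =
        √3 * (((y.lp : ℝ) * x.gp + x.ln * y.gp) - ((y.lp : ℝ) * x.gn + x.ln * y.gn)) := by ring
    rw [this]
    exact mul_nonneg h5 (by linarith)

private theorem dcert_dB {p q : Nd} {v v' : Vx} (h : dB (mkDV (mkED p q) v) (mkDV (mkED p q) v') = true) :
    0 ≤ -dcertL p q (vx v') (vy v') ∧
    0 ≤ -dcertL p q (vx v') (vy v') * dcertG p q (vx v) (vy v) (vT v) -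
      -dcertL p q (vx v) (vy v) * dcertG p q (vx v') (vy v') (vT v') := by
  rw [dcert_L, dcert_L, dcert_G, dcert_G]
  set x := mkDV (mkED p q) v
  set y := mkDV (mkED p q) v'
  unfold dB at h
  rw [an_iff, an_iff] at h
  obtain ⟨h1, h2, h3⟩ := h
  have h1' : x.ln = 0 := Nat.eq_of_beq_eq_true h1
  have h2' : y.lp = 0 := Nat.eq_of_beq_eq_true h2
  have h3' : y.ln * x.gn + x.lp * y.gn ≤ y.ln * x.gp + x.lp * y.gp := Nat.ble_eq.mp h3
  have h4 : (y.ln : ℝ) * x.gn + x.lp * y.gn ≤ y.ln * x.gp + x.lp * y.gp := by exact_mod_cast h3'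
  have h5 : (0 : ℝ) ≤ √3 := Real.sqrt_nonneg 3
  rw [h1', h2', Nat.cast_zero, sub_zero, zero_sub]
  constructor
  · have : -(√3 * -(y.ln : ℝ)) = √3 * y.ln := by ring
    rw [this]
    positivity
  · have : -(√3 * -(y.ln : ℝ)) * ((x.gp : ℝ) - x.gn) - -(√3 * (x.lp : ℝ)) * ((y.gp : ℝ) - y.gn) =
        √3 * (((y.ln : ℝ) * x.gp + x.lp * y.gp) - ((y.ln : ℝ) * x.gn + x.lp * y.gn)) := by ring
    rw [this]
    exact mul_nonneg h5 (by linarith)

/-- `k` is crossed transversally at `lr X X' w` by the segment from a point of `s` to a point of `t` -/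
theorem d_sound {s k t : Sub} (hk : IsMk k) (hd : dS2 (mkED k.p k.q) s t = true)
    {X Y Tp Bt l X' Y' Tp' Bt' l' Xk Yk Tk Bk lk w : ℝ} (o : OnSub s X Y Tp Bt l)
    (o' : OnSub t X' Y' Tp' Bt' l') (ok : OnSub k Xk Yk Tk Bk lk) (hw0 : 0 < w) (hw1 : w < 1)
    (hX : Xk = lr X X' w) (hY : Yk = lr Y Y' w)
    (htr : (vx k.w - vx k.v) * (Y' - Y) - (vy k.w - vy k.v) * (X' - X) ≠ 0) :
    Bk ≤ lr Tp Tp' w := by
  obtain ⟨m, _, _, mX, mY, _, mB⟩ := onSub_edge hk ok
  have ov : OnSub k (vx k.v) (vy k.v) (vT k.v) (vB k.v) 0 :=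
    ⟨le_refl _, zero_le_one, by unfold lr; ring, by unfold lr; ring, by unfold lr; ring, by unfold lr; ring⟩
  have ow : OnSub k (vx k.w) (vy k.w) (vT k.w) (vB k.w) 1 :=
    ⟨zero_le_one, le_refl _, by unfold lr; ring, by unfold lr; ring, by unfold lr; ring, by unfold lr; ring⟩
  obtain ⟨m0, _, _, aX, aY, _, _⟩ := onSub_edge hk ov
  obtain ⟨m1, _, _, bX, bY, _, _⟩ := onSub_edge hk ow
  set p := k.p
  set q := k.q
  set ex := nx q - nx p with hex
  set ey := ny q - ny p with hey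
  have hdir : (vx k.w - vx k.v) * (Y' - Y) - (vy k.w - vy k.v) * (X' - X) =
      (m1 - m0) * (ex * (Y' - Y) - ey * (X' - X)) := by
    rw [aX, aY, bX, bY, hex, hey]
    unfold lr
    ring
  rw [hdir] at htr
  have hne : ex * (Y' - Y) - ey * (X' - X) ≠ 0 := (mul_ne_zero_iff.mp htr).2
  have hE : 0 < ex ^ 2 + ey ^ 2 := by
    by_contra hcon
    have h1 : ex ^ 2 + ey ^ 2 = 0 := le_antisymm (not_lt.mp hcon) (by positivity)
    have h2 : ex = 0 := by nlinarith [sq_nonneg ex, sq_nonneg ey]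
    have h3 : ey = 0 := by nlinarith [sq_nonneg ex, sq_nonneg ey]
    apply hne
    rw [h2, h3]
    ring
  -- the value of L at the crossing
  have hLk : dcertL p q Xk Yk = 0 := by
    rw [mX, mY]
    unfold dcertL lr
    ring
  have hGk : dcertG p q Xk Yk (lr Tp Tp' w) = 2 * (ex ^ 2 + ey ^ 2) * (lr Tp Tp' w - Bk) := by
    rw [mX, mY, mB]
    set T := lr Tp Tp' w
    rw [hex, hey]
    unfold dcertG lr
    ring
  have hLk' : (1 - w) * dcertL p q X Y + w * dcertL p q X' Y' = 0 := by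
    rw [hX, hY, dcertL_lr] at hLk
    exact hLk
  have hGk' : dcertG p q Xk Yk (lr Tp Tp' w) = (1 - w) * dcertG p q X Y Tp + w * dcertG p q X' Y' Tp' := by
    rw [hX, hY, dcertG_lr]
    rfl
  have hdiff : dcertL p q X' Y' - dcertL p q X Y = ex * (Y' - Y) - ey * (X' - X) := by
    rw [hex, hey]
    unfold dcertL
    ring
  have sL : dcertL p q X Y = lr (dcertL p q (vx s.v) (vy s.v)) (dcertL p q (vx s.w) (vy s.w)) l := by
    rw [o.hX, o.hY, dcertL_lr]
  have sG : dcertG p q X Y Tp =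
      lr (dcertG p q (vx s.v) (vy s.v) (vT s.v)) (dcertG p q (vx s.w) (vy s.w) (vT s.w)) l := by
    rw [o.hX, o.hY, o.hT, dcertG_lr]
  have tL : dcertL p q X' Y' = lr (dcertL p q (vx t.v) (vy t.v)) (dcertL p q (vx t.w) (vy t.w)) l' := by
    rw [o'.hX, o'.hY, dcertL_lr]
  have tG : dcertG p q X' Y' Tp' =
      lr (dcertG p q (vx t.v) (vy t.v) (vT t.v)) (dcertG p q (vx t.w) (vy t.w) (vT t.w)) l' := by
    rw [o'.hX, o'.hY, o'.hT, dcertG_lr]
  have key : 0 ≤ (1 - w) * dcertG p q X Y Tp + w * dcertG p q X' Y' Tp' := by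
    unfold dS2 dP4 at hd
    rw [orr_iff, an_iff, an_iff, an_iff, an_iff, an_iff, an_iff] at hd
    rw [← hdiff] at hne
    rcases hd with ⟨g1, g2, g3, g4⟩ | ⟨g1, g2, g3, g4⟩
    · have k1 := dcert_dA g1
      have k2 := dcert_dA g2
      have k3 := dcert_dA g3
      have k4 := dcert_dA g4
      rw [sL, tL] at hLk' hne
      rw [sG, tG]
      exact dcert_biaff o.l0 o.l1 o'.l0 o'.l1 hw0 hw1 k1.1 k2.1 k1.2 k2.2 k3.2 k4.2 hLk' hne
    · have k1 := dcert_dB g1
      have k2 := dcert_dB g2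
      have k3 := dcert_dB g3
      have k4 := dcert_dB g4
      rw [sL, tL] at hLk' hne
      rw [sG, tG]
      refine dcert_biaff o.l0 o.l1 o'.l0 o'.l1 hw0 hw1 k1.1 k2.1 k1.2 k2.2 k3.2 k4.2 ?_ ?_
      · have e : ∀ a b l : ℝ, lr (-a) (-b) l = -lr a b l := by
          intro a b l
          unfold lr
          ring
        rw [e, e]
        linarith
      · have e : ∀ a b l : ℝ, lr (-a) (-b) l = -lr a b l := by
          intro a b l
          unfold lr
          ring
        rw [e, e]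
        intro hh
        apply hne
        linarith
  rw [← hGk', hGk] at key
  have h7 : 0 ≤ lr Tp Tp' w - Bk := by
    by_contra hcon
    have : 2 * (ex ^ 2 + ey ^ 2) * (lr Tp Tp' w - Bk) < 0 :=
      mul_neg_of_pos_of_neg (by linarith) (not_le.mp hcon)
    linarith
  linarith

end BallBlock
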