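import Mathlib

/-!
Definitions for the statement: surfaces, blocking surfaces, area.
-/

open MeasureTheory Set

namespace BallBlock

/-- Euclidean three-space -/
abbrev E3 : Type := EuclideanSpace ℝ (Fin 3)

/-- the Euclidean plane (domain of the parametrisations) -/
abbrev E2 : Type := EuclideanSpace ℝ (Fin 2)

/-- the closed unit square -/
def square : Set E2 := {p | (0 ≤ p 0 ∧ p 0 ≤ 1) ∧ (0 ≤ p 1 ∧ p 1 ≤ 1)}

/-- a compact embedded `C¹` patch: the image of the closed unit square under a map of class `C¹` which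
is injective on the square and has injective derivative at every point of the square -/
def IsPatch (S : Set E3) : Prop :=
  ∃ F : E2 → E3, ContDiff ℝ 1 F ∧ InjOn F square ∧
    (∀ p ∈ square, Function.Injective (fderiv ℝ F p)) ∧ S = F '' square

/-- a surface: a finite union of compact embedded `C¹` patches -/
def IsSurface (S : Set E3) : Prop :=
  ∃ (n : ℕ) (P : Fin n → Set E3), (∀ i, IsPatch (P i)) ∧ S = ⋃ i, P i

/-- every line that meets the unit sphere meets `S` -/
def IsBlocking (S : Set E3) : Prop :=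
  ∀ p v : E3, v ≠ 0 → (∃ t : ℝ, ‖p + t • v‖ = 1) → ∃ t : ℝ, p + t • v ∈ S

/-- area: the two-dimensional Hausdorff measure with its usual normalisation
(Mathlib's `μH[2]` is the outer measure built from `diam ^ 2`, so the factor is `π / 4`) -/
noncomputable def area (S : Set E3) : ENNReal :=
  ENNReal.ofReal (Real.pi / 4) * Measure.hausdorffMeasure 2 S

/-- `A*`: infimum of the areas of the blocking surfaces -/
noncomputable def AStar : ENNReal := ⨅ (S : Set E3) (_ : IsSurface S ∧ IsBlocking S), area S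

/-- unit cylinder piece -/
def cyl (R a b : ℝ) : Set E3 := {p | p 0 ^ 2 + p 1 ^ 2 = R ^ 2 ∧ a ≤ p 2 ∧ p 2 ≤ b}

/-- lower hemisphere -/
def hemi : Set E3 := {p | p 0 ^ 2 + p 1 ^ 2 + p 2 ^ 2 = 1 ∧ p 2 ≤ 0}

/-- `(1 - l) a + l b` -/
def lr (a b l : ℝ) : ℝ := (1 - l) * a + l * b

/-- vertical trapezoid over the plan segment from `(x0, y0)` to `(x1, y1)` with bottom heights
`b0, b1` and top heights `t0, t1` -/
def wallSet (x0 y0 x1 y1 b0 b1 t0 t1 : ℝ) : Set E3 :=
  {p | ∃ l, 0 ≤ l ∧ l ≤ 1 ∧ p 0 = lr x0 x1 l ∧ p 1 = lr y0 y1 l ∧ lr b0 b1 l ≤ p 2 ∧ p 2 ≤ lr t0 t1 l}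

/-- height of the line over the plan point at parameter `s`, when `[t1, t2]` is the chord of the
region below the paraboloid `z = - r ^ 2 / 2` -/
noncomputable def zz (x y dx dy t1 t2 s : ℝ) : ℝ :=
  -((x + s * dx) ^ 2 + (y + s * dy) ^ 2) / 2 - (s - t1) * (t2 - s) / 2

/-- polar angles of the outer staircase -/
noncomputable def ang (α : ℝ) (N : ℕ) (i : ℕ) : ℝ := α + i * ((Real.pi / 2 - α) / N)

/-- outer staircase -/
noncomputable def outer (α : ℝ) (N : ℕ) : Set E3 :=
  ⋃ i : Fin N, cyl (Real.sin (ang α N (i + 1))) (Real.cos (ang α N (i + 1))) (Real.cos (ang α N i))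

end BallBlock
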