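import Pool.Agent.BallBlock.SubReal
import Pool.Agent.BallBlock.Rec

/-!
Meaning of `ok` and of the G check. Put `A v = 4 (2 vT v + vx v ^ 2 + vy v ^ 2) - δ²` with `δ²` the squared length of
the sub-edge; `ok` says that the `Nat.sub` in `vA`, `wA` are exact, so `(s.vA : ℝ) = A s.v ≥ 0` (`r4 v = 4 (t + d2 v O)`,
`dl = 2^50 + dV v w`; `ad x y` is `|x - y|`; `s3 x y = x² + 3 y²` and `vy = √3 (b - O)`).
`a_sound`: at the point with parameter `l`, `2 T + X² + Y² = (1-l)(2 T_v + |v|²) + l (2 T_w + |w|²) - l (1-l) δ²` and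
`l (1-l) ≤ 1/4`, so it is at least `((1-l) A v + l A w) / 4 ≥ 0`.
`g_sound`: the check `z * z ≤ 4 * A * B` with `z = 4 d² - (A + B)` (truncated) gives `4 |v - v'|² ≤ (√A + √B)²`, i.e.
`2 |v - v'| ≤ √A + √B` for the four pairs of vertices. By convexity of the norm (`X' - X` is the convex combination of the
four vertex differences with weights `(1-l)(1-l')` etc.; triangle inequality for `√(u² + v²)`, e.g. via the Euclidean norm
or `Complex` absolute value) `2 |X' - X| ≤ (1-l) √A_v + l √A_w + (1-l') √A_v' + l' √A_w'`, and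
`(1-l) √a + l √b ≤ √((1-l) a + l b)` (concavity, or square both sides), and
`(1-l) A_v + l A_w ≤ 4 (2 T + X² + Y²)` as in `a_sound`.
-/

open Real

namespace BallBlock

open K

private theorem gcert_ad (x y : ℕ) : ((ad x y : ℕ) : ℝ) ^ 2 = ((x : ℝ) - y) ^ 2 := by
  have h : ad x y = (x - y) + (y - x) := rfl
  rw [h]
  rcases le_total x y with h1 | h1
  · rw [Nat.sub_eq_zero_of_le h1, zero_add, Nat.cast_sub h1]; ring
  · rw [Nat.sub_eq_zero_of_le h1, add_zero, Nat.cast_sub h1]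

private theorem gcert_s3 (x y : ℕ) : ((s3 x y : ℕ) : ℝ) = (x : ℝ) ^ 2 + 3 * (y : ℝ) ^ 2 := by
  have h : s3 x y = x * x + 3 * (y * y) := rfl
  rw [h]; push_cast; ring

private theorem gcert_dV (v w : Vx) :
    ((dV v w : ℕ) : ℝ) = (vx v - vx w) ^ 2 + (vy v - vy w) ^ 2 := by
  have h : dV v w = s3 (ad v.a w.a) (ad v.b w.b) := rfl
  rw [h, gcert_s3, gcert_ad, gcert_ad]
  unfold vx vy
  have h3 : √3 * √3 = 3 := Real.mul_self_sqrt (by norm_num)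
  linear_combination (-((v.b : ℝ) - w.b) ^ 2) * h3

private theorem gcert_r4 (v : Vx) :
    ((r4 v : ℕ) : ℝ) = 4 * (2 * vT v + (vx v ^ 2 + vy v ^ 2)) + 1125899906842624 := by
  have h : r4 v = 4 * (v.t + s3 (ad v.a OO) (ad v.b OO)) := rfl
  rw [h]
  push_cast
  rw [gcert_s3, gcert_ad, gcert_ad]
  unfold vx vy vT
  have h3 : √3 * √3 = 3 := Real.mul_self_sqrt (by norm_num)
  push_cast
  linear_combination (-4 * ((v.b : ℝ) - 8388608) ^ 2) * h3

private theorem gcert_an {x y : Bool} (h : an x y = true) : x = true ∧ y = true := by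
  cases x <;> cases y <;> simp_all [an]

private theorem gcert_mk {s : Sub} (hs : IsMk s) :
    s.vA = r4 s.v - (1125899906842624 + dV s.v s.w) ∧
    s.wA = r4 s.w - (1125899906842624 + dV s.v s.w) ∧
    s.ok = an (Nat.ble (1125899906842624 + dV s.v s.w) (r4 s.v))
      (Nat.ble (1125899906842624 + dV s.v s.w) (r4 s.w)) := by
  obtain ⟨j0, j1, -, -, h⟩ := hs
  have key : ∀ (p q : Nd) (s' : Sub), s' = mkSub p q j0 j1 →
      s'.vA = r4 s'.v - (1125899906842624 + dV s'.v s'.w) ∧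
      s'.wA = r4 s'.w - (1125899906842624 + dV s'.v s'.w) ∧
      s'.ok = an (Nat.ble (1125899906842624 + dV s'.v s'.w) (r4 s'.v))
        (Nat.ble (1125899906842624 + dV s'.v s'.w) (r4 s'.w)) := by
    rintro p q _ rfl
    exact ⟨rfl, rfl, rfl⟩
  exact key _ _ _ h

private theorem gcert_vals {s : Sub} (hs : IsMk s) (hok : s.ok = true) :
    (s.vA : ℝ) = 4 * (2 * vT s.v + (vx s.v ^ 2 + vy s.v ^ 2)) -
      ((vx s.v - vx s.w) ^ 2 + (vy s.v - vy s.w) ^ 2) ∧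
    (s.wA : ℝ) = 4 * (2 * vT s.w + (vx s.w ^ 2 + vy s.w ^ 2)) -
      ((vx s.v - vx s.w) ^ 2 + (vy s.v - vy s.w) ^ 2) := by
  obtain ⟨h1, h2, h3⟩ := gcert_mk hs
  rw [h3] at hok
  obtain ⟨h4, h5⟩ := gcert_an hok
  have h4' := Nat.le_of_ble_eq_true h4
  have h5' := Nat.le_of_ble_eq_true h5
  constructor
  · rw [h1, Nat.cast_sub h4']
    push_cast
    rw [gcert_r4, gcert_dV]
    ring
  · rw [h2, Nat.cast_sub h5']
    push_cast
    rw [gcert_r4, gcert_dV]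
    ring

private theorem gcert_lower {s : Sub} (hs : IsMk s) (hok : s.ok = true) {X Y Tp Bt l : ℝ}
    (o : OnSub s X Y Tp Bt l) :
    (1 - l) * (s.vA : ℝ) + l * (s.wA : ℝ) ≤ 4 * (2 * Tp + (X ^ 2 + Y ^ 2)) := by
  obtain ⟨h1, h2⟩ := gcert_vals hs hok
  rw [h1, h2, o.hX, o.hY, o.hT]
  unfold lr
  set D := (vx s.v - vx s.w) ^ 2 + (vy s.v - vy s.w) ^ 2 with hD
  have hD0 : 0 ≤ D := by positivity
  have h3 : 0 ≤ (1 - 2 * l) ^ 2 * D := by positivity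
  nlinarith [h3]

theorem a_sound {s : Sub} (hs : IsMk s) (hok : s.ok = true) {X Y Tp Bt l : ℝ} (o : OnSub s X Y Tp Bt l) :
    0 ≤ 2 * Tp + (X ^ 2 + Y ^ 2) := by
  have h1 := gcert_lower hs hok o
  have h2 : 0 ≤ (1 - l) * (s.vA : ℝ) := mul_nonneg (by linarith [o.l1]) (Nat.cast_nonneg _)
  have h3 : 0 ≤ l * (s.wA : ℝ) := mul_nonneg o.l0 (Nat.cast_nonneg _)
  linarith

private theorem gcert_pt {v w : Vx} {A B : ℕ} (h : gPt v w A B = true) :
    2 * √((vx v - vx w) ^ 2 + (vy v - vy w) ^ 2) ≤ √A + √B := by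
  have h1 : Nat.ble ((4 * dV v w - (A + B)) * (4 * dV v w - (A + B))) (4 * (A * B)) = true := h
  have h2 := Nat.le_of_ble_eq_true h1
  have h3 : (4 * ((dV v w : ℕ) : ℝ) - (A + B)) ≤ ((4 * dV v w - (A + B) : ℕ) : ℝ) := by
    have h4 : 4 * dV v w ≤ (4 * dV v w - (A + B)) + (A + B) := by omega
    have h5 : ((4 * dV v w : ℕ) : ℝ) ≤ ((4 * dV v w - (A + B) : ℕ) : ℝ) + ((A + B : ℕ) : ℝ) := by
      exact_mod_cast h4
    push_cast at h5
    push_cast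
    linarith
  have h6 : (((4 * dV v w - (A + B) : ℕ) : ℝ)) ^ 2 ≤ 4 * ((A : ℝ) * B) := by
    rw [pow_two]
    exact_mod_cast h2
  have hA : √(A : ℝ) ^ 2 = A := Real.sq_sqrt (Nat.cast_nonneg _)
  have hB : √(B : ℝ) ^ 2 = B := Real.sq_sqrt (Nat.cast_nonneg _)
  have hA0 := Real.sqrt_nonneg (A : ℝ)
  have hB0 := Real.sqrt_nonneg (B : ℝ)
  have h7 : ((4 * dV v w - (A + B) : ℕ) : ℝ) ≤ 2 * (√(A : ℝ) * √(B : ℝ)) := by
    refine le_of_sq_le_sq ?_ (by positivity)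
    calc _ ≤ 4 * ((A : ℝ) * B) := h6
      _ = (2 * (√(A : ℝ) * √(B : ℝ))) ^ 2 := by rw [mul_pow, mul_pow, hA, hB]; ring
  rw [gcert_dV] at h3
  have h8 : 4 * ((vx v - vx w) ^ 2 + (vy v - vy w) ^ 2) ≤ (√(A : ℝ) + √(B : ℝ)) ^ 2 := by
    nlinarith
  have h9 : √((vx v - vx w) ^ 2 + (vy v - vy w) ^ 2) ^ 2 = (vx v - vx w) ^ 2 + (vy v - vy w) ^ 2 :=
    Real.sq_sqrt (by positivity)
  refine le_of_sq_le_sq ?_ (by positivity)
  rw [mul_pow, h9]
  linarith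

private theorem gcert_conc {a b l : ℝ} (ha : 0 ≤ a) (hb : 0 ≤ b) (l0 : 0 ≤ l) (l1 : l ≤ 1) :
    (1 - l) * √a + l * √b ≤ √((1 - l) * a + l * b) := by
  refine Real.le_sqrt_of_sq_le ?_
  have h1 : √a ^ 2 = a := Real.sq_sqrt ha
  have h2 : √b ^ 2 = b := Real.sq_sqrt hb
  have h3 : 0 ≤ l * (1 - l) * (√a - √b) ^ 2 := by
    have : 0 ≤ l * (1 - l) := mul_nonneg l0 (by linarith)
    positivity
  nlinarith

theorem g_sound {s t : Sub} (hs : IsMk s) (ht : IsMk t) (hsk : s.ok = true) (htk : t.ok = true)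
    (hg : gSub s t = true) {X Y Tp Bt l X' Y' Tp' Bt' l' : ℝ} (o : OnSub s X Y Tp Bt l)
    (o' : OnSub t X' Y' Tp' Bt' l') :
    √((X' - X) ^ 2 + (Y' - Y) ^ 2) ≤ √(2 * Tp + (X ^ 2 + Y ^ 2)) + √(2 * Tp' + (X' ^ 2 + Y' ^ 2)) := by
  have hg1 : an (gPt s.v t.v s.vA t.vA) (an (gPt s.v t.w s.vA t.wA)
    (an (gPt s.w t.v s.wA t.vA) (gPt s.w t.w s.wA t.wA))) = true := hg
  obtain ⟨g1, hg2⟩ := gcert_an hg1
  obtain ⟨g2, hg3⟩ := gcert_an hg2
  obtain ⟨g3, g4⟩ := gcert_an hg3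
  have e1 := gcert_pt g1
  have e2 := gcert_pt g2
  have e3 := gcert_pt g3
  have e4 := gcert_pt g4
  have l0 := o.l0
  have l1 := o.l1
  have m0 := o'.l0
  have m1 := o'.l1
  -- complex numbers
  have hn : ∀ a b : ℝ, √(a ^ 2 + b ^ 2) = ‖(⟨a, b⟩ : ℂ)‖ := by
    intro a b
    rw [Complex.norm_eq_sqrt_sq_add_sq]
  have hsum : (⟨X' - X, Y' - Y⟩ : ℂ) =
      -(((((1 - l) * (1 - l') : ℝ) : ℂ) * ⟨vx s.v - vx t.v, vy s.v - vy t.v⟩ +
        (((1 - l) * l' : ℝ) : ℂ) * ⟨vx s.v - vx t.w, vy s.v - vy t.w⟩) +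
      ((((l * (1 - l') : ℝ) : ℂ) * ⟨vx s.w - vx t.v, vy s.w - vy t.v⟩) +
        (((l * l' : ℝ) : ℂ) * ⟨vx s.w - vx t.w, vy s.w - vy t.w⟩))) := by
    rw [o.hX, o.hY, o'.hX, o'.hY]
    unfold lr
    apply Complex.ext
    · simp only [Complex.neg_re, Complex.add_re, Complex.re_ofReal_mul]
      ring
    · simp only [Complex.neg_im, Complex.add_im, Complex.im_ofReal_mul]
      ring
  have htri : √((X' - X) ^ 2 + (Y' - Y) ^ 2) ≤
      ((1 - l) * (1 - l') * √((vx s.v - vx t.v) ^ 2 + (vy s.v - vy t.v) ^ 2) +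
       (1 - l) * l' * √((vx s.v - vx t.w) ^ 2 + (vy s.v - vy t.w) ^ 2)) +
      (l * (1 - l') * √((vx s.w - vx t.v) ^ 2 + (vy s.w - vy t.v) ^ 2) +
       l * l' * √((vx s.w - vx t.w) ^ 2 + (vy s.w - vy t.w) ^ 2)) := by
    rw [hn, hn, hn, hn, hn, hsum, norm_neg]
    refine (norm_add_le _ _).trans (add_le_add ((norm_add_le _ _).trans ?_) ((norm_add_le _ _).trans ?_))
    · rw [norm_mul, norm_mul, Complex.norm_real, Complex.norm_real, Real.norm_of_nonneg, Real.norm_of_nonneg]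
      · exact mul_nonneg (by linarith) m0
      · exact mul_nonneg (by linarith) (by linarith)
    · rw [norm_mul, norm_mul, Complex.norm_real, Complex.norm_real, Real.norm_of_nonneg, Real.norm_of_nonneg]
      · exact mul_nonneg l0 m0
      · exact mul_nonneg l0 (by linarith)
  have w1 : 0 ≤ (1 - l) * (1 - l') := mul_nonneg (by linarith) (by linarith)
  have w2 : 0 ≤ (1 - l) * l' := mul_nonneg (by linarith) m0
  have w3 : 0 ≤ l * (1 - l') := mul_nonneg l0 (by linarith)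
  have w4 : 0 ≤ l * l' := mul_nonneg l0 m0
  have f1 := mul_le_mul_of_nonneg_left e1 w1
  have f2 := mul_le_mul_of_nonneg_left e2 w2
  have f3 := mul_le_mul_of_nonneg_left e3 w3
  have f4 := mul_le_mul_of_nonneg_left e4 w4
  have c1 := gcert_conc (Nat.cast_nonneg (α := ℝ) s.vA) (Nat.cast_nonneg (α := ℝ) s.wA) l0 l1
  have c2 := gcert_conc (Nat.cast_nonneg (α := ℝ) t.vA) (Nat.cast_nonneg (α := ℝ) t.wA) m0 m1
  have b1 := gcert_lower hs hsk o
  have b2 := gcert_lower ht htk o'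
  have r1 : √((1 - l) * (s.vA : ℝ) + l * (s.wA : ℝ)) ≤ 2 * √(2 * Tp + (X ^ 2 + Y ^ 2)) := by
    have h4 : (2 : ℝ) * √(2 * Tp + (X ^ 2 + Y ^ 2)) = √(4 * (2 * Tp + (X ^ 2 + Y ^ 2))) := by
      rw [Real.sqrt_mul (by norm_num), show (4 : ℝ) = 2 ^ 2 by norm_num, Real.sqrt_sq (by norm_num)]
    rw [h4]
    exact Real.sqrt_le_sqrt b1
  have r2 : √((1 - l') * (t.vA : ℝ) + l' * (t.wA : ℝ)) ≤ 2 * √(2 * Tp' + (X' ^ 2 + Y' ^ 2)) := by
    have h4 : (2 : ℝ) * √(2 * Tp' + (X' ^ 2 + Y' ^ 2)) = √(4 * (2 * Tp' + (X' ^ 2 + Y' ^ 2))) := by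
      rw [Real.sqrt_mul (by norm_num), show (4 : ℝ) = 2 ^ 2 by norm_num, Real.sqrt_sq (by norm_num)]
    rw [h4]
    exact Real.sqrt_le_sqrt b2
  nlinarith

end BallBlock
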