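import Pool.Agent.BallBlock.Defs

/-!
Upper bound of the (unnormalised) Hausdorff measure of a plane set. Use `Besicovitch.exists_closedBall_covering_tsum_measure_le`
for `volume` on `E2`, with radii `< δ/2`: a countable covering of `s` by closed balls of radii `r_i` with `Σ volume (ball_i) ≤ volume s + ε'`.
`volume (closedBall x r) = π r²` (`EuclideanSpace.volume_closedBall`, `Fin 2`, or `InnerProductSpace.volume_closedBall`), the diameter is `≤ 2 r`, so `Σ diam² ≤ (4/π) Σ volume`.
Conclude with `Measure.hausdorffMeasure_apply` / `hausdorffMeasure_le_liminf_tsum` (or `MeasureTheory.Measure.mkMetric_le_liminf_tsum`).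
(If `volume s = ∞` nothing to do.)
-/

open MeasureTheory Set

namespace BallBlock

private theorem hausplane_ball (x : E2) {r : ℝ} (hr : 0 ≤ r) :
    Metric.ediam (Metric.closedBall x r) ^ (2 : ℝ) ≤
      ENNReal.ofReal (4 / Real.pi) * volume (Metric.closedBall x r) := by
  have h1 : Metric.ediam (Metric.closedBall x r) ≤ ENNReal.ofReal (2 * r) := by
    apply Metric.ediam_le_of_forall_dist_le
    intro y hy z hz
    have h2 := dist_triangle_right y z x
    have h3 := Metric.mem_closedBall.1 hy
    have h4 := Metric.mem_closedBall.1 hz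
    linarith
  rw [EuclideanSpace.volume_closedBall_fin_two]
  calc Metric.ediam (Metric.closedBall x r) ^ (2 : ℝ) ≤ (ENNReal.ofReal (2 * r)) ^ (2 : ℝ) :=
        ENNReal.rpow_le_rpow h1 (by norm_num)
    _ = ENNReal.ofReal ((2 * r) ^ 2) := by
        rw [ENNReal.rpow_ofNat, ENNReal.ofReal_pow (by positivity)]
    _ = ENNReal.ofReal (4 / Real.pi * (r ^ 2 * Real.pi)) := by
        congr 1
        field_simp
        ring
    _ = ENNReal.ofReal (4 / Real.pi) * (ENNReal.ofReal r ^ 2 * ENNReal.ofReal Real.pi) := by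
        rw [ENNReal.ofReal_mul (by positivity), ENNReal.ofReal_mul (by positivity),
          ENNReal.ofReal_pow hr]

theorem haus_plane (s : Set E2) :
    Measure.hausdorffMeasure 2 s ≤ ENNReal.ofReal (4 / Real.pi) * volume s := by
  classical
  have hcov : ∀ n : ℕ, ∃ (t : Set E2) (r : E2 → ℝ), t.Countable ∧ t ⊆ s ∧
      (∀ x ∈ t, r x ∈ Ioo (0 : ℝ) (1 / ((n : ℝ) + 1))) ∧
      (s ⊆ ⋃ x ∈ t, Metric.closedBall x (r x)) ∧
      (∑' x : t, volume (Metric.closedBall (x : E2) (r x))) ≤ volume s + ENNReal.ofReal (1 / ((n : ℝ) + 1)) := by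
    intro n
    have hn : (0 : ℝ) < 1 / ((n : ℝ) + 1) := by positivity
    refine Besicovitch.exists_closedBall_covering_tsum_measure_le (volume : Measure E2)
      (ε := ENNReal.ofReal (1 / ((n : ℝ) + 1))) ?_ (fun _ => Ioo (0 : ℝ) (1 / ((n : ℝ) + 1))) s ?_
    · exact (ENNReal.ofReal_pos.2 hn).ne'
    · intro x _ δ hδ
      refine ⟨min (1 / ((n : ℝ) + 1)) δ / 2, ⟨?_, ?_⟩, ?_, ?_⟩
      · have := lt_min hn hδ; linarith
      · have h1 := lt_min hn hδ
        have h2 := min_le_left (1 / ((n : ℝ) + 1)) δ
        linarith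
      · have := lt_min hn hδ; linarith
      · have h1 := lt_min hn hδ
        have h2 := min_le_right (1 / ((n : ℝ) + 1)) δ
        linarith
  choose t r htc _hts hr hsub hsum using hcov
  have hcount : ∀ n, Countable (t n) := fun n => (htc n).to_subtype
  have hlim0 : Filter.Tendsto (fun n : ℕ => (1 / ((n : ℝ) + 1))) Filter.atTop (nhds 0) :=
    tendsto_one_div_add_atTop_nhds_zero_nat
  have hlim1 : Filter.Tendsto (fun n : ℕ => ENNReal.ofReal (2 * (1 / ((n : ℝ) + 1)))) Filter.atTop (nhds 0) := by
    have h1 := ENNReal.tendsto_ofReal (hlim0.const_mul 2)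
    simpa using h1
  have key := Measure.hausdorffMeasure_le_liminf_tsum (X := E2) (β := ℕ) (ι := fun n => t n) 2 s
    (l := Filter.atTop) (fun n : ℕ => ENNReal.ofReal (2 * (1 / ((n : ℝ) + 1)))) hlim1
    (fun n x => Metric.closedBall (x : E2) (r n x))
    (Filter.Eventually.of_forall fun n x => by
      apply Metric.ediam_le_of_forall_dist_le
      intro y hy z hz
      have h2 := dist_triangle_right y z (x : E2)
      have h3 := Metric.mem_closedBall.1 hy
      have h4 := Metric.mem_closedBall.1 hz
      have h5 := (hr n x x.2).2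
      linarith)
    (Filter.Eventually.of_forall fun n => by
      intro y hy
      have := hsub n hy
      simp only [mem_iUnion] at this
      obtain ⟨x, hx, hy2⟩ := this
      exact mem_iUnion.2 ⟨⟨x, hx⟩, hy2⟩)
  refine key.trans ?_
  have hterm : ∀ n : ℕ, ∑' x : t n, Metric.ediam (Metric.closedBall (x : E2) (r n x)) ^ (2 : ℝ) ≤
      ENNReal.ofReal (4 / Real.pi) * (volume s + ENNReal.ofReal (1 / ((n : ℝ) + 1))) := by
    intro n
    calc ∑' x : t n, Metric.ediam (Metric.closedBall (x : E2) (r n x)) ^ (2 : ℝ)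
        ≤ ∑' x : t n, ENNReal.ofReal (4 / Real.pi) * volume (Metric.closedBall (x : E2) (r n x)) :=
          ENNReal.tsum_le_tsum fun x => hausplane_ball (x : E2) (hr n x x.2).1.le
      _ = ENNReal.ofReal (4 / Real.pi) * ∑' x : t n, volume (Metric.closedBall (x : E2) (r n x)) :=
          ENNReal.tsum_mul_left
      _ ≤ _ := mul_le_mul_right (hsum n) _
  have hlim2 : Filter.Tendsto (fun n : ℕ => ENNReal.ofReal (4 / Real.pi) *
      (volume s + ENNReal.ofReal (1 / ((n : ℝ) + 1)))) Filter.atTop
      (nhds (ENNReal.ofReal (4 / Real.pi) * (volume s + 0))) := by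
    apply ENNReal.Tendsto.const_mul
    · apply Filter.Tendsto.const_add
      have h1 := ENNReal.tendsto_ofReal hlim0
      simpa using h1
    · right
      exact ENNReal.ofReal_ne_top
  calc Filter.liminf (fun n => ∑' x : t n, Metric.ediam (Metric.closedBall (x : E2) (r n x)) ^ (2 : ℝ)) Filter.atTop
      ≤ Filter.liminf (fun n : ℕ => ENNReal.ofReal (4 / Real.pi) *
      (volume s + ENNReal.ofReal (1 / ((n : ℝ) + 1)))) Filter.atTop :=
        Filter.liminf_le_liminf (Filter.Eventually.of_forall hterm)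
    _ = ENNReal.ofReal (4 / Real.pi) * volume s := by
        rw [hlim2.liminf_eq, add_zero]

end BallBlock
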