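import Pool.Agent.BallBlock.Plan2

/-!
`goodS_swap`: the reversed line (`zz` with `s → D - s`). `goodS_rot`: the edge set `EE` is invariant under the rotation by
120 degrees `(x,y) ↦ (-x/2 - √3/2 y, √3/2 x - y/2)`; on nodes, with `A = a - 32768`, `B = b - 32768`: `A' = (-A - 3B)/2`, `B' = (A - B)/2`,
`t' = t`, `u' = u`. Chain `c` is mapped to chain `(c + 8) % 24` for `c < 24` and chain `24 + r` to `24 + (r+1) % 3`, node by node; side `i`
of the rim to side `(i + 64) % 192` (rim node `j` to rim node `j + 64`, and node `192 + j` = node `j`). `goodS_mir`: reflection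
`B ↦ - B`: chains `0,1,..,7 ↦ 0,17,3,2,5,4,7,6`; `8,..,15 ↦ 16,9,19,18,21,20,23,22`; `16,..,23 ↦ 8,1,11,10,13,12,15,14`; the chains 24, 25, 26
are mapped to 26, 25, 24 with the order of the nodes REVERSED (check; `Hit p q` and `Hit q p` are equivalent); rim node `j` to rim node
`192 - j`, so side `i` to side `191 - i` with the end points exchanged. All the finite checks by `decide +kernel` on Bool tests.
So a blocked line is mapped to a blocked line. `good_of_rep`: if `J - I mod 192 > 96` swap; rotate so that `I < 64` (then `I < J ≤ I + 96 < 192`);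
if `(I + J + 1) % 128 > 64`, apply the reflection `I ↦ 191 - J`, `J ↦ 191 - I` (swap) and rotate again so that the first is `< 64`.
Beware of the `% 192`: e.g. `I = 190, J = 5` is rotated to `I = 62, J = 69`.
-/

open Real

namespace BallBlock

open K

/-- node relation of a linear map -/
private def symmR (m11 m12 m21 m22 : ℝ) (p p' : Nd) : Prop :=
  nx p' = m11 * nx p + m12 * ny p ∧ ny p' = m21 * nx p + m22 * ny p ∧ nT p' = nT p ∧ nB p' = nB p

private theorem symm_hit {p q : Nd} {X Y z : ℝ} (h : Hit p q X Y z) : Hit q p X Y z := by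
  obtain ⟨l, h0, h1, hX, hY, hB, hT⟩ := h
  refine ⟨1 - l, by linarith, by linarith, ?_, ?_, ?_, ?_⟩
  · rw [hX]
    unfold lr
    ring
  · rw [hY]
    unfold lr
    ring
  · unfold lr at *
    linarith
  · unfold lr at *
    linarith

private theorem symm_pt {m11 m12 m21 m22 : ℝ} {I I' : ℕ}
    (hI : ∀ p' q', Side I' p' q' → ∃ p q, symmR m11 m12 m21 m22 p p' ∧
      symmR m11 m12 m21 m22 q q' ∧ (Side I p q ∨ Side I q p))
    {p' q' : Nd} (hs : Side I' p' q') {l : ℝ} (l0 : 0 ≤ l) (l1 : l ≤ 1) :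
    ∃ p q k, Side I p q ∧ 0 ≤ k ∧ k ≤ 1 ∧
      lr (nx p') (nx q') l = m11 * lr (nx p) (nx q) k + m12 * lr (ny p) (ny q) k ∧
      lr (ny p') (ny q') l = m21 * lr (nx p) (nx q) k + m22 * lr (ny p) (ny q) k := by
  obtain ⟨p, q, hp, hq, hS | hS⟩ := hI p' q' hs
  · refine ⟨p, q, l, hS, l0, l1, ?_, ?_⟩
    · rw [hp.1, hq.1]
      unfold lr
      ring
    · rw [hp.2.1, hq.2.1]
      unfold lr
      ring
  · refine ⟨q, p, 1 - l, hS, by linarith, by linarith, ?_, ?_⟩
    · rw [hp.1, hq.1]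
      unfold lr
      ring
    · rw [hp.2.1, hq.2.1]
      unfold lr
      ring

private theorem symm_gen {m11 m12 m21 m22 : ℝ}
    (o1 : m11 ^ 2 + m21 ^ 2 = 1) (o2 : m12 ^ 2 + m22 ^ 2 = 1) (o3 : m11 * m12 + m21 * m22 = 0)
    (o4 : m11 ^ 2 + m12 ^ 2 = 1) (o5 : m21 ^ 2 + m22 ^ 2 = 1) (o6 : m11 * m21 + m12 * m22 = 0)
    (hE : ∀ p q, EE p q → ∃ p' q', symmR m11 m12 m21 m22 p p' ∧
      symmR m11 m12 m21 m22 q q' ∧ (EE p' q' ∨ EE q' p'))
    {I J I' J' : ℕ}
    (hI : ∀ p' q', Side I' p' q' → ∃ p q, symmR m11 m12 m21 m22 p p' ∧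
      symmR m11 m12 m21 m22 q q' ∧ (Side I p q ∨ Side I q p))
    (hJ : ∀ p' q', Side J' p' q' → ∃ p q, symmR m11 m12 m21 m22 p p' ∧
      symmR m11 m12 m21 m22 q q' ∧ (Side J p q ∨ Side J q p))
    (h : GoodS I J) : GoodS I' J' := by
  intro p' q' u' v' hs ht l m l0 l1 m0 m1
  obtain ⟨p, q, k, hS, k0, k1, ex, ey⟩ := symm_pt hI hs l0 l1
  obtain ⟨u, v, n, hS', n0, n1, fx, fy⟩ := symm_pt hJ ht m0 m1
  have hg := h p q u v hS hS' k n k0 k1 n0 n1
  rw [ex, ey, fx, fy]
  generalize lr (nx p) (nx q) k = x at *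
  generalize lr (ny p) (ny q) k = y at *
  generalize lr (nx u) (nx v) n = x2 at *
  generalize lr (ny u) (ny v) n = y2 at *
  intro dx dy D t1 t2 hd hD hx hy ht1 ht12 ht2
  have hb := hg (m11 * dx + m21 * dy) (m12 * dx + m22 * dy) D t1 t2
    (by linear_combination (dx ^ 2) * o4 + (dy ^ 2) * o5 + (2 * dx * dy) * o6 + hd) hD
    (by linear_combination m11 * hx + m21 * hy - (x2 - x) * o1 - (y2 - y) * o3)
    (by linear_combination m12 * hx + m22 * hy - (y2 - y) * o2 - (x2 - x) * o3)
    ht1 ht12 ht2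
  obtain ⟨a, b, hab, s, hit⟩ := hb
  obtain ⟨a', b', ha, hb, hE'⟩ := hE a b hab
  have e1 : m11 * x + m12 * y + s * dx = m11 * (x + s * (m11 * dx + m21 * dy)) +
      m12 * (y + s * (m12 * dx + m22 * dy)) := by
    linear_combination -(s * dx) * o4 - (s * dy) * o6
  have e2 : m21 * x + m22 * y + s * dy = m21 * (x + s * (m11 * dx + m21 * dy)) +
      m22 * (y + s * (m12 * dx + m22 * dy)) := by
    linear_combination -(s * dy) * o5 - (s * dx) * o6
  have e3 : zz (m11 * x + m12 * y) (m21 * x + m22 * y) dx dy t1 t2 s =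
      zz x y (m11 * dx + m21 * dy) (m12 * dx + m22 * dy) t1 t2 s := by
    unfold zz
    rw [e1, e2]
    generalize x + s * (m11 * dx + m21 * dy) = w1
    generalize y + s * (m12 * dx + m22 * dy) = w2
    linear_combination -(w1 ^ 2 / 2) * o1 - (w2 ^ 2 / 2) * o2 - (w1 * w2) * o3
  have hit' : Hit a' b' (m11 * x + m12 * y + s * dx) (m21 * x + m22 * y + s * dy)
      (zz (m11 * x + m12 * y) (m21 * x + m22 * y) dx dy t1 t2 s) := by
    obtain ⟨r, r0, r1, hX, hY, hB, hT⟩ := hit
    refine ⟨r, r0, r1, ?_, ?_, ?_, ?_⟩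
    · rw [e1, hX, hY, ha.1, hb.1]
      unfold lr
      ring
    · rw [e2, hX, hY, ha.2.1, hb.2.1]
      unfold lr
      ring
    · rw [e3, ha.2.2.2, hb.2.2.2]
      exact hB
    · rw [e3, ha.2.2.1, hb.2.2.1]
      exact hT
  rcases hE' with hE' | hE'
  · exact ⟨a', b', hE', s, hit'⟩
  · exact ⟨b', a', hE', s, symm_hit hit'⟩

/-! finite checks -/

/-- rotation test -/
def symmRotB (p q : Nd) : Bool :=
  Nat.beq (2 * q.a + p.a + 3 * p.b) 196608 && (Nat.beq (2 * q.b + p.b) (p.a + 65536) &&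
    (Nat.beq q.t p.t && Nat.beq q.u p.u))

/-- reflection test -/
def symmMirB (p q : Nd) : Bool :=
  Nat.beq q.a p.a && (Nat.beq (q.b + p.b) 65536 && (Nat.beq q.t p.t && Nat.beq q.u p.u))

/-- node by node test -/
def symmAll2 (f : Nd → Nd → Bool) : List Nd → List Nd → Bool
  | [], [] => true
  | p :: l, q :: l' => f p q && symmAll2 f l l'
  | _, _ => false

/-- test of the first two nodes -/
def symmTwo (f : Nd → Nd → Bool) : List Nd → List Nd → Bool
  | p :: q :: _, p' :: q' :: _ => f p p' && f q q'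
  | _, _ => false

/-- test of the first two nodes, exchanged -/
def symmTwoR (f : Nd → Nd → Bool) : List Nd → List Nd → Bool
  | p :: q :: _, p' :: q' :: _ => f p q' && f q p'
  | _, _ => false

private theorem symm_chk_rot :
    chains.all (fun c => chains.any (fun c' => symmAll2 symmRotB c c')) = true := by
  decide +kernel

private theorem symm_chk_mir :
    chains.all (fun c => chains.any (fun c' => symmAll2 symmMirB c c' ||
      symmAll2 symmMirB c c'.reverse)) = true := by
  decide +kernel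

private theorem symm_chk_srot :
    (List.range 192).all (fun i => symmTwo symmRotB (dropC rim i) (dropC rim ((i + 64) % 192))) =
      true := by
  decide +kernel

private theorem symm_chk_smir :
    (List.range 192).all (fun i => symmTwoR symmMirB (dropC rim i) (dropC rim (191 - i))) =
      true := by
  decide +kernel

private theorem symm_all2 {f : Nd → Nd → Bool} {l l' : List Nd} (h : symmAll2 f l l' = true)
    {p q : Nd} (hc : Cons2 l p q) : ∃ p' q', Cons2 l' p' q' ∧ f p p' = true ∧ f q q' = true := by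
  induction hc generalizing l' with
  | head p q l =>
    match l', h with
    | p' :: q' :: l'', h =>
      unfold symmAll2 symmAll2 at h
      rw [Bool.and_eq_true, Bool.and_eq_true] at h
      exact ⟨p', q', Cons2.head p' q' l'', h.1, h.2.1⟩
    | [p'], h =>
      unfold symmAll2 symmAll2 at h
      simp at h
    | [], h =>
      unfold symmAll2 at h
      simp at h
  | tail x hc ih =>
    match l', h with
    | p' :: l'', h =>
      unfold symmAll2 at h
      rw [Bool.and_eq_true] at h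
      obtain ⟨a, b, h1, h2⟩ := ih h.2
      exact ⟨a, b, Cons2.tail p' h1, h2⟩
    | [], h =>
      unfold symmAll2 at h
      simp at h

private theorem symm_cons2_split {l : List Nd} {p q : Nd} (h : Cons2 l p q) :
    ∃ l1 l2, l = l1 ++ p :: q :: l2 := by
  induction h with
  | head p q l => exact ⟨[], l, rfl⟩
  | tail x _ ih =>
    obtain ⟨l1, l2, h⟩ := ih
    exact ⟨x :: l1, l2, by rw [h]; rfl⟩

private theorem symm_cons2_mk (l1 l2 : List Nd) (p q : Nd) : Cons2 (l1 ++ p :: q :: l2) p q := by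
  induction l1 with
  | nil => exact Cons2.head p q l2
  | cons x l ih => exact Cons2.tail x ih

private theorem symm_cons2_reverse {l : List Nd} {p q : Nd} (h : Cons2 l.reverse p q) :
    Cons2 l q p := by
  obtain ⟨l1, l2, h1⟩ := symm_cons2_split h
  have h2 : l = l2.reverse ++ q :: p :: l1.reverse := by
    rw [← List.reverse_reverse l, h1]
    simp
  rw [h2]
  exact symm_cons2_mk _ _ _ _

private theorem symm_two {f : Nd → Nd → Bool} {l l' : List Nd} (h : symmTwo f l l' = true) :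
    ∃ p q p' q' r r', l = p :: q :: r ∧ l' = p' :: q' :: r' ∧ f p p' = true ∧ f q q' = true := by
  match l, l', h with
  | p :: q :: r, p' :: q' :: r', h =>
    unfold symmTwo at h
    rw [Bool.and_eq_true] at h
    exact ⟨p, q, p', q', r, r', rfl, rfl, h.1, h.2⟩
  | [], _, h => exact absurd h (by unfold symmTwo; simp)
  | [_], _, h => exact absurd h (by unfold symmTwo; simp)
  | _ :: _ :: _, [], h => exact absurd h (by unfold symmTwo; simp)
  | _ :: _ :: _, [_], h => exact absurd h (by unfold symmTwo; simp)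

private theorem symm_twoR {f : Nd → Nd → Bool} {l l' : List Nd} (h : symmTwoR f l l' = true) :
    ∃ p q p' q' r r', l = p :: q :: r ∧ l' = p' :: q' :: r' ∧ f p q' = true ∧ f q p' = true := by
  match l, l', h with
  | p :: q :: r, p' :: q' :: r', h =>
    unfold symmTwoR at h
    rw [Bool.and_eq_true] at h
    exact ⟨p, q, p', q', r, r', rfl, rfl, h.1, h.2⟩
  | [], _, h => exact absurd h (by unfold symmTwoR; simp)
  | [_], _, h => exact absurd h (by unfold symmTwoR; simp)
  | _ :: _ :: _, [], h => exact absurd h (by unfold symmTwoR; simp)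
  | _ :: _ :: _, [_], h => exact absurd h (by unfold symmTwoR; simp)

private theorem symm_rotR {p q : Nd} (h : symmRotB p q = true) :
    symmR (-(1 / 2)) (-(√3 / 2)) (√3 / 2) (-(1 / 2)) p q := by
  unfold symmRotB at h
  rw [Bool.and_eq_true, Bool.and_eq_true, Bool.and_eq_true] at h
  obtain ⟨h1, h2, h3, h4⟩ := h
  have g1 := Nat.eq_of_beq_eq_true h1
  have g2 := Nat.eq_of_beq_eq_true h2
  have g3 := Nat.eq_of_beq_eq_true h3
  have g4 := Nat.eq_of_beq_eq_true h4
  have r1 : 2 * (q.a : ℝ) + p.a + 3 * p.b = 196608 := by exact_mod_cast g1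
  have r2 : 2 * (q.b : ℝ) + p.b = p.a + 65536 := by exact_mod_cast g2
  have h3 : √3 * √3 = 3 := Real.mul_self_sqrt (by norm_num)
  refine ⟨?_, ?_, ?_, ?_⟩
  · unfold nx ny
    linear_combination 128 * r1 + (128 * ((p.b : ℝ) - 32768)) * h3
  · unfold nx ny
    linear_combination (128 * √3) * r2
  · unfold nT
    rw [g3]
  · unfold nB
    rw [g4]

private theorem symm_mirR {p q : Nd} (h : symmMirB p q = true) :
    symmR 1 0 0 (-1) p q := by
  unfold symmMirB at h
  rw [Bool.and_eq_true, Bool.and_eq_true, Bool.and_eq_true] at h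
  obtain ⟨h1, h2, h3, h4⟩ := h
  have g1 := Nat.eq_of_beq_eq_true h1
  have g2 := Nat.eq_of_beq_eq_true h2
  have g3 := Nat.eq_of_beq_eq_true h3
  have g4 := Nat.eq_of_beq_eq_true h4
  have r2 : (q.b : ℝ) + p.b = 65536 := by exact_mod_cast g2
  refine ⟨?_, ?_, ?_, ?_⟩
  · unfold nx
    rw [g1]
    ring
  · unfold ny
    linear_combination (256 * √3) * r2
  · unfold nT
    rw [g3]
  · unfold nB
    rw [g4]

theorem goodS_swap {I J : ℕ} (h : GoodS I J) : GoodS J I := by
  intro p q p' q' hs hs' l m l0 l1 m0 m1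
  have hg := h p' q' p q hs' hs m l m0 m1 l0 l1
  intro dx dy D t1 t2 hd hD hx hy ht1 ht12 ht2
  obtain ⟨a, b, hab, s, r, r0, r1, hX, hY, hB, hT⟩ := hg (-dx) (-dy) D (D - t2) (D - t1)
    (by linear_combination hd) hD (by linear_combination -hx) (by linear_combination -hy)
    (by linarith) (by linarith) (by linarith)
  refine ⟨a, b, hab, D - s, r, r0, r1, ?_, ?_, ?_, ?_⟩
  · rw [← hX]
    linear_combination -hx
  · rw [← hY]
    linear_combination -hy
  · refine hB.trans (le_of_eq ?_)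
    unfold zz
    rw [hx, hy]
    ring
  · refine le_trans (le_of_eq ?_) hT
    unfold zz
    rw [hx, hy]
    ring

private theorem symm_orth : ((√3 / 2) ^ 2 : ℝ) = 3 / 4 := by
  have h3 : √3 ^ 2 = (3 : ℝ) := Real.sq_sqrt (by norm_num)
  rw [div_pow, h3]
  norm_num

theorem goodS_rot {I J : ℕ} (hI : I < 192) (hJ : J < 192) (h : GoodS I J) :
    GoodS ((I + 64) % 192) ((J + 64) % 192) := by
  have horth := symm_orth
  have hsrot : ∀ i < 192, symmTwo symmRotB (dropC rim i) (dropC rim ((i + 64) % 192)) = true :=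
    fun i hi => List.all_eq_true.1 symm_chk_srot i (List.mem_range.2 hi)
  have hside : ∀ i < 192, ∀ p' q', Side ((i + 64) % 192) p' q' → ∃ p q,
      symmR (-(1 / 2)) (-(√3 / 2)) (√3 / 2) (-(1 / 2)) p p' ∧
      symmR (-(1 / 2)) (-(√3 / 2)) (√3 / 2) (-(1 / 2)) q q' ∧ (Side i p q ∨ Side i q p) := by
    intro i hi p' q' ⟨l', hl'⟩
    obtain ⟨a, b, a', b', r, r', h1, h2, h3, h4⟩ := symm_two (hsrot i hi)
    rw [hl'] at h2
    obtain ⟨rfl, h5⟩ := List.cons.inj h2
    obtain ⟨rfl, -⟩ := List.cons.inj h5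
    exact ⟨a, b, symm_rotR h3, symm_rotR h4, Or.inl ⟨r, h1⟩⟩
  refine symm_gen (m11 := -(1 / 2)) (m12 := -(√3 / 2)) (m21 := √3 / 2) (m22 := -(1 / 2))
    (by linear_combination horth) (by linear_combination horth) (by ring)
    (by linear_combination horth) (by linear_combination horth) (by ring) ?_
    (hside I hI) (hside J hJ) h
  rintro p q (⟨c, hc, hpq⟩ | ⟨i, hi, l, hl⟩)
  · have h1 := List.all_eq_true.1 symm_chk_rot c hc
    obtain ⟨c', hc', h2⟩ := List.any_eq_true.1 h1
    obtain ⟨p', q', h3, h4, h5⟩ := symm_all2 h2 hpq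
    exact ⟨p', q', symm_rotR h4, symm_rotR h5, Or.inl (Or.inl ⟨c', hc', h3⟩)⟩
  · obtain ⟨a, b, a', b', r, r', h1, h2, h3, h4⟩ := symm_two (hsrot i hi)
    rw [hl] at h1
    obtain ⟨rfl, h5⟩ := List.cons.inj h1
    obtain ⟨rfl, -⟩ := List.cons.inj h5
    exact ⟨a', b', symm_rotR h3, symm_rotR h4,
      Or.inl (Or.inr ⟨(i + 64) % 192, Nat.mod_lt _ (by norm_num), r', h2⟩)⟩

theorem goodS_mir {I J : ℕ} (hI : I < 192) (hJ : J < 192) (h : GoodS I J) : GoodS (191 - I) (191 - J) := by
  have hsmir : ∀ i < 192, symmTwoR symmMirB (dropC rim i) (dropC rim (191 - i)) = true :=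
    fun i hi => List.all_eq_true.1 symm_chk_smir i (List.mem_range.2 hi)
  have hside : ∀ i < 192, ∀ p' q', Side (191 - i) p' q' → ∃ p q,
      symmR 1 0 0 (-1) p p' ∧ symmR 1 0 0 (-1) q q' ∧ (Side i p q ∨ Side i q p) := by
    intro i hi p' q' ⟨l', hl'⟩
    obtain ⟨a, b, a', b', r, r', h1, h2, h3, h4⟩ := symm_twoR (hsmir i hi)
    rw [hl'] at h2
    obtain ⟨rfl, h5⟩ := List.cons.inj h2
    obtain ⟨rfl, -⟩ := List.cons.inj h5
    exact ⟨b, a, symm_mirR h4, symm_mirR h3, Or.inr ⟨r, h1⟩⟩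
  refine symm_gen (m11 := 1) (m12 := 0) (m21 := 0) (m22 := -1)
    (by ring) (by ring) (by ring) (by ring) (by ring) (by ring) ?_ (hside I hI) (hside J hJ) h
  rintro p q (⟨c, hc, hpq⟩ | ⟨i, hi, l, hl⟩)
  · have h1 := List.all_eq_true.1 symm_chk_mir c hc
    obtain ⟨c', hc', h2⟩ := List.any_eq_true.1 h1
    rcases Bool.or_eq_true _ _ ▸ h2 with h2 | h2
    · obtain ⟨p', q', h3, h4, h5⟩ := symm_all2 h2 hpq
      exact ⟨p', q', symm_mirR h4, symm_mirR h5, Or.inl (Or.inl ⟨c', hc', h3⟩)⟩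
    · obtain ⟨p', q', h3, h4, h5⟩ := symm_all2 h2 hpq
      exact ⟨p', q', symm_mirR h4, symm_mirR h5,
        Or.inr (Or.inl ⟨c', hc', symm_cons2_reverse h3⟩)⟩
  · obtain ⟨a, b, a', b', r, r', h1, h2, h3, h4⟩ := symm_twoR (hsmir i hi)
    rw [hl] at h1
    obtain ⟨rfl, h5⟩ := List.cons.inj h1
    obtain ⟨rfl, -⟩ := List.cons.inj h5
    exact ⟨b', a', symm_mirR h3, symm_mirR h4, Or.inr (Or.inr ⟨191 - i, by omega, r', h2⟩)⟩

private theorem symm_unrot {I J : ℕ} (hI : I < 192) (hJ : J < 192)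
    (h : GoodS ((I + 64) % 192) ((J + 64) % 192)) : GoodS I J := by
  have h1 := goodS_rot (Nat.mod_lt _ (by norm_num)) (Nat.mod_lt _ (by norm_num)) h
  have h2 := goodS_rot (Nat.mod_lt _ (by norm_num)) (Nat.mod_lt _ (by norm_num)) h1
  have e1 : (((I + 64) % 192 + 64) % 192 + 64) % 192 = I := by omega
  have e2 : (((J + 64) % 192 + 64) % 192 + 64) % 192 = J := by omega
  rw [e1, e2] at h2
  exact h2

private theorem symm_unrot2 {I J : ℕ} (hI : I < 192) (hJ : J < 192)
    (h : GoodS ((I + 128) % 192) ((J + 128) % 192)) : GoodS I J := by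
  refine symm_unrot hI hJ (symm_unrot (Nat.mod_lt _ (by norm_num)) (Nat.mod_lt _ (by norm_num)) ?_)
  have e1 : ((I + 64) % 192 + 64) % 192 = (I + 128) % 192 := by omega
  have e2 : ((J + 64) % 192 + 64) % 192 = (J + 128) % 192 := by omega
  rw [e1, e2]
  exact h

private theorem symm_unmir {I J : ℕ} (hI : I < 192) (hJ : J < 192)
    (h : GoodS (191 - I) (191 - J)) : GoodS I J := by
  have h1 := goodS_mir (by omega) (by omega) h
  have e1 : 191 - (191 - I) = I := by omega
  have e2 : 191 - (191 - J) = J := by omega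
  rw [e1, e2] at h1
  exact h1

private theorem symm_caseA (h : ∀ I J, isRep I J → GoodS I J) {I J : ℕ} (hI : I < 64)
    (hIJ : I < J) (hJ : J ≤ I + 96) : GoodS I J := by
  by_cases h1 : (I + J + 1) % 128 ≤ 64
  · exact h I J ⟨hI, hIJ, hJ, h1⟩
  · refine symm_unmir (by omega) (by omega) (goodS_swap ?_)
    by_cases h2 : 191 - J < 64
    · refine h _ _ ⟨h2, by omega, by omega, ?_⟩
      have e : 191 - J + (191 - I) + 1 = 383 - (I + J) := by omega
      rw [e]
      omega
    · by_cases h3 : 191 - J < 128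
      · refine symm_unrot2 (by omega) (by omega) (h _ _ ⟨by omega, by omega, by omega, ?_⟩)
        omega
      · refine symm_unrot (by omega) (by omega) (h _ _ ⟨by omega, by omega, by omega, ?_⟩)
        omega

private theorem symm_caseB (h : ∀ I J, isRep I J → GoodS I J) {I J : ℕ} (hI : I < 192)
    (hJ : J < 192) (hd : (I < J ∧ J ≤ I + 96) ∨ (J < I ∧ J + 192 ≤ I + 96)) : GoodS I J := by
  by_cases h1 : I < 64
  · exact symm_caseA h h1 (by omega) (by omega)
  · by_cases h2 : I < 128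
    · exact symm_unrot2 hI hJ (symm_caseA h (by omega) (by omega) (by omega))
    · exact symm_unrot hI hJ (symm_caseA h (by omega) (by omega) (by omega))

theorem good_of_rep (h : ∀ I J, isRep I J → GoodS I J) {I J : ℕ} (hI : I < 192) (hJ : J < 192) (hne : I ≠ J) :
    GoodS I J := by
  by_cases hd : (I < J ∧ J ≤ I + 96) ∨ (J < I ∧ J + 192 ≤ I + 96)
  · exact symm_caseB h hI hJ hd
  · exact goodS_swap (symm_caseB h hJ hI (by omega))

end BallBlock
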