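import Pool.Agent.BallBlock.Polygon
import Pool.Agent.BallBlock.Symm
import Pool.Agent.BallBlock.TableOK
import Pool.Agent.BallBlock.CertAll

/-!
From the polygon and the pairs of sides to all lines. Apply `exit_side` at the point of parameter `t1` in the direction `-d` and at the
point of parameter `t2` in the direction `d`: `sP ≤ t1 ≤ t2 ≤ sQ`, the point `P` of parameter `sP` is on side `I`, the point `Q` of parameter `sQ` on side `J`.
`I ≠ J`: the functional of side `I` (`side_pos`) is zero at `P` and positive at `t1` (so `sP < t1` and it is increasing), so it is positive at `Q`.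
Then `good_of_rep rep_good` gives `Good`; apply it with base point `P`, `D = sQ - sP`, chord `t1 - sP`, `t2 - sP`, and shift the parameter in `zz`, `Blocked`.
-/

open Real

namespace BallBlock

open K

private theorem inner_side {i : ℕ} {p q p' q' : Nd} (h : Side i p q) (h' : Side i p' q') :
    p = p' ∧ q = q' := by
  obtain ⟨l, hl⟩ := h
  obtain ⟨l', hl'⟩ := h'
  rw [hl] at hl'
  injection hl' with h1 h2
  injection h2 with h3 h4
  exact ⟨h1, h3⟩

private theorem inner_shift {x y dx dy t1 t2 σ X Y : ℝ} (hX : X = x + (t1 - σ) * dx)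
    (hY : Y = y + (t1 - σ) * dy) (h : Blocked EE X Y dx dy σ (t2 - t1 + σ)) :
    Blocked EE x y dx dy t1 t2 := by
  obtain ⟨p, q, hE, s, hs⟩ := h
  refine ⟨p, q, hE, s + (t1 - σ), ?_⟩
  have e1 : X + s * dx = x + (s + (t1 - σ)) * dx := by rw [hX]; ring
  have e2 : Y + s * dy = y + (s + (t1 - σ)) * dy := by rw [hY]; ring
  have e3 : zz X Y dx dy σ (t2 - t1 + σ) s = zz x y dx dy t1 t2 (s + (t1 - σ)) := by
    unfold zz
    rw [e1, e2]
    ring
  rw [e1, e2, e3] at hs
  exact hs

theorem inner {x y dx dy t1 t2 : ℝ} (hd : dx ^ 2 + dy ^ 2 = 1) (ht : t1 ≤ t2)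
    (h1 : (x + t1 * dx) ^ 2 + (y + t1 * dy) ^ 2 ≤ RR ^ 2) (h2 : (x + t2 * dx) ^ 2 + (y + t2 * dy) ^ 2 ≤ RR ^ 2) :
    Blocked EE x y dx dy t1 t2 := by
  obtain ⟨I, hI, p, q, hS, s, l, hs, hl0, hl1, hx, hy⟩ :=
    exit_side (x := x + t1 * dx) (y := y + t1 * dy) (dx := -dx) (dy := -dy) h1
      (by rw [neg_sq, neg_sq]; exact hd)
  obtain ⟨J, hJ, p', q', hS', s', l', hs', hl0', hl1', hx', hy'⟩ :=
    exit_side (x := x + t2 * dx) (y := y + t2 * dy) (dx := dx) (dy := dy) h2 hd
  have hpos := side_pos hI hS h1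
  -- the functional of side `I` along the line
  have hP : (nx q - nx p) * (y + (t1 - s) * dy - ny p) -
      (ny q - ny p) * (x + (t1 - s) * dx - nx p) = 0 := by
    have e1 : x + (t1 - s) * dx = lr (nx p) (nx q) l := by rw [← hx]; ring
    have e2 : y + (t1 - s) * dy = lr (ny p) (ny q) l := by rw [← hy]; ring
    rw [e1, e2]
    unfold lr
    ring
  set c : ℝ := (nx q - nx p) * dy - (ny q - ny p) * dx with hc
  have hcs : 0 < c * s := by
    have : c * s = ((nx q - nx p) * (y + t1 * dy - ny p) - (ny q - ny p) * (x + t1 * dx - nx p)) -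
        ((nx q - nx p) * (y + (t1 - s) * dy - ny p) -
          (ny q - ny p) * (x + (t1 - s) * dx - nx p)) := by
      rw [hc]; ring
    rw [this, hP, sub_zero]
    exact hpos
  have hs0 : 0 < s := by
    rcases hs.lt_or_eq with h | h
    · exact h
    · rw [← h, mul_zero] at hcs
      exact absurd hcs (lt_irrefl _)
  have hc0 : 0 < c := by
    by_contra hcn
    push Not at hcn
    have := mul_nonpos_of_nonpos_of_nonneg hcn hs0.le
    linarith
  have hne : I ≠ J := by
    intro hIJ
    subst hIJ
    obtain ⟨rfl, rfl⟩ := inner_side hS hS'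
    have hQ : (nx q - nx p) * (y + (t2 + s') * dy - ny p) -
        (ny q - ny p) * (x + (t2 + s') * dx - nx p) = 0 := by
      have e1 : x + (t2 + s') * dx = lr (nx p) (nx q) l' := by rw [← hx']; ring
      have e2 : y + (t2 + s') * dy = lr (ny p) (ny q) l' := by rw [← hy']; ring
      rw [e1, e2]
      unfold lr
      ring
    have h3 : (nx q - nx p) * (y + (t2 + s') * dy - ny p) -
        (ny q - ny p) * (x + (t2 + s') * dx - nx p) =
        ((nx q - nx p) * (y + t1 * dy - ny p) - (ny q - ny p) * (x + t1 * dx - nx p)) +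
          c * (t2 - t1 + s') := by
      rw [hc]; ring
    have h4 : 0 ≤ c * (t2 - t1 + s') := mul_nonneg hc0.le (by linarith)
    linarith
  have hG := good_of_rep (fun _ _ h => rep_good h) hI hJ hne p q p' q' hS hS' l l' hl0 hl1 hl0' hl1'
  have hB := hG dx dy (t2 - t1 + s + s') s (t2 - t1 + s) hd (by linarith)
    (by rw [← hx, ← hx']; ring) (by rw [← hy, ← hy']; ring) hs (by linarith) (by linarith)
  exact inner_shift (by rw [← hx]; ring) (by rw [← hy]; ring) hB

end BallBlock
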