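import Pool.Agent.BallBlock.SubReal
import Pool.Agent.BallBlock.Rec

/-!
`ltS (crn sI sJ) s t`: for the vertices `X` of `s`, `Y` of `t`, `P` of `sI`, `Q` of `sJ`:
`X·Q + Y·P < Y·Q + X·P` with `X·Y = a a' + 3 b b'` in offset coordinates, i.e. `(Q - P)·X < (Q - P)·Y` for the real scalar product
(the offset cancels: it changes `X·(Q-P)` by a constant independent of `X`). This is affine in each of `P, Q, X, Y`
separately, so it holds for all points. `h_sound`: `hSub h s` says `u ≤ h` at both vertices.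
-/

open Real

namespace BallBlock

open K

/-- the bilinear expression -/
private noncomputable def orderG (px py qx qy x y x' y' : ℝ) : ℝ :=
  (qx - px) * (x' - x) + (qy - py) * (y' - y)

private theorem order_lr {a b l : ℝ} (l0 : 0 ≤ l) (l1 : l ≤ 1) (ha : 0 < a) (hb : 0 < b) :
    0 < lr a b l := by
  unfold lr
  rcases eq_or_lt_of_le l0 with h | h
  · rw [← h]
    linarith
  · have h1 : 0 < l * b := mul_pos h hb
    have h2 : 0 ≤ (1 - l) * a := mul_nonneg (by linarith) ha.le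
    linarith

private theorem order_lr4 {px py qx qy x y a b a' b' l : ℝ} (l0 : 0 ≤ l) (l1 : l ≤ 1)
    (h1 : 0 < orderG px py qx qy x y a b) (h2 : 0 < orderG px py qx qy x y a' b') :
    0 < orderG px py qx qy x y (lr a a' l) (lr b b' l) := by
  have h := order_lr l0 l1 h1 h2
  unfold orderG lr at *
  linarith

private theorem order_lr3 {px py qx qy x y a b a' b' l : ℝ} (l0 : 0 ≤ l) (l1 : l ≤ 1)
    (h1 : 0 < orderG px py qx qy a b x y) (h2 : 0 < orderG px py qx qy a' b' x y) :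
    0 < orderG px py qx qy (lr a a' l) (lr b b' l) x y := by
  have h := order_lr l0 l1 h1 h2
  unfold orderG lr at *
  linarith

private theorem order_lr2 {px py qx qy x y a b a' b' l : ℝ} (l0 : 0 ≤ l) (l1 : l ≤ 1)
    (h1 : 0 < orderG px py a b qx qy x y) (h2 : 0 < orderG px py a' b' qx qy x y) :
    0 < orderG px py (lr a a' l) (lr b b' l) qx qy x y := by
  have h := order_lr l0 l1 h1 h2
  unfold orderG lr at *
  linarith

private theorem order_lr1 {px py qx qy x y a b a' b' l : ℝ} (l0 : 0 ≤ l) (l1 : l ≤ 1)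
    (h1 : 0 < orderG a b px py qx qy x y) (h2 : 0 < orderG a' b' px py qx qy x y) :
    0 < orderG (lr a a' l) (lr b b' l) px py qx qy x y := by
  have h := order_lr l0 l1 h1 h2
  unfold orderG lr at *
  linarith

private theorem order_base {P Q X Y : Vx}
    (h : lt1 (lin X.a (Nat.mul 3 X.b) Q.a Q.b) (lin Y.a (Nat.mul 3 Y.b) P.a P.b)
      (lin Y.a (Nat.mul 3 Y.b) Q.a Q.b) (lin X.a (Nat.mul 3 X.b) P.a P.b) = true) :
    0 < orderG (vx P) (vy P) (vx Q) (vy Q) (vx X) (vy X) (vx Y) (vy Y) := by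
  have h1 : (X.a * Q.a + (3 * X.b) * Q.b) + (Y.a * P.a + (3 * Y.b) * P.b) <
      (Y.a * Q.a + (3 * Y.b) * Q.b) + (X.a * P.a + (3 * X.b) * P.b) := by
    have h2 := Nat.le_of_ble_eq_true h
    exact h2
  have h2 : ((X.a : ℝ) * Q.a + (3 * X.b) * Q.b) + (Y.a * P.a + (3 * Y.b) * P.b) <
      (Y.a * Q.a + (3 * Y.b) * Q.b) + (X.a * P.a + (3 * X.b) * P.b) := by
    exact_mod_cast h1
  have h3 : √3 * √3 = 3 := Real.mul_self_sqrt (by norm_num)
  have h4 : orderG (vx P) (vy P) (vx Q) (vy Q) (vx X) (vy X) (vx Y) (vy Y) =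
      ((Q.a : ℝ) - P.a) * (Y.a - X.a) + (√3 * √3) * (((Q.b : ℝ) - P.b) * (Y.b - X.b)) := by
    unfold orderG vx vy
    ring
  rw [h4, h3]
  linarith

private theorem order_four {sI sJ : Sub} {X Y : Vx}
    (h : lt4 (mkDP (crn sI sJ) X) (mkDP (crn sI sJ) Y) = true)
    {Px Py TP BP lP Qx Qy TQ BQ lQ : ℝ}
    (oP : OnSub sI Px Py TP BP lP) (oQ : OnSub sJ Qx Qy TQ BQ lQ) :
    0 < orderG Px Py Qx Qy (vx X) (vy X) (vx Y) (vy Y) := by
  unfold lt4 at h
  rw [an_iff, an_iff, an_iff] at h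
  obtain ⟨h1, h2, h3, h4⟩ := h
  have g1 : 0 < orderG (vx sI.v) (vy sI.v) (vx sJ.v) (vy sJ.v) (vx X) (vy X) (vx Y) (vy Y) :=
    order_base h1
  have g2 : 0 < orderG (vx sI.v) (vy sI.v) (vx sJ.w) (vy sJ.w) (vx X) (vy X) (vx Y) (vy Y) :=
    order_base h2
  have g3 : 0 < orderG (vx sI.w) (vy sI.w) (vx sJ.v) (vy sJ.v) (vx X) (vy X) (vx Y) (vy Y) :=
    order_base h3
  have g4 : 0 < orderG (vx sI.w) (vy sI.w) (vx sJ.w) (vy sJ.w) (vx X) (vy X) (vx Y) (vy Y) :=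
    order_base h4
  rw [oP.hX, oP.hY, oQ.hX, oQ.hY]
  exact order_lr1 oP.l0 oP.l1 (order_lr2 oQ.l0 oQ.l1 g1 g2) (order_lr2 oQ.l0 oQ.l1 g3 g4)

theorem ord_sound {sI sJ s t : Sub} (h : ltS (crn sI sJ) s t = true)
    {Px Py TP BP lP Qx Qy TQ BQ lQ X Y Tp Bt l X' Y' Tp' Bt' l' : ℝ}
    (oP : OnSub sI Px Py TP BP lP) (oQ : OnSub sJ Qx Qy TQ BQ lQ)
    (o : OnSub s X Y Tp Bt l) (o' : OnSub t X' Y' Tp' Bt' l') :
    (Qx - Px) * X + (Qy - Py) * Y < (Qx - Px) * X' + (Qy - Py) * Y' := by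
  unfold ltS at h
  rw [an_iff, an_iff, an_iff] at h
  obtain ⟨h1, h2, h3, h4⟩ := h
  have g1 := order_four h1 oP oQ
  have g2 := order_four h2 oP oQ
  have g3 := order_four h3 oP oQ
  have g4 := order_four h4 oP oQ
  have g : 0 < orderG Px Py Qx Qy X Y X' Y' := by
    rw [o.hX, o.hY, o'.hX, o'.hY]
    exact order_lr3 o.l0 o.l1 (order_lr4 o'.l0 o'.l1 g1 g2) (order_lr4 o'.l0 o'.l1 g3 g4)
  unfold orderG at g
  linarith

theorem h_sound {h : ℕ} {s : Sub} (hh : hSub h s = true) {X Y Tp Bt l : ℝ} (o : OnSub s X Y Tp Bt l) :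
    Bt ≤ ((h : ℝ) - 281474976710656) / 2 := by
  unfold hSub at hh
  rw [an_iff] at hh
  obtain ⟨h1, h2⟩ := hh
  have h1' : s.v.u ≤ h := Nat.le_of_ble_eq_true h1
  have h2' : s.w.u ≤ h := Nat.le_of_ble_eq_true h2
  have g1 : (s.v.u : ℝ) ≤ h := by exact_mod_cast h1'
  have g2 : (s.w.u : ℝ) ≤ h := by exact_mod_cast h2'
  have l0 := o.l0
  have l1 := o.l1
  rw [o.hB]
  unfold lr vB
  have e1 : (1 - l) * (((s.v.u : ℝ) - 281474976710656) / 2) ≤
      (1 - l) * (((h : ℝ) - 281474976710656) / 2) :=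
    mul_le_mul_of_nonneg_left (by linarith) (by linarith)
  have e2 : l * (((s.w.u : ℝ) - 281474976710656) / 2) ≤
      l * (((h : ℝ) - 281474976710656) / 2) :=
    mul_le_mul_of_nonneg_left (by linarith) l0
  linarith

end BallBlock
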