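import Pool.Agent.BallBlock.Plan

/-!
Abstract blocking lemma. Write `z i = α + β s i`. Suppose nothing is hit: for all `i < m`, `z i > T i` or `z i < B i`.
At `i` with `s i ≤ t1` or `s i ≥ t2` we have `z i ≥ - R i / 2`; at `t1 ≤ s i ≤ t2` we have `z i ≤ - R i / 2 ≤ T i` (by `hA`), so `z i < B i`.
(1) `i = 0` and `i = m - 1`: `z ≥ - R / 2 ≥ B`, so `z > T ≥ h`. So `z i > h` for all `i < m` (`z` is affine in `s`, `s 0 ≤ s i ≤ s (m-1)`).
(2) if `s i ≤ t1` or `t2 ≤ s i` then `z i < B i` is impossible (`B i ≤ - R i / 2 ≤ z i`, or `B i ≤ h < z i`), so `z i > T i`, i.e.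
`(t1 - s i) (t2 - s i) > 2 T i + R i`, in particular `s i ≠ t1, t2`. So `s 0 < t1`, `t2 < s (m-1)`.
Let `a` be the largest index with `s a < t1` and `b` the smallest with `t2 < s b`; `a < b`. For `a < k < b`: `t1 ≤ s k ≤ t2`, so `z k < B k`.
Apply `hcov a b`: G case: `s i ≤ s a < t1 ≤ t2 < s b ≤ s j`; with `x = t1 - s i`, `y = s j - t2`, `d = s j - s i`, `x + y ≤ d`,
`x (d - y) > A i = 2 T i + R i`, `y (d - x) > A j`; so `√A i + √A j < √(x (d-y)) + √(y (d-x)) ≤ d` by Cauchy-Schwarz
(`(√(x(d-y)) + √(y(d-x)))² ≤ (x + (d-x)) ((d-y) + y)`), contradiction. H case: `z k < B k ≤ h < z k`. D case: `z i > T i`, `z j > T j`,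
`(s j - s i) z k = (s j - s k) z i + (s k - s i) z j > (s j - s k) T i + (s k - s i) T j ≥ (s j - s i) B k`, contradiction.
-/

open Real

namespace BallBlock

theorem pattern {m : ℕ} (hm : 2 ≤ m) (s R T B : ℕ → ℝ) (h t1 t2 α β : ℝ)
    (hs : ∀ i j, i < j → j < m → s i < s j) (ht : t1 ≤ t2) (h0 : s 0 ≤ t1) (h1 : t2 ≤ s (m - 1))
    (hz : ∀ i < m, α + β * s i = -(R i) / 2 - (s i - t1) * (t2 - s i) / 2)
    (hA : ∀ i < m, 0 ≤ 2 * T i + R i)
    (hB : ∀ i < m, B i ≤ -(R i) / 2 ∨ B i ≤ h)
    (hB0 : B 0 ≤ -(R 0) / 2) (hB1 : B (m - 1) ≤ -(R (m - 1)) / 2)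
    (hT0 : h ≤ T 0) (hT1 : h ≤ T (m - 1))
    (hcov : ∀ x y, x < y → y < m →
      (∃ i j, i ≤ x ∧ y ≤ j ∧ j < m ∧ s j - s i ≤ √(2 * T i + R i) + √(2 * T j + R j)) ∨
      (∃ k, x < k ∧ k < y ∧ B k ≤ h) ∨
      (∃ i k j, i ≤ x ∧ x < k ∧ k < y ∧ y ≤ j ∧ j < m ∧
        (s j - s i) * B k ≤ (s j - s k) * T i + (s k - s i) * T j)) :
    ∃ i < m, B i ≤ α + β * s i ∧ α + β * s i ≤ T i := by
  by_contra hcon
  push Not at hcon
  have hmono : ∀ i j, i ≤ j → j < m → s i ≤ s j := by
    intro i j hij hj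
    rcases Nat.eq_or_lt_of_le hij with h2 | h2
    · rw [h2]
    · exact (hs i j h2 hj).le
  -- outside the chord the height is above the paraboloid
  have hlow : ∀ i < m, (s i ≤ t1 ∨ t2 ≤ s i) → -(R i) / 2 ≤ α + β * s i := by
    intro i hi hi2
    rw [hz i hi]
    have : (s i - t1) * (t2 - s i) ≤ 0 := by
      rcases hi2 with h2 | h2
      · exact mul_nonpos_of_nonpos_of_nonneg (by linarith) (by linarith)
      · exact mul_nonpos_of_nonneg_of_nonpos (by linarith) (by linarith)
    linarith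
  have hz0 : h < α + β * s 0 := by
    have h2 := hcon 0 (by omega) (hB0.trans (hlow 0 (by omega) (Or.inl h0)))
    linarith
  have hz1 : h < α + β * s (m - 1) := by
    have h2 := hcon (m - 1) (by omega) (hB1.trans (hlow (m - 1) (by omega) (Or.inr h1)))
    linarith
  have hzh : ∀ i < m, h < α + β * s i := by
    intro i hi
    have e1 := hmono 0 i (Nat.zero_le _) hi
    have e2 := hmono i (m - 1) (by omega) (by omega)
    rcases le_total 0 β with hb | hb
    · have := mul_le_mul_of_nonneg_left e1 hb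
      linarith
    · have := mul_le_mul_of_nonpos_left e2 hb
      linarith
  have hT : ∀ i < m, (s i ≤ t1 ∨ t2 ≤ s i) → T i < α + β * s i := by
    intro i hi hi2
    refine hcon i hi ?_
    rcases hB i hi with h2 | h2
    · exact h2.trans (hlow i hi hi2)
    · exact h2.trans (hzh i hi).le
  have hprod : ∀ i < m, (s i ≤ t1 ∨ t2 ≤ s i) → 2 * T i + R i < (t1 - s i) * (t2 - s i) := by
    intro i hi hi2
    have h2 := hT i hi hi2
    rw [hz i hi] at h2
    nlinarith
  have hmid : ∀ k < m, t1 ≤ s k → s k ≤ t2 → α + β * s k < B k := by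
    intro k hk hk1 hk2
    by_contra hc
    have h2 := hcon k hk (not_lt.1 hc)
    rw [hz k hk] at h2
    have h3 : 0 ≤ (s k - t1) * (t2 - s k) := mul_nonneg (by linarith) (by linarith)
    have h4 := hA k hk
    linarith
  have hs0 : s 0 < t1 := by
    refine lt_of_le_of_ne h0 fun he => ?_
    have h2 := hprod 0 (by omega) (Or.inl h0)
    have h3 := hA 0 (by omega)
    rw [he] at h2
    simp only [sub_self, zero_mul] at h2
    linarith
  have hs1 : t2 < s (m - 1) := by
    refine lt_of_le_of_ne h1 fun he => ?_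
    have h2 := hprod (m - 1) (by omega) (Or.inr h1)
    have h3 := hA (m - 1) (by omega)
    rw [← he] at h2
    simp only [sub_self, mul_zero] at h2
    linarith
  classical
  -- the largest index before the chord and the smallest one after it
  obtain ⟨a, ham, hat, hamax⟩ : ∃ a, a < m ∧ s a < t1 ∧ ∀ k, a < k → k < m → t1 ≤ s k := by
    refine ⟨Nat.findGreatest (fun i => s i < t1) (m - 1), ?_, ?_, ?_⟩
    · have := Nat.findGreatest_le (P := fun i => s i < t1) (m - 1)
      omega
    · exact Nat.findGreatest_spec (P := fun i => s i < t1) (Nat.zero_le _) hs0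
    · intro k hk hkm
      have := Nat.findGreatest_is_greatest (P := fun i => s i < t1) hk (by omega)
      exact not_lt.1 this
  obtain ⟨b, hbm, hbt, hbmin⟩ : ∃ b, b < m ∧ t2 < s b ∧ ∀ k, k < b → s k ≤ t2 := by
    have hex : ∃ b, b < m ∧ t2 < s b := ⟨m - 1, by omega, hs1⟩
    refine ⟨Nat.find hex, (Nat.find_spec hex).1, (Nat.find_spec hex).2, ?_⟩
    intro k hk
    have h2 := Nat.find_min hex hk
    have h3 := (Nat.find_spec hex).1
    by_contra hc
    exact h2 ⟨by omega, not_le.1 hc⟩
  have hab : a < b := by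
    by_contra hc
    have := hmono b a (not_lt.1 hc) ham
    linarith
  have hinner : ∀ k, a < k → k < b → α + β * s k < B k := fun k hk hkb =>
    hmid k (by omega) (hamax k hk (by omega)) (hbmin k hkb)
  rcases hcov a b hab hbm with ⟨i, j, hia, hbj, hj, hd⟩ | ⟨k, hak, hkb, hBk⟩ |
    ⟨i, k, j, hia, hak, hkb, hbj, hj, hd⟩
  · have hsi : s i < t1 := lt_of_le_of_lt (hmono i a hia ham) hat
    have hsj : t2 < s j := lt_of_lt_of_le hbt (hmono b j hbj hj)
    have p1 := hprod i (by omega) (Or.inl hsi.le)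
    have p2 := hprod j hj (Or.inr hsj.le)
    set x := t1 - s i with hx
    set y := s j - t2 with hy
    set D := s j - s i with hD
    have hx0 : 0 < x := by linarith
    have hy0 : 0 < y := by linarith
    have hxD : 0 < D - x := by simp only [hx, hD]; linarith
    have hyD : 0 < D - y := by simp only [hy, hD]; linarith
    have q1 : 2 * T i + R i < x * (D - y) := by
      have : x * (D - y) = (t1 - s i) * (t2 - s i) := by simp only [hx, hy, hD]; ring
      linarith
    have q2 : 2 * T j + R j < (D - x) * y := by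
      have : (D - x) * y = (t1 - s j) * (t2 - s j) := by simp only [hx, hy, hD]; ring
      linarith
    have r1 : √(2 * T i + R i) < √x * √(D - y) := by
      rw [← Real.sqrt_mul hx0.le]
      exact Real.sqrt_lt_sqrt (hA i (by omega)) q1
    have r2 : √(2 * T j + R j) < √(D - x) * √y := by
      rw [← Real.sqrt_mul hxD.le]
      exact Real.sqrt_lt_sqrt (hA j hj) q2
    have w1 := Real.sq_sqrt hx0.le
    have w2 := Real.sq_sqrt hy0.le
    have w3 := Real.sq_sqrt hxD.le
    have w4 := Real.sq_sqrt hyD.le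
    nlinarith [sq_nonneg (√x - √(D - y)), sq_nonneg (√(D - x) - √y)]
  · have e1 := hinner k hak hkb
    have e2 := hzh k (by omega)
    linarith
  · have hsi : s i < t1 := lt_of_le_of_lt (hmono i a hia ham) hat
    have hsj : t2 < s j := lt_of_lt_of_le hbt (hmono b j hbj hj)
    have p1 := hT i (by omega) (Or.inl hsi.le)
    have p2 := hT j hj (Or.inr hsj.le)
    have e1 := hinner k hak hkb
    have u1 : 0 < s k - s i := by
      have := hs i k (by omega) (by omega)
      linarith
    have u2 : 0 < s j - s k := by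
      have := hs k j (by omega) hj
      linarith
    have v1 := mul_lt_mul_of_pos_left p1 u2
    have v2 := mul_lt_mul_of_pos_left p2 u1
    have v3 := mul_lt_mul_of_pos_left e1 (show 0 < s j - s i by linarith)
    have v4 : (s j - s i) * (α + β * s k) = (s j - s k) * (α + β * s i) + (s k - s i) * (α + β * s j) := by
      ring
    linarith

end BallBlock
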