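import Pool.Agent.BallBlock.GCert
import Pool.Agent.BallBlock.DCert
import Pool.Agent.BallBlock.Cross
import Pool.Agent.BallBlock.Order
import Pool.Agent.BallBlock.Pattern
import Pool.Agent.BallBlock.Cover

/-!
Soundness of one leaf.
-/

open Real

namespace BallBlock

open K

theorem nth_eq {α : Type} (l : List (List α)) (i : ℕ) : nth l i = l.getD i [] := by
  induction l generalizing i with
  | nil => rfl
  | cons A l ih =>
    cases i with
    | zero => rfl
    | succ n => exact (ih n).trans (by simp)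

theorem app_eq {α : Type} (l : List α) (x : α) : app l x = l ++ [x] := by
  induction l with
  | nil => rfl
  | cons y l ih => exact congrArg (List.cons y) ih

theorem isE_iff {α : Type} {l : List α} : isE l = true ↔ l = [] := by
  cases l with
  | nil => exact ⟨fun _ => rfl, fun _ => rfl⟩
  | cons x l => exact ⟨fun h => Bool.noConfusion (h : false = true), fun h => absurd h (by simp)⟩

private theorem nth_lt {α : Type} {l : List (List α)} {i : ℕ} (h : nth l i ≠ []) : i < l.length := by
  by_contra hcon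
  apply h
  rw [nth_eq, List.getD_eq_getElem?_getD, List.getElem?_eq_none (by omega)]
  rfl

private theorem nth_mem {α : Type} {l : List (List α)} {i : ℕ} (h : i < l.length) : nth l i ∈ l := by
  rw [nth_eq, List.getD_eq_getElem _ _ h]
  exact List.getElem_mem h

private theorem ordA_sound {c : Crn} {l : List (List Sub)} {A : List Sub} (h : ordA c l A = true) :
    ∀ i, i < l.length → ltI c (nth (A :: l) i) (nth (A :: l) (i + 1)) = true := by
  induction l generalizing A with
  | nil => intro i hi; simp at hi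
  | cons B l ih =>
    have h' : an (ltI c A B) (ordA c l B) = true := h
    rw [an_iff] at h'
    intro i hi
    cases i with
    | zero => exact h'.1
    | succ n => exact ih h'.2 n (by simpa using hi)

/-- linear interpolation of the negative square norm is below it -/
private theorem concave_norm (a b c d m : ℝ) (h0 : 0 ≤ m) (h1 : m ≤ 1) :
    lr (-(a ^ 2 + b ^ 2) / 2) (-(c ^ 2 + d ^ 2) / 2) m ≤ -((lr a c m) ^ 2 + (lr b d m) ^ 2) / 2 := by
  unfold lr
  nlinarith [mul_nonneg h0 (sub_nonneg.2 h1), mul_nonneg (mul_nonneg h0 (sub_nonneg.2 h1)) (sq_nonneg (a - c)),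
    mul_nonneg (mul_nonneg h0 (sub_nonneg.2 h1)) (sq_nonneg (b - d))]

private theorem lr_mono {a b c d m : ℝ} (h0 : 0 ≤ m) (h1 : m ≤ 1) (hac : a ≤ c) (hbd : b ≤ d) :
    lr a b m ≤ lr c d m := by
  unfold lr
  have := sub_nonneg.2 h1
  nlinarith [mul_le_mul_of_nonneg_left hac this, mul_le_mul_of_nonneg_left hbd h0]

private theorem bot_of_para {p q : Nd} {X Y B m : ℝ} (h0 : 0 ≤ m) (h1 : m ≤ 1) (hX : X = lr (nx p) (nx q) m)
    (hY : Y = lr (ny p) (ny q) m) (hB : B = lr (nB p) (nB q) m)
    (hp : nB p ≤ -(nx p ^ 2 + ny p ^ 2) / 2) (hq : nB q ≤ -(nx q ^ 2 + ny q ^ 2) / 2) :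
    B ≤ -(X ^ 2 + Y ^ 2) / 2 := by
  rw [hB, hX, hY]
  exact (lr_mono h0 h1 hp hq).trans (concave_norm _ _ _ _ _ h0 h1)

private theorem botOK_sound {h : ℕ} {s : Sub} (hs : IsMk s) (hb : BotOK h s.p s.q) {X Y T B l : ℝ}
    (o : OnSub s X Y T B l) : B ≤ -(X ^ 2 + Y ^ 2) / 2 ∨ B ≤ hR h := by
  obtain ⟨m, h0, h1, hX, hY, hT, hB⟩ := onSub_edge hs o
  rcases hb with hb | hb
  · exact Or.inl (bot_of_para h0 h1 hX hY hB hb.1 hb.2)
  · refine Or.inr ?_
    rw [hB]
    refine (lr_mono h0 h1 hb.1 hb.2).trans (le_of_eq ?_)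
    unfold lr; ring

private theorem rimOK_sound {h : ℕ} {s : Sub} (hs : IsMk s) (hb : RimOK h s.p s.q) {X Y T B l : ℝ}
    (o : OnSub s X Y T B l) : B ≤ -(X ^ 2 + Y ^ 2) / 2 ∧ hR h ≤ T := by
  obtain ⟨m, h0, h1, hX, hY, hT, hB⟩ := onSub_edge hs o
  refine ⟨bot_of_para h0 h1 hX hY hB hb.1 hb.2.1, ?_⟩
  rw [hT]
  refine le_trans (le_of_eq ?_) (lr_mono h0 h1 hb.2.2.1 hb.2.2.2)
  unfold lr; ring

/-- data of one crossing point -/
private structure Cr (E : Nd → Nd → Prop) (x y dx dy : ℝ) (A : List Sub) (c : Sub) (X Y T B l s : ℝ) : Prop where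
  mem : c ∈ A
  on : OnSub c X Y T B l
  hX : X = x + s * dx
  hY : Y = y + s * dy
  isMk : IsMk c
  e : E c.p c.q

theorem leaf_sound {E : Nd → Nd → Prop} {h : ℕ} {sI sJ : Sub} {L : Leaf}
    (hI : IsMk sI) (hJ : IsMk sJ) (eI : E sI.p sI.q) (eJ : E sJ.p sJ.q)
    (rI : RimOK h sI.p sI.q) (rJ : RimOK h sJ.p sJ.q)
    (hits : ∀ A ∈ L.its, ItemOK E h A)
    (hok : leafOK h sI sJ L (L.its.length + 2) = true)
    {x y T B l x' y' T' B' l' : ℝ} (oP : OnSub sI x y T B l) (oQ : OnSub sJ x' y' T' B' l') :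
    Good E x y x' y' := by
  intro dx dy D t1 t2 hd hD hx' hy' ht1 ht12 ht2
  set m := L.its.length + 2 with hm
  set all : List (List Sub) := [sI] :: app L.its [sJ] with hall
  have hallapp : all = [sI] :: (L.its ++ [[sJ]]) := by rw [hall, app_eq]
  have hlen : all.length = m := by rw [hallapp]; simp [hm]
  have hok' : an (orr (isE L.its) (an (allL (sepI (mkC4 sI sJ)) L.its) (ordA (crn sI sJ) (app L.its [sJ]) [sI])))
    (an (allL aItem all)
    (an (allL (fun g => gItem (nth all g.1) (nth all g.2)) L.G)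
    (an (allL (fun k => allL (hSub h) (nth all k)) L.H)
    (an (allL (fun d => dItem (nth all d.1) (nth all d.2.1) (nth all d.2.2)) L.D)
    (covAll L.G L.H L.D m 0))))) = true := hok
  simp only [an_iff, orr_iff] at hok'
  obtain ⟨hgeo, hA, hG, hH, hDD, hC⟩ := hok'
  rw [allL_iff] at hA hG hH hDD
  have h00 : nth all 0 = [sI] := by rw [hallapp]; rfl
  have hlast : nth all (m - 1) = [sJ] := by
    rw [nth_eq, hallapp, hm]
    have : L.its.length + 2 - 1 = L.its.length + 1 := by omega
    rw [this]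
    simp
  have hmid : ∀ i, 0 < i → i < m - 1 → nth all i ∈ L.its := by
    intro i h0 h1
    obtain ⟨n, rfl⟩ : ∃ n, i = n + 1 := ⟨i - 1, by omega⟩
    have hn : n < L.its.length := by omega
    rw [nth_eq, hallapp]
    simp only [List.getD_cons_succ]
    rw [List.getD_append _ _ _ _ hn, List.getD_eq_getElem _ _ hn]
    exact List.getElem_mem hn
  -- crossing points
  have hex : ∀ i, ∃ (c : Sub) (X Y T B l s : ℝ), i < m → (Cr E x y dx dy (nth all i) c X Y T B l s ∧
      (i = 0 → s = 0 ∧ c = sI) ∧ (i = m - 1 → s = D ∧ c = sJ) ∧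
      (0 < i → i < m - 1 → BotOK h c.p c.q ∧
        dx * (vy c.w - vy c.v) - dy * (vx c.w - vx c.v) ≠ 0)) := by
    intro i
    by_cases hi0 : i = 0
    · subst hi0
      refine ⟨sI, x, y, T, B, l, 0, fun _ => ⟨⟨?_, oP, by ring, by ring, hI, eI⟩, ?_, ?_, ?_⟩⟩
      · rw [h00]; simp
      · intro _; exact ⟨rfl, rfl⟩
      · intro h; omega
      · intro h; omega
    by_cases hi1 : i = m - 1
    · subst hi1
      refine ⟨sJ, x', y', T', B', l', D, fun _ => ⟨⟨?_, oQ, hx', hy', hJ, eJ⟩, ?_, ?_, ?_⟩⟩
      · rw [hlast]; simp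
      · intro h; omega
      · intro _; exact ⟨rfl, rfl⟩
      · intro _ h; omega
    by_cases him : i < m
    · have hmem := hmid i (by omega) (by omega)
      have hne : L.its ≠ [] := by intro hh; rw [hh] at hmem; simp at hmem
      have hsep : sepI (mkC4 sI sJ) (nth all i) = true := by
        rcases hgeo with hg | hg
        · exact absurd (isE_iff.1 hg) hne
        · exact (allL_iff.1 hg.1) _ hmem
      obtain ⟨hlink, hsub⟩ := hits _ hmem
      obtain ⟨c, hc, X, Y, Tc, Bc, lc, oc, hcol, htr⟩ := cross_sound hlink hsep oP oQ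
      obtain ⟨hmk, hE, hbot⟩ := hsub c hc
      rw [hx', hy'] at hcol htr
      have hcol' : dx * (Y - y) = dy * (X - x) := by
        have : D * (dx * (Y - y) - dy * (X - x)) = 0 := by linarith [hcol, (by ring :
          (x + D * dx - x) * (Y - y) - (y + D * dy - y) * (X - x) = D * (dx * (Y - y) - dy * (X - x)))]
        rcases mul_eq_zero.1 this with h | h
        · exact absurd h hD.ne'
        · linarith
      refine ⟨c, X, Y, Tc, Bc, lc, (X - x) * dx + (Y - y) * dy, fun _ => ⟨⟨hc, oc, ?_, ?_, hmk, hE⟩, ?_, ?_, ?_⟩⟩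
      · have : ((X - x) * dx + (Y - y) * dy) * dx = (X - x) * (dx ^ 2 + dy ^ 2) := by
          linear_combination dy * hcol'
        rw [this, hd]; ring
      · have : ((X - x) * dx + (Y - y) * dy) * dy = (Y - y) * (dx ^ 2 + dy ^ 2) := by
          linear_combination (-dx) * hcol'
        rw [this, hd]; ring
      · intro h; exact absurd h hi0
      · intro h; exact absurd h hi1
      · intro _ _
        refine ⟨hbot, fun hz => htr ?_⟩
        linear_combination D * hz
    · exact ⟨sI, 0, 0, 0, 0, 0, 0, fun hh => absurd hh him⟩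
  choose c X Y Tc Bc lc s hcr using hex
  have hdS : ∀ i j, i < m → j < m → ltS (crn sI sJ) (c i) (c j) = true → s i < s j := by
    intro i j hi hj hlt
    obtain ⟨ci, -⟩ := hcr i hi
    obtain ⟨cj, -⟩ := hcr j hj
    have := ord_sound hlt oP oQ ci.on cj.on
    rw [hx', hy', ci.hX, ci.hY, cj.hX, cj.hY] at this
    have e1 : (x + D * dx - x) * (x + s i * dx) + (y + D * dy - y) * (y + s i * dy) =
        D * (dx * x + dy * y) + D * (s i * (dx ^ 2 + dy ^ 2)) := by ring
    have e2 : (x + D * dx - x) * (x + s j * dx) + (y + D * dy - y) * (y + s j * dy) =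
        D * (dx * x + dy * y) + D * (s j * (dx ^ 2 + dy ^ 2)) := by ring
    rw [e1, e2, hd] at this
    nlinarith
  have hs0 : s 0 = 0 := ((hcr 0 (by omega)).2.1 rfl).1
  have hs1 : s (m - 1) = D := ((hcr (m - 1) (by omega)).2.2.1 rfl).1
  have hsucc : ∀ i, i + 1 < m → s i < s (i + 1) := by
    intro i hi
    rcases hgeo with hg | hg
    · have hn : L.its = [] := isE_iff.1 hg
      have hm2 : m = 2 := by rw [hm, hn]; rfl
      have : i = 0 := by omega
      subst this
      have h1 : s (0 + 1) = D := by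
        have : m - 1 = 0 + 1 := by omega
        rw [← this]; exact hs1
      rw [hs0, h1]; exact hD
    · have hlt := ordA_sound hg.2 i (by rw [app_eq]; simp; omega)
      have hlt' : ltI (crn sI sJ) (nth all i) (nth all (i + 1)) = true := hlt
      have h1 := allL_iff.1 hlt' (c i) (hcr i (by omega)).1.mem
      have h2 := allL_iff.1 h1 (c (i + 1)) (hcr (i + 1) hi).1.mem
      exact hdS i (i + 1) (by omega) hi h2
  have hmono : ∀ i j, i < j → j < m → s i < s j := by
    intro i j hij
    induction j with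
    | zero => omega
    | succ j ih =>
      intro hj
      rcases Nat.lt_or_ge i j with h' | h'
      · exact (ih h' (by omega)).trans (hsucc j hj)
      · have : i = j := by omega
        subst this; exact hsucc i hj
  have hRi : ∀ i, i < m → zz x y dx dy t1 t2 (s i) =
      -(X i ^ 2 + Y i ^ 2) / 2 - (s i - t1) * (t2 - s i) / 2 := by
    intro i hi
    obtain ⟨ci, -⟩ := hcr i hi
    rw [ci.hX, ci.hY]; rfl
  have haff : ∀ u, zz x y dx dy t1 t2 u = (-(x ^ 2 + y ^ 2) / 2 + t1 * t2 / 2) +
      (-(x * dx + y * dy) - (t1 + t2) / 2) * u := by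
    intro u
    unfold zz
    linear_combination (-(u ^ 2) / 2) * hd
  have hok_mem : ∀ i, i < m → (c i).ok = true := by
    intro i hi
    have h1 := hA (nth all i) (nth_mem (by rw [hlen]; exact hi))
    exact allL_iff.1 h1 (c i) (hcr i hi).1.mem
  have hdist : ∀ i j, i < m → j < m → i < j →
      √((X j - X i) ^ 2 + (Y j - Y i) ^ 2) = s j - s i := by
    intro i j hi hj hij
    obtain ⟨ci, -⟩ := hcr i hi
    obtain ⟨cj, -⟩ := hcr j hj
    have hlt := hmono i j hij hj
    have : (X j - X i) ^ 2 + (Y j - Y i) ^ 2 = (s j - s i) ^ 2 := by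
      rw [ci.hX, ci.hY, cj.hX, cj.hY]
      linear_combination ((s j - s i) ^ 2) * hd
    rw [this, Real.sqrt_sq (by linarith)]
  obtain ⟨i, hi, hb1, hb2⟩ := pattern (m := m) (by omega) s (fun i => X i ^ 2 + Y i ^ 2) Tc Bc (hR h) t1 t2
    (-(x ^ 2 + y ^ 2) / 2 + t1 * t2 / 2) (-(x * dx + y * dy) - (t1 + t2) / 2) hmono ht12
    (by rw [hs0]; exact ht1) (by rw [hs1]; exact ht2)
    (fun i hi => by rw [← haff, hRi i hi])
    (fun i hi => a_sound (hcr i hi).1.isMk (hok_mem i hi) (hcr i hi).1.on)
    (fun i hi => by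
      obtain ⟨ci, h0, h1, h2⟩ := hcr i hi
      by_cases hi0 : i = 0
      · have hc := (h0 hi0).2
        have hr : RimOK h (c i).p (c i).q := by rw [hc]; exact rI
        exact Or.inl (rimOK_sound ci.isMk hr ci.on).1
      by_cases hi1 : i = m - 1
      · have hc := (h1 hi1).2
        have hr : RimOK h (c i).p (c i).q := by rw [hc]; exact rJ
        exact Or.inl (rimOK_sound ci.isMk hr ci.on).1
      · exact botOK_sound ci.isMk (h2 (by omega) (by omega)).1 ci.on)
    (by
      obtain ⟨ci, h0, -⟩ := hcr 0 (by omega)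
      have hr : RimOK h (c 0).p (c 0).q := by rw [(h0 rfl).2]; exact rI
      exact (rimOK_sound ci.isMk hr ci.on).1)
    (by
      obtain ⟨ci, -, h0, -⟩ := hcr (m - 1) (by omega)
      have hr : RimOK h (c (m - 1)).p (c (m - 1)).q := by rw [(h0 rfl).2]; exact rJ
      exact (rimOK_sound ci.isMk hr ci.on).1)
    (by
      obtain ⟨ci, h0, -⟩ := hcr 0 (by omega)
      have hr : RimOK h (c 0).p (c 0).q := by rw [(h0 rfl).2]; exact rI
      exact (rimOK_sound ci.isMk hr ci.on).2)
    (by
      obtain ⟨ci, -, h0, -⟩ := hcr (m - 1) (by omega)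
      have hr : RimOK h (c (m - 1)).p (c (m - 1)).q := by rw [(h0 rfl).2]; exact rJ
      exact (rimOK_sound ci.isMk hr ci.on).2)
    (by
      intro a b hab hb
      rcases cov_sound hC hab hb with ⟨g, hg, h1, h2⟩ | ⟨k, hk, h1, h2⟩ | ⟨d, hdm, h1, h2, h3, h4⟩
      · left
        have hg1 : gItem (nth all g.1) (nth all g.2) = true := hG g hg
        have hi : g.1 < m := by omega
        have h5 := allL_iff.1 hg1 (c g.1) (hcr g.1 hi).1.mem
        obtain ⟨h6, h7⟩ := allN_iff.1 h5
        have hj : g.2 < m := by rw [← hlen]; exact nth_lt h6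
        have h8 := h7 (c g.2) (hcr g.2 hj).1.mem
        refine ⟨g.1, g.2, h1, h2, hj, ?_⟩
        rw [← hdist g.1 g.2 hi hj (by omega)]
        exact g_sound (hcr g.1 hi).1.isMk (hcr g.2 hj).1.isMk (hok_mem _ hi) (hok_mem _ hj) h8
          (hcr g.1 hi).1.on (hcr g.2 hj).1.on
      · right; left
        have hkm : k < m := by omega
        have h5 := allL_iff.1 (hH k hk) (c k) (hcr k hkm).1.mem
        exact ⟨k, h1, h2, h_sound h5 (hcr k hkm).1.on⟩
      · right; right
        obtain ⟨i, k, j⟩ := d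
        simp only at h1 h2 h3 h4
        have hdi : dItem (nth all i) (nth all k) (nth all j) = true := hDD (i, k, j) hdm
        have hi : i < m := by omega
        have hk : k < m := by omega
        have h5 := allL_iff.1 hdi (c k) (hcr k hk).1.mem
        have h6 := allL_iff.1 h5 (c i) (hcr i hi).1.mem
        obtain ⟨h7, h8⟩ := allN_iff.1 h6
        have hj : j < m := by rw [← hlen]; exact nth_lt h7
        have h9 := h8 (c j) (hcr j hj).1.mem
        obtain ⟨ci, -⟩ := hcr i hi
        obtain ⟨ck, -, -, hk3⟩ := hcr k hk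
        obtain ⟨cj, -⟩ := hcr j hj
        have hik := hmono i k (by omega) hk
        have hkj := hmono k j (by omega) hj
        have hij : 0 < s j - s i := by linarith
        have hw : (s k - s i) / (s j - s i) * (s j - s i) = s k - s i := div_mul_cancel₀ _ hij.ne'
        set w := (s k - s i) / (s j - s i) with hwdef
        have hw0 : 0 < w := div_pos (by linarith) hij
        have hw1 : w < 1 := by rw [hwdef, div_lt_one hij]; linarith
        have hres := d_sound ck.isMk h9 ci.on cj.on ck.on hw0 hw1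
          (by rw [ck.hX, ci.hX, cj.hX]; unfold lr; linear_combination (-dx) * hw)
          (by rw [ck.hY, ci.hY, cj.hY]; unfold lr; linear_combination (-dy) * hw)
          (by
            obtain ⟨-, htr⟩ := hk3 (by omega) (by omega)
            intro hz
            apply htr
            rw [ci.hX, ci.hY, cj.hX, cj.hY] at hz
            have : (s j - s i) * (dx * (vy (c k).w - vy (c k).v) - dy * (vx (c k).w - vx (c k).v)) = 0 := by
              linear_combination (-1) * hz
            rcases mul_eq_zero.1 this with h | h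
            · exact absurd h hij.ne'
            · exact h)
        refine ⟨i, k, j, h1, h2, h3, h4, hj, ?_⟩
        have := mul_le_mul_of_nonneg_left hres hij.le
        refine this.trans (le_of_eq ?_)
        unfold lr
        linear_combination (Tc j - Tc i) * hw)
  obtain ⟨ci, -⟩ := hcr i hi
  obtain ⟨mm, h0, h1, hX, hY, hT, hB⟩ := onSub_edge ci.isMk ci.on
  refine ⟨(c i).p, (c i).q, ci.e, s i, mm, h0, h1, ?_, ?_, ?_, ?_⟩
  · rw [← ci.hX]; exact hX
  · rw [← ci.hY]; exact hY
  · rw [haff, ← hB]; exact hb1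
  · rw [haff, ← hT]; exact hb2

end BallBlock
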