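import Pool.Agent.BallBlock.Defs

/-!
There is `i < N` with `cos (ang (i+1)) ≤ c ≤ cos (ang i)` (`cos (ang 0) = cos α`, `cos (ang N) = 0`). Put `ρ = sin (ang (i+1))`; `r² = a²+b² = 1 - c² ≤ ρ²`. From `hout`, `c > 0`,
`w ≤ 0`: `a u + b v ≥ - c w ≥ 0`, so `(a+tu)²+(b+tv)²` is nondecreasing in `t ≥ 0`. `(u,v) ≠ 0`: if `u = v = 0` then `w < 0`, `hout` gives `c w ≥ 0`, contradiction. So there is `t ≥ 0`
with `(a+tu)²+(b+tv)² = ρ²` (IVT or explicit root). For all `t ≥ 0` the point is outside the open unit ball (`hout`). Upper bound: `c + t w ≤ c`. Lower bound: `(c+tw)² ≥ 1 - ρ² = cos²`, so it is enough that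
`c + t w ≥ 0`; if `c + t w < 0`, let `t' ∈ [0,t)` with `c + t' w = 0`: there `(a+t'u)²+(b+t'v)² ≥ 1 ≥ ρ²`, hence `= ρ²` and `ρ = 1`, `cos (ang (i+1)) = 0`; use `t'` instead of `t`.
-/

open Real

namespace BallBlock

/-- discrete intermediate value argument -/
private theorem outerhit_step {P : ℕ → Prop} {N : ℕ} (h0 : P 0) (hN : ¬ P N) :
    ∃ i, i < N ∧ P i ∧ ¬ P (i + 1) := by
  induction N with
  | zero => exact absurd h0 hN
  | succ n ih =>
    by_cases h : P n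
    · exact ⟨n, Nat.lt_succ_self n, h, hN⟩
    · obtain ⟨i, hi, h1, h2⟩ := ih h
      exact ⟨i, Nat.lt_succ_of_lt hi, h1, h2⟩

/-- the geometric part: `q = cos`, `ρ = sin` of the angle of the step -/
private theorem outerhit_ray {a b c u v w q k ρ : ℝ} (hρ : ρ ^ 2 + q ^ 2 = 1) (hq : 0 ≤ q)
    (hqc : q ≤ c) (hck : c ≤ k)
    (hs : a ^ 2 + b ^ 2 + c ^ 2 = 1) (hc : 0 < c)
    (hv : 0 < u ^ 2 + v ^ 2 + w ^ 2) (hw : w ≤ 0) (hout : 0 ≤ a * u + b * v + c * w) :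
    ∃ t : ℝ, 0 ≤ t ∧ (a + t * u) ^ 2 + (b + t * v) ^ 2 = ρ ^ 2 ∧ q ≤ c + t * w ∧
      c + t * w ≤ k := by
  have hB : 0 ≤ a * u + b * v := by nlinarith
  have hA : 0 < u ^ 2 + v ^ 2 := by
    rcases lt_or_eq_of_le (show 0 ≤ u ^ 2 + v ^ 2 by positivity) with h | h
    · exact h
    · exfalso
      have hu : u = 0 := by nlinarith [sq_nonneg u, sq_nonneg v]
      have hv' : v = 0 := by nlinarith [sq_nonneg u, sq_nonneg v]
      subst hu hv'
      have hw' : w < 0 := by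
        rcases lt_or_eq_of_le hw with h2 | h2
        · exact h2
        · subst h2; simp at hv
      nlinarith
  set A : ℝ := u ^ 2 + v ^ 2 with hAdef
  set B : ℝ := a * u + b * v with hBdef
  have hg0 : a ^ 2 + b ^ 2 ≤ ρ ^ 2 := by nlinarith
  -- the root
  obtain ⟨t, ht0, ht⟩ : ∃ t : ℝ, 0 ≤ t ∧ (a + t * u) ^ 2 + (b + t * v) ^ 2 = ρ ^ 2 := by
    have hD : B ^ 2 ≤ B ^ 2 + A * (ρ ^ 2 - (a ^ 2 + b ^ 2)) := by
      have := mul_nonneg hA.le (sub_nonneg.2 hg0)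
      linarith
    set s : ℝ := Real.sqrt (B ^ 2 + A * (ρ ^ 2 - (a ^ 2 + b ^ 2))) with hsdef
    have hs2 : s ^ 2 = B ^ 2 + A * (ρ ^ 2 - (a ^ 2 + b ^ 2)) :=
      Real.sq_sqrt (le_trans (sq_nonneg B) hD)
    have hsB : B ≤ s := Real.le_sqrt_of_sq_le hD
    refine ⟨(s - B) / A, div_nonneg (sub_nonneg.2 hsB) hA.le, ?_⟩
    set t : ℝ := (s - B) / A with htdef
    have hAt : A * t = s - B := by rw [htdef, mul_div_cancel₀ _ hA.ne']
    have h1 : A * ((a + t * u) ^ 2 + (b + t * v) ^ 2) = A * ρ ^ 2 := by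
      have h2 : A * ((a + t * u) ^ 2 + (b + t * v) ^ 2) =
          (A * t) ^ 2 + 2 * B * (A * t) + A * (a ^ 2 + b ^ 2) := by
        rw [hAdef, hBdef]; ring
      rw [h2, hAt]
      have h3 : (s - B) ^ 2 + 2 * B * (s - B) + A * (a ^ 2 + b ^ 2) =
          s ^ 2 - B ^ 2 + A * (a ^ 2 + b ^ 2) := by ring
      rw [h3, hs2]
      ring
    exact mul_left_cancel₀ hA.ne' h1
  -- outside the ball
  have hball : ∀ t : ℝ, 0 ≤ t →
      1 ≤ (a + t * u) ^ 2 + (b + t * v) ^ 2 + (c + t * w) ^ 2 := by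
    intro t ht
    have h1 : (a + t * u) ^ 2 + (b + t * v) ^ 2 + (c + t * w) ^ 2 =
        (a ^ 2 + b ^ 2 + c ^ 2) + 2 * (t * (B + c * w)) + t ^ 2 * (u ^ 2 + v ^ 2 + w ^ 2) := by
      rw [hBdef]; ring
    rw [h1, hs]
    have h2 : 0 ≤ t * (B + c * w) := mul_nonneg ht hout
    have h3 : 0 ≤ t ^ 2 * (u ^ 2 + v ^ 2 + w ^ 2) := mul_nonneg (sq_nonneg t) hv.le
    linarith
  have htop : ∀ t : ℝ, 0 ≤ t → c + t * w ≤ k := by
    intro t ht
    have : t * w ≤ 0 := mul_nonpos_of_nonneg_of_nonpos ht hw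
    linarith
  rcases le_or_gt 0 (c + t * w) with h | h
  · refine ⟨t, ht0, ht, ?_, htop t ht0⟩
    have h1 := hball t ht0
    rw [ht] at h1
    nlinarith
  · have hw' : w < 0 := by
      rcases lt_or_eq_of_le hw with h2 | h2
      · exact h2
      · rw [h2] at h; simp at h; linarith
    have ht'0 : 0 ≤ c / (-w) := div_nonneg hc.le (by linarith)
    set t' : ℝ := c / (-w) with ht'def
    have ht'w : c + t' * w = 0 := by
      rw [ht'def, div_neg, neg_mul, div_mul_cancel₀ _ hw'.ne]; ring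
    have htt : t' < t := by nlinarith
    have h1 := hball t' ht'0
    rw [ht'w] at h1
    have h2 : (a + t' * u) ^ 2 + (b + t' * v) ^ 2 ≤ (a + t * u) ^ 2 + (b + t * v) ^ 2 := by
      have h3 : (a + t * u) ^ 2 + (b + t * v) ^ 2 - ((a + t' * u) ^ 2 + (b + t' * v) ^ 2) =
          (t - t') * (A * (t + t') + 2 * B) := by
        rw [hAdef, hBdef]; ring
      have h4 : 0 ≤ (t - t') * (A * (t + t') + 2 * B) := by
        apply mul_nonneg (by linarith)
        have := mul_nonneg hA.le (add_nonneg ht0 ht'0)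
        linarith
      linarith
    rw [ht] at h2
    have hq0 : q = 0 := by nlinarith
    refine ⟨t', ht'0, ?_, ?_, htop t' ht'0⟩
    · nlinarith
    · rw [ht'w, hq0]

/-- `(a,b,c)` is on the sphere with `0 < c ≤ cos α`, the direction `(u,v,w)` points out of the ball and
does not go up. Then the ray meets the outer staircase. -/
theorem outer_hit {α : ℝ} (h0 : 0 < α) (h1 : α < π / 2) {N : ℕ} (hN : 0 < N) {a b c u v w : ℝ}
    (hs : a ^ 2 + b ^ 2 + c ^ 2 = 1) (hc : 0 < c) (hcα : c ≤ cos α)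
    (hv : 0 < u ^ 2 + v ^ 2 + w ^ 2) (hw : w ≤ 0) (hout : 0 ≤ a * u + b * v + c * w) :
    ∃ t : ℝ, 0 ≤ t ∧ ∃ i : Fin N,
      (a + t * u) ^ 2 + (b + t * v) ^ 2 = sin (ang α N (i + 1)) ^ 2 ∧
      cos (ang α N (i + 1)) ≤ c + t * w ∧ c + t * w ≤ cos (ang α N i) := by
  have hN' : (0 : ℝ) < N := Nat.cast_pos.2 hN
  have ha0 : ang α N 0 = α := by simp [ang]
  have haN : ang α N N = π / 2 := by
    rw [ang, mul_div_cancel₀ _ hN'.ne']; ring
  have hstep : ∃ i, i < N ∧ c ≤ cos (ang α N i) ∧ ¬ c ≤ cos (ang α N (i + 1)) := by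
    apply outerhit_step (P := fun i => c ≤ cos (ang α N i))
    · rw [ha0]; exact hcα
    · rw [haN, cos_pi_div_two]; exact not_le.2 hc
  obtain ⟨i, hi, hi1, hi2⟩ := hstep
  have hd : 0 ≤ (π / 2 - α) / N := div_nonneg (by linarith) hN'.le
  have hang0 : 0 ≤ ang α N (i + 1) := by
    rw [ang]; positivity
  have hang1 : ang α N (i + 1) ≤ π / 2 := by
    rw [← haN, ang, ang]
    have h2 : ((i + 1 : ℕ) : ℝ) ≤ N := Nat.cast_le.2 hi
    have := mul_le_mul_of_nonneg_right h2 hd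
    linarith
  have hq : 0 ≤ cos (ang α N (i + 1)) :=
    cos_nonneg_of_neg_pi_div_two_le_of_le (by linarith [Real.pi_pos]) hang1
  obtain ⟨t, ht0, h3, h4, h5⟩ := outerhit_ray (sin_sq_add_cos_sq (ang α N (i + 1))) hq
    (not_le.1 hi2).le hi1 hs hc hv hw hout
  exact ⟨t, ht0, ⟨i, hi⟩, h3, h4, h5⟩

end BallBlock
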