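import Pool.Agent.BallBlock.Defs

/-!
With `h = (π/2-α)/N`, `φ_i = ang α N i`: `cos φ_i - cos φ_{i+1} ≤ h sin φ_{i+1}` (mean value, sin increasing on `[0, π/2]`), and with `A φ = (φ - sin φ cos φ)/2` (derivative `sin²`):
`h sin² φ_i ≤ A φ_{i+1} - A φ_i`. So each term is `≤ 2π h sin² φ_{i+1} ≤ 2π (A φ_{i+1} - A φ_i) + 2π h (sin² φ_{i+1} - sin² φ_i)`; telescoping gives
`2π (A (π/2) - A α) + 2π h` and `2π (A(π/2) - A α) = π (π/2 - α + sin α cos α)`, `h ≤ (π/2)/N`.
`mouth_ineq`: the derivative of `α - sin α cos α - 2/3 sin³ α` is `2 sin² α (1 - cos α) ≥ 0`, and the value at 0 is 0.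
-/

open Real

namespace BallBlock

private noncomputable def outersumA (x : ℝ) : ℝ := (x - sin x * cos x) / 2

private theorem outersumA_deriv (x : ℝ) : HasDerivAt outersumA (sin x ^ 2) x := by
  have h1 : HasDerivAt (fun y : ℝ => (y - sin y * cos y) / 2)
      ((1 - (cos x * cos x + sin x * (-sin x))) / 2) x :=
    ((hasDerivAt_id x).sub ((hasDerivAt_sin x).mul (hasDerivAt_cos x))).div_const 2
  have h2 : (1 - (cos x * cos x + sin x * (-sin x))) / 2 = sin x ^ 2 := by
    have := sin_sq_add_cos_sq x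
    linarith
  rw [h2] at h1
  exact h1

private theorem outersum_step {φ ψ : ℝ} (h0 : 0 ≤ φ) (h : φ ≤ ψ) (h1 : ψ ≤ π / 2) :
    (ψ - φ) * sin φ ^ 2 ≤ outersumA ψ - outersumA φ := by
  have hc : ContinuousOn outersumA (Set.Icc φ ψ) :=
    fun x _ => (outersumA_deriv x).continuousAt.continuousWithinAt
  have hd : DifferentiableOn ℝ outersumA (interior (Set.Icc φ ψ)) :=
    fun x _ => (outersumA_deriv x).differentiableAt.differentiableWithinAt
  have := Convex.mul_sub_le_image_sub_of_le_deriv (convex_Icc φ ψ) hc hd (C := sin φ ^ 2) (by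
    intro x hx
    rw [(outersumA_deriv x).deriv]
    rw [interior_Icc] at hx
    have hpi := Real.pi_pos
    have h2 : sin φ ≤ sin x := sin_le_sin_of_le_of_le_pi_div_two (by linarith) (by linarith [hx.2]) hx.1.le
    have h3 : 0 ≤ sin φ := sin_nonneg_of_nonneg_of_le_pi h0 (by linarith)
    exact pow_le_pow_left₀ h3 h2 2) φ (Set.left_mem_Icc.2 h) ψ (Set.right_mem_Icc.2 h) h
  linarith

private theorem outersum_cos {φ ψ : ℝ} (h0 : 0 ≤ φ) (h : φ ≤ ψ) (h1 : ψ ≤ π / 2) :
    cos φ - cos ψ ≤ (ψ - φ) * sin ψ := by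
  have hpi := Real.pi_pos
  have h2 : cos φ - cos ψ = 2 * (sin ((ψ + φ) / 2) * sin ((ψ - φ) / 2)) := by
    rw [cos_sub_cos]
    have : (φ - ψ) / 2 = -((ψ - φ) / 2) := by ring
    rw [this, sin_neg, add_comm φ ψ]
    ring
  have h3 : sin ((ψ + φ) / 2) ≤ sin ψ :=
    sin_le_sin_of_le_of_le_pi_div_two (by linarith) h1 (by linarith)
  have h4 : sin ((ψ - φ) / 2) ≤ (ψ - φ) / 2 := sin_le (by linarith)
  have h5 : 0 ≤ sin ((ψ - φ) / 2) := sin_nonneg_of_nonneg_of_le_pi (by linarith) (by linarith)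
  have h6 : 0 ≤ sin ψ := sin_nonneg_of_nonneg_of_le_pi (by linarith) (by linarith)
  rw [h2]
  have h7 : sin ((ψ + φ) / 2) * sin ((ψ - φ) / 2) ≤ sin ψ * ((ψ - φ) / 2) :=
    mul_le_mul h3 h4 h5 h6
  linarith

theorem outer_sum {α : ℝ} (h0 : 0 < α) (h1 : α < π / 2) {N : ℕ} (hN : 0 < N) :
    ∑ i : Fin N, 2 * π * sin (ang α N (i + 1)) * (cos (ang α N i) - cos (ang α N (i + 1))) ≤
      π * (π / 2 - α + sin α * cos α) + 2 * π * ((π / 2) / N) := by
  have hpi := Real.pi_pos
  have hN' : (0 : ℝ) < N := by exact_mod_cast hN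
  set h : ℝ := (π / 2 - α) / N with hh
  have hh0 : 0 ≤ h := div_nonneg (by linarith) hN'.le
  have hstep : ∀ i : ℕ, ang α N (i + 1) - ang α N i = h := by
    intro i
    unfold ang
    push_cast
    rw [← hh]
    ring
  have hA0 : ang α N 0 = α := by unfold ang; simp
  have hAN : ang α N N = π / 2 := by
    unfold ang
    field_simp
    ring
  have hge : ∀ i : ℕ, 0 ≤ ang α N i := by
    intro i
    unfold ang
    rw [← hh]
    positivity
  have hle : ∀ i : ℕ, i ≤ N → ang α N i ≤ π / 2 := by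
    intro i hi
    rw [← hAN]
    unfold ang
    rw [← hh]
    have : (i : ℝ) ≤ N := by exact_mod_cast hi
    gcongr
  rw [Fin.sum_univ_eq_sum_range (fun i : ℕ => 2 * π * sin (ang α N (i + 1)) *
    (cos (ang α N i) - cos (ang α N (i + 1)))) N]
  have hterm : ∀ i ∈ Finset.range N, 2 * π * sin (ang α N (i + 1)) *
      (cos (ang α N i) - cos (ang α N (i + 1))) ≤
      (2 * π * outersumA (ang α N (i + 1)) - 2 * π * outersumA (ang α N i)) +
      (2 * π * h * sin (ang α N (i + 1)) ^ 2 - 2 * π * h * sin (ang α N i) ^ 2) := by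
    intro i hi
    have hi' : i + 1 ≤ N := Finset.mem_range.1 hi
    have hs := hstep i
    have g1 := outersum_step (hge i) (by linarith : ang α N i ≤ ang α N (i + 1)) (hle _ hi')
    have g2 := outersum_cos (hge i) (by linarith : ang α N i ≤ ang α N (i + 1)) (hle _ hi')
    rw [hs] at g1 g2
    have g3 : 0 ≤ sin (ang α N (i + 1)) :=
      sin_nonneg_of_nonneg_of_le_pi (hge _) (by linarith [hle _ hi'])
    have g4 : 2 * π * sin (ang α N (i + 1)) * (cos (ang α N i) - cos (ang α N (i + 1))) ≤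
        2 * π * sin (ang α N (i + 1)) * (h * sin (ang α N (i + 1))) :=
      mul_le_mul_of_nonneg_left g2 (by positivity)
    have g5 : 2 * π * (h * sin (ang α N i) ^ 2) ≤ 2 * π * (outersumA (ang α N (i + 1)) - outersumA (ang α N i)) :=
      mul_le_mul_of_nonneg_left g1 (by positivity)
    nlinarith
  refine (Finset.sum_le_sum hterm).trans ?_
  rw [Finset.sum_add_distrib, Finset.sum_range_sub (fun i => 2 * π * outersumA (ang α N i)),
    Finset.sum_range_sub (fun i => 2 * π * h * sin (ang α N i) ^ 2), hA0, hAN]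
  have e1 : outersumA (π / 2) = π / 4 := by
    unfold outersumA
    rw [cos_pi_div_two]
    ring
  rw [e1, sin_pi_div_two]
  unfold outersumA
  have e2 : h ≤ (π / 2) / N := by
    rw [hh]
    exact div_le_div_of_nonneg_right (by linarith) hN'.le
  have e3 : 0 ≤ 2 * π * h * sin α ^ 2 := by positivity
  have e4 : 2 * π * h ≤ 2 * π * ((π / 2) / N) := mul_le_mul_of_nonneg_left e2 (by positivity)
  nlinarith

theorem mouth_ineq {α : ℝ} (h0 : 0 ≤ α) (h1 : α ≤ π / 2) :
    2 / 3 * sin α ^ 3 ≤ α - sin α * cos α := by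
  have hd : ∀ x : ℝ, HasDerivAt (fun y : ℝ => y - sin y * cos y - 2 / 3 * sin y ^ 3)
      (1 - (cos x * cos x + sin x * (-sin x)) - 2 / 3 * (3 * sin x ^ 2 * cos x)) x := by
    intro x
    have e1 := ((hasDerivAt_id x).sub ((hasDerivAt_sin x).mul (hasDerivAt_cos x)))
    have e2 : HasDerivAt (fun y : ℝ => 2 / 3 * sin y ^ 3) (2 / 3 * (3 * sin x ^ 2 * cos x)) x := by
      have := ((hasDerivAt_sin x).pow 3).const_mul (2 / 3 : ℝ)
      simpa using this
    exact e1.sub e2
  have hm : Monotone (fun y : ℝ => y - sin y * cos y - 2 / 3 * sin y ^ 3) := by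
    apply monotone_of_deriv_nonneg (fun x => (hd x).differentiableAt)
    intro x
    rw [(hd x).deriv]
    have e3 := sin_sq_add_cos_sq x
    have e4 := cos_le_one x
    have e5 : 0 ≤ 2 * sin x ^ 2 * (1 - cos x) := mul_nonneg (by positivity) (by linarith)
    nlinarith
  have := hm h0
  simp only [sin_zero, zero_mul, sub_zero] at this
  norm_num at this
  linarith

end BallBlock
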