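import Pool.Agent.BallBlock.SurfUnion

/-!
Two half cylinders: `F (x, y) = (R cos (π (x + k)), R sin (π (x + k)), a + (b-a) y)`, `k = 0, 1`. Injective on the square since `cos` is injective on
`[0, π]` (and `[π, 2π]`), derivative injective (its columns are `π R (-sin, cos, 0)` and `(0, 0, b-a)`). Use `HasFDerivAt` of the explicit map; a convenient way:
to prove injectivity of `fderiv` it is enough that `fderiv F p v = 0 → v = 0`, and `fderiv F p v` is the derivative of `t ↦ F (p + t v)` at 0 (`HasFDerivAt.comp_hasDerivAt`), computed in coordinates.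
-/

open MeasureTheory Set Real

namespace BallBlock

private noncomputable def surfcylF (R a b k : ℝ) (p : E2) : E3 :=
  WithLp.toLp 2 ![R * cos (π * (p 0 + k)), R * sin (π * (p 0 + k)), a + (b - a) * p 1]

private theorem surfcylF_0 (R a b k : ℝ) (p : E2) : surfcylF R a b k p 0 = R * cos (π * (p 0 + k)) := rfl
private theorem surfcylF_1 (R a b k : ℝ) (p : E2) : surfcylF R a b k p 1 = R * sin (π * (p 0 + k)) := rfl
private theorem surfcylF_2 (R a b k : ℝ) (p : E2) : surfcylF R a b k p 2 = a + (b - a) * p 1 := rfl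

private theorem surfcylF_contDiff (R a b k : ℝ) : ContDiff ℝ 1 (surfcylF R a b k) := by
  have h0 : ContDiff ℝ 1 (fun p : E2 => p 0) := (EuclideanSpace.proj (0 : Fin 2) : E2 →L[ℝ] ℝ).contDiff
  have h1 : ContDiff ℝ 1 (fun p : E2 => p 1) := (EuclideanSpace.proj (1 : Fin 2) : E2 →L[ℝ] ℝ).contDiff
  rw [contDiff_euclidean]
  intro i
  fin_cases i
  · exact contDiff_const.mul (Real.contDiff_cos.comp (contDiff_const.mul (h0.add contDiff_const)))
  · exact contDiff_const.mul (Real.contDiff_sin.comp (contDiff_const.mul (h0.add contDiff_const)))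
  · exact contDiff_const.add (contDiff_const.mul h1)

private theorem surfcyl_deriv {F : E2 → E3} (hF : ContDiff ℝ 1 F) (p v : E2) (i : Fin 3) :
    HasDerivAt (fun t : ℝ => F (p + t • v) i) ((fderiv ℝ F p v) i) 0 := by
  have h1 : HasFDerivAt F (fderiv ℝ F p) p := ((hF.differentiable one_ne_zero) p).hasFDerivAt
  have h2 : HasDerivAt (fun t : ℝ => p + t • v) v 0 := by
    have := ((hasDerivAt_id (0 : ℝ)).smul_const v).const_add p
    simpa using this
  have h3 : HasFDerivAt F (fderiv ℝ F p) (p + (0 : ℝ) • v) := by simpa using h1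
  have h4 := h3.comp_hasDerivAt (0 : ℝ) h2
  have h5 := (EuclideanSpace.proj i : E3 →L[ℝ] ℝ).hasFDerivAt.comp_hasDerivAt (0 : ℝ) h4
  exact h5

private theorem surfcylF_patch {R a b : ℝ} (hR : 0 < R) (hab : a < b) (k : ℝ) (hk : k = 0 ∨ k = 1) :
    IsPatch (surfcylF R a b k '' square) := by
  refine ⟨surfcylF R a b k, surfcylF_contDiff R a b k, ?_, ?_, rfl⟩
  · intro p hp q hq h
    have h0 : R * cos (π * (p 0 + k)) = R * cos (π * (q 0 + k)) := congrArg (fun z : E3 => z 0) h
    have h2 : a + (b - a) * p 1 = a + (b - a) * q 1 := congrArg (fun z : E3 => z 2) h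
    have h3 : p 1 = q 1 := by
      have : (b - a) * p 1 = (b - a) * q 1 := by linarith
      exact mul_left_cancel₀ (sub_pos.2 hab).ne' this
    have h4 : cos (π * p 0) = cos (π * q 0) := by
      have h5 := mul_left_cancel₀ hR.ne' h0
      rcases hk with rfl | rfl
      · simpa using h5
      · rw [mul_add, mul_add, mul_one, cos_add_pi, cos_add_pi] at h5
        linarith
    have hpi := Real.pi_pos
    have hp0 : π * p 0 ∈ Icc 0 π := ⟨mul_nonneg hpi.le hp.1.1, by nlinarith [hp.1.2]⟩
    have hq0 : π * q 0 ∈ Icc 0 π := ⟨mul_nonneg hpi.le hq.1.1, by nlinarith [hq.1.2]⟩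
    have h6 := Real.injOn_cos hp0 hq0 h4
    have h7 : p 0 = q 0 := mul_left_cancel₀ hpi.ne' h6
    ext i
    fin_cases i
    · exact h7
    · exact h3
  · intro p _
    rw [injective_iff_map_eq_zero]
    intro v hv
    have hd := surfcyl_deriv (surfcylF_contDiff R a b k) p v
    rw [hv] at hd
    have d0 := hd 0
    have d1 := hd 1
    have d2 := hd 2
    have hlin : HasDerivAt (fun t : ℝ => π * ((p 0 + t * v 0) + k)) (π * v 0) 0 := by
      have h1 : HasDerivAt (fun t : ℝ => t * v 0) (v 0) 0 := by
        simpa using (hasDerivAt_id (0 : ℝ)).mul_const (v 0)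
      exact ((h1.const_add (p 0)).add_const k).const_mul π
    have e0 : HasDerivAt (fun t : ℝ => surfcylF R a b k (p + t • v) 0)
        (R * (-sin (π * ((p 0 + 0 * v 0) + k)) * (π * v 0))) 0 := hlin.cos.const_mul R
    have e1 : HasDerivAt (fun t : ℝ => surfcylF R a b k (p + t • v) 1)
        (R * (cos (π * ((p 0 + 0 * v 0) + k)) * (π * v 0))) 0 := hlin.sin.const_mul R
    have e2 : HasDerivAt (fun t : ℝ => surfcylF R a b k (p + t • v) 2) ((b - a) * v 1) 0 := by
      have h1 : HasDerivAt (fun t : ℝ => t * v 1) (v 1) 0 := by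
        simpa using (hasDerivAt_id (0 : ℝ)).mul_const (v 1)
      exact ((h1.const_add (p 1)).const_mul (b - a)).const_add a
    have f0 : R * (-sin (π * ((p 0 + 0 * v 0) + k)) * (π * v 0)) = 0 := e0.unique d0
    have f1 : R * (cos (π * ((p 0 + 0 * v 0) + k)) * (π * v 0)) = 0 := e1.unique d1
    have f2 : (b - a) * v 1 = 0 := e2.unique d2
    have hv1 : v 1 = 0 := (mul_eq_zero.1 f2).resolve_left (sub_pos.2 hab).ne'
    have hv0 : v 0 = 0 := by
      set θ := π * ((p 0 + 0 * v 0) + k)
      have g0 : sin θ * (π * v 0) = 0 := by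
        have := (mul_eq_zero.1 f0).resolve_left hR.ne'
        linarith
      have g1 : cos θ * (π * v 0) = 0 := (mul_eq_zero.1 f1).resolve_left hR.ne'
      have g2 : π * v 0 = 0 := by
        calc π * v 0 = (sin θ ^ 2 + cos θ ^ 2) * (π * v 0) := by rw [sin_sq_add_cos_sq, one_mul]
          _ = sin θ * (sin θ * (π * v 0)) + cos θ * (cos θ * (π * v 0)) := by ring
          _ = 0 := by rw [g0, g1]; ring
      exact (mul_eq_zero.1 g2).resolve_left Real.pi_pos.ne'
    ext i
    fin_cases i
    · exact hv0
    · exact hv1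

theorem surf_cyl {R a b : ℝ} (hR : 0 < R) (hab : a < b) : IsSurface (cyl R a b) := by
  refine ⟨2, fun i => surfcylF R a b ((i : ℕ) : ℝ) '' square, ?_, ?_⟩
  · intro i
    apply surfcylF_patch hR hab
    fin_cases i
    · left; simp
    · right; simp
  · have hpi := Real.pi_pos
    have hba : 0 < b - a := sub_pos.2 hab
    ext q
    simp only [mem_iUnion, mem_image]
    constructor
    · rintro ⟨h1, h2, h3⟩
      have hq2 : (q 0 / R) ^ 2 ≤ 1 := by
        rw [div_pow, div_le_one (by positivity)]
        nlinarith [sq_nonneg (q 1)]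
      have habs : |q 0 / R| ≤ 1 := (sq_le_one_iff_abs_le_one _).1 hq2
      have hl := (abs_le.1 habs).1
      have hu := (abs_le.1 habs).2
      have hy1 : (q 2 - a) / (b - a) ∈ Icc (0 : ℝ) 1 :=
        ⟨div_nonneg (by linarith) hba.le, by rw [div_le_one hba]; linarith⟩
      have hz : a + (b - a) * ((q 2 - a) / (b - a)) = q 2 := by
        field_simp
        ring
      have hRR : q 1 ^ 2 = R ^ 2 * (1 - (q 0 / R) ^ 2) := by
        field_simp
        linarith
      rcases le_total 0 (q 1) with hy | hy
      · refine ⟨0, WithLp.toLp 2 ![arccos (q 0 / R) / π, (q 2 - a) / (b - a)], ⟨⟨?_, ?_⟩, ?_, ?_⟩, ?_⟩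
        · exact div_nonneg (arccos_nonneg _) hpi.le
        · exact (div_le_one hpi).2 (arccos_le_pi _)
        · exact hy1.1
        · exact hy1.2
        · have harg : π * (arccos (q 0 / R) / π + 0) = arccos (q 0 / R) := by field_simp; ring
          ext i
          fin_cases i
          · change R * cos (π * (arccos (q 0 / R) / π + (((0 : Fin 2) : ℕ) : ℝ))) = q 0
            simp only [Fin.val_zero, Nat.cast_zero]
            rw [harg, cos_arccos hl hu]
            field_simp
          · change R * sin (π * (arccos (q 0 / R) / π + (((0 : Fin 2) : ℕ) : ℝ))) = q 1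
            simp only [Fin.val_zero, Nat.cast_zero]
            rw [harg, sin_arccos, ← Real.sqrt_sq hy, hRR, Real.sqrt_mul (by positivity),
              Real.sqrt_sq hR.le]
          · exact hz
      · refine ⟨1, WithLp.toLp 2 ![arccos (-(q 0 / R)) / π, (q 2 - a) / (b - a)], ⟨⟨?_, ?_⟩, ?_, ?_⟩, ?_⟩
        · exact div_nonneg (arccos_nonneg _) hpi.le
        · exact (div_le_one hpi).2 (arccos_le_pi _)
        · exact hy1.1
        · exact hy1.2
        · have harg : π * (arccos (-(q 0 / R)) / π + 1) = arccos (-(q 0 / R)) + π := by field_simp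
          ext i
          fin_cases i
          · change R * cos (π * (arccos (-(q 0 / R)) / π + (((1 : Fin 2) : ℕ) : ℝ))) = q 0
            simp only [Fin.val_one, Nat.cast_one]
            rw [harg, cos_add_pi, cos_arccos (by linarith) (by linarith)]
            field_simp
          · change R * sin (π * (arccos (-(q 0 / R)) / π + (((1 : Fin 2) : ℕ) : ℝ))) = q 1
            simp only [Fin.val_one, Nat.cast_one]
            rw [harg, sin_add_pi, sin_arccos, neg_sq]
            have h5 : R * √(1 - (q 0 / R) ^ 2) = -q 1 := by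
              rw [← Real.sqrt_sq (neg_nonneg.2 hy), neg_sq, hRR, Real.sqrt_mul (by positivity),
                Real.sqrt_sq hR.le]
            linarith
          · exact hz
    · rintro ⟨i, p, hp, rfl⟩
      refine ⟨?_, ?_, ?_⟩
      · rw [surfcylF_0, surfcylF_1]
        calc _ = R ^ 2 * (sin (π * (p 0 + ((i : ℕ) : ℝ))) ^ 2 + cos (π * (p 0 + ((i : ℕ) : ℝ))) ^ 2) := by ring
          _ = R ^ 2 := by rw [sin_sq_add_cos_sq, mul_one]
      · rw [surfcylF_2]
        have := mul_nonneg hba.le hp.2.1
        linarith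
      · rw [surfcylF_2]
        have := mul_le_mul_of_nonneg_left hp.2.2 hba.le
        linarith

end BallBlock
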