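import Pool.Agent.BallBlock.SurfUnion

/-!
Five patches: central projections of the bottom face and the lower halves of the four side faces of the cube: `G / ‖G‖` with
`G (x,y) = (2x-1, 2y-1, -1)`; `(1, 2x-1, -y)`, `(-1, 2x-1, -y)`, `(2x-1, 1, -y)`, `(2x-1, -1, -y)`. `G` never vanishes, so the map is `ContDiff` on the whole plane. A general
lemma: if `G` is affine injective with `G p` not in the span of the range of the linear part (here one coordinate of `G` is the constant `±1`), then `G / ‖G‖` is injective and has injective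
derivative: if two normalised vectors agree then `G p = c G q` with `c > 0` and the constant coordinate gives `c = 1`; for the derivative: `D(G/‖G‖) v = 0` means
`DG v` is a multiple of `G p`, whose constant coordinate is nonzero while that of `DG v` is `0`, so `DG v = 0`, `v = 0`. Every point of the lower hemisphere is in one of the five images
(largest coordinate in absolute value).
-/

open MeasureTheory Set Real

namespace BallBlock

private noncomputable def surfhemiG (c a b : E3) (p : E2) : E3 := c + (p 0 • a + p 1 • b)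

private noncomputable def surfhemiF (c a b : E3) (p : E2) : E3 :=
  ‖surfhemiG c a b p‖⁻¹ • surfhemiG c a b p

private noncomputable def surfhemiL (a b : E3) : E2 →L[ℝ] E3 :=
  (EuclideanSpace.proj (0 : Fin 2) : E2 →L[ℝ] ℝ).smulRight a +
    (EuclideanSpace.proj (1 : Fin 2) : E2 →L[ℝ] ℝ).smulRight b

private theorem surfhemiG_eq (c a b : E3) (p : E2) : surfhemiG c a b p = c + surfhemiL a b p := rfl

private theorem surfhemi_patch (c a b : E3) (k : Fin 3) (ha : a k = 0) (hb : b k = 0)
    (hc : c k ≠ 0) (hab : ∀ s t : ℝ, s • a + t • b = 0 → s = 0 ∧ t = 0) :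
    IsPatch (surfhemiF c a b '' square) := by
  have hk : ∀ p, surfhemiG c a b p k = c k := by
    intro p
    unfold surfhemiG
    simp [ha, hb]
  have hne : ∀ p, surfhemiG c a b p ≠ 0 := by
    intro p h
    apply hc
    rw [← hk p, h]
    rfl
  have hn0 : ∀ p, ‖surfhemiG c a b p‖ ≠ 0 := fun p => norm_ne_zero_iff.2 (hne p)
  have hG : ContDiff ℝ 1 (surfhemiG c a b) := by
    have : surfhemiG c a b = fun p => c + surfhemiL a b p := funext (surfhemiG_eq c a b)
    rw [this]
    exact contDiff_const.add (surfhemiL a b).contDiff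
  have hr : ContDiff ℝ 1 (fun p => ‖surfhemiG c a b p‖⁻¹) := (hG.norm ℝ hne).inv hn0
  have hLinj : ∀ v, surfhemiL a b v = 0 → v = 0 := by
    intro v hv
    obtain ⟨h0, h1⟩ := hab (v 0) (v 1) hv
    ext i
    fin_cases i
    · exact h0
    · exact h1
  refine ⟨surfhemiF c a b, hr.smul hG, ?_, ?_, rfl⟩
  · intro p _ q _ hpq
    have h1 : ‖surfhemiG c a b p‖⁻¹ * c k = ‖surfhemiG c a b q‖⁻¹ * c k := by
      have h2 := congrArg (fun z : E3 => z k) hpq
      simp only [surfhemiF, PiLp.smul_apply, smul_eq_mul, hk] at h2
      exact h2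
    have h3 : ‖surfhemiG c a b p‖⁻¹ = ‖surfhemiG c a b q‖⁻¹ := mul_right_cancel₀ hc h1
    have h4 : surfhemiG c a b p = surfhemiG c a b q := by
      unfold surfhemiF at hpq
      rw [h3] at hpq
      exact smul_right_injective _ (inv_ne_zero (hn0 q)) hpq
    rw [surfhemiG_eq, surfhemiG_eq] at h4
    have h5 : surfhemiL a b (p - q) = 0 := by
      rw [map_sub, sub_eq_zero]
      exact add_left_cancel h4
    exact sub_eq_zero.1 (hLinj _ h5)
  · intro p _
    have hGd : HasFDerivAt (surfhemiG c a b) (surfhemiL a b) p := by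
      have : surfhemiG c a b = fun p => c + surfhemiL a b p := funext (surfhemiG_eq c a b)
      rw [this]
      exact (surfhemiL a b).hasFDerivAt.const_add c
    have hrd : HasFDerivAt (fun p => ‖surfhemiG c a b p‖⁻¹)
        (fderiv ℝ (fun p => ‖surfhemiG c a b p‖⁻¹) p) p :=
      (hr.differentiable one_ne_zero p).hasFDerivAt
    have hF := hrd.smul hGd
    have hF' : fderiv ℝ (surfhemiF c a b) p = _ := hF.fderiv
    rw [hF', injective_iff_map_eq_zero]
    intro v hv
    have h1 : ‖surfhemiG c a b p‖⁻¹ • surfhemiL a b v +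
        (fderiv ℝ (fun p => ‖surfhemiG c a b p‖⁻¹) p v) • surfhemiG c a b p = 0 := hv
    have hLk : surfhemiL a b v k = 0 := by
      have : surfhemiL a b v = v 0 • a + v 1 • b := rfl
      rw [this]
      simp [ha, hb]
    have h2 : (fderiv ℝ (fun p => ‖surfhemiG c a b p‖⁻¹) p v) = 0 := by
      have h3 := congrArg (fun z : E3 => z k) h1
      simp only [PiLp.add_apply, PiLp.smul_apply, smul_eq_mul, hLk, mul_zero, zero_add, hk,
        PiLp.zero_apply] at h3
      exact (mul_eq_zero.1 h3).resolve_right hc
    rw [h2, zero_smul, add_zero] at h1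
    exact hLinj v ((smul_eq_zero.1 h1).resolve_left (inv_ne_zero (hn0 p)))

private theorem surfhemi_norm (p : E3) : ‖p‖ ^ 2 = p 0 ^ 2 + p 1 ^ 2 + p 2 ^ 2 := by
  rw [EuclideanSpace.norm_sq_eq, Fin.sum_univ_three]
  simp only [Real.norm_eq_abs, sq_abs]

/-- points of the image lie in the lower hemisphere -/
private theorem surfhemi_sub (c a b : E3) (hne : ∀ p : E2, surfhemiG c a b p ≠ 0)
    (h2 : ∀ p ∈ square, surfhemiG c a b p 2 ≤ 0) : surfhemiF c a b '' square ⊆ hemi := by
  rintro _ ⟨p, hp, rfl⟩
  have hn := norm_pos_iff.2 (hne p)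
  constructor
  · rw [← surfhemi_norm]
    unfold surfhemiF
    rw [norm_smul, norm_inv, norm_norm, inv_mul_cancel₀ hn.ne', one_pow]
  · unfold surfhemiF
    rw [PiLp.smul_apply, smul_eq_mul]
    exact mul_nonpos_of_nonneg_of_nonpos (inv_nonneg.2 hn.le) (h2 p hp)

/-- a point of the hemisphere is in the image if a positive multiple is a value of `G` -/
private theorem surfhemi_mem (c a b : E3) (q : E3) (hq : ‖q‖ = 1) (s : ℝ) (hs : 0 < s) (p : E2)
    (hp : p ∈ square) (h : surfhemiG c a b p = s • q) : q ∈ surfhemiF c a b '' square := by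
  refine ⟨p, hp, ?_⟩
  unfold surfhemiF
  rw [h, norm_smul, hq, mul_one, Real.norm_eq_abs, abs_of_pos hs, smul_smul,
    inv_mul_cancel₀ hs.ne', one_smul]

private noncomputable def surfhemiV (x y z : ℝ) : E3 := WithLp.toLp 2 ![x, y, z]

private theorem surfhemiV0 (x y z : ℝ) : surfhemiV x y z 0 = x := rfl
private theorem surfhemiV1 (x y z : ℝ) : surfhemiV x y z 1 = y := rfl
private theorem surfhemiV2 (x y z : ℝ) : surfhemiV x y z 2 = z := rfl

private noncomputable def surfhemiU (x y : ℝ) : E2 := WithLp.toLp 2 ![x, y]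

private theorem surfhemiU0 (x y : ℝ) : surfhemiU x y 0 = x := rfl
private theorem surfhemiU1 (x y : ℝ) : surfhemiU x y 1 = y := rfl

private theorem surfhemiG_apply (c a b : E3) (p : E2) (i : Fin 3) :
    surfhemiG c a b p i = c i + (p 0 * a i + p 1 * b i) := rfl

private theorem surfhemi_square (x y : ℝ) (hx : 0 ≤ x) (hx1 : x ≤ 1) (hy : 0 ≤ y) (hy1 : y ≤ 1) :
    surfhemiU x y ∈ square := ⟨⟨hx, hx1⟩, hy, hy1⟩

/-- one of the patches, with all properties -/
private theorem surfhemi_one (c a b : E3) (k : Fin 3) (ha : a k = 0) (hb : b k = 0)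
    (hc : c k ≠ 0) (hab : ∀ s t : ℝ, s • a + t • b = 0 → s = 0 ∧ t = 0)
    (h2 : ∀ p ∈ square, surfhemiG c a b p 2 ≤ 0) :
    IsSurface (surfhemiF c a b '' square) ∧ surfhemiF c a b '' square ⊆ hemi := by
  refine ⟨(surfhemi_patch c a b k ha hb hc hab).isSurface, surfhemi_sub c a b ?_ h2⟩
  intro p h
  apply hc
  have : surfhemiG c a b p k = c k := by rw [surfhemiG_apply, ha, hb]; ring
  rw [← this, h]
  rfl

theorem surf_hemi : IsSurface hemi := by
  -- bottom face
  obtain ⟨s0, i0⟩ := surfhemi_one (surfhemiV (-1) (-1) (-1)) (surfhemiV 2 0 0) (surfhemiV 0 2 0) 2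
    rfl rfl (by rw [surfhemiV2]; norm_num)
    (fun s t h => by
      have e0 := congrArg (fun z : E3 => z 0) h
      have e1 := congrArg (fun z : E3 => z 1) h
      simp only [PiLp.add_apply, PiLp.smul_apply, smul_eq_mul, surfhemiV0, surfhemiV1,
        PiLp.zero_apply] at e0 e1
      constructor <;> linarith)
    (fun p _ => by
      rw [surfhemiG_apply, surfhemiV2, surfhemiV2, surfhemiV2]; norm_num)
  -- side faces
  obtain ⟨s1, i1⟩ := surfhemi_one (surfhemiV 1 (-1) 0) (surfhemiV 0 2 0) (surfhemiV 0 0 (-1)) 0
    rfl rfl (by rw [surfhemiV0]; norm_num)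
    (fun s t h => by
      have e1 := congrArg (fun z : E3 => z 1) h
      have e2 := congrArg (fun z : E3 => z 2) h
      simp only [PiLp.add_apply, PiLp.smul_apply, smul_eq_mul, surfhemiV1, surfhemiV2,
        PiLp.zero_apply] at e1 e2
      constructor <;> linarith)
    (fun p hp => by
      rw [surfhemiG_apply, surfhemiV2, surfhemiV2, surfhemiV2]; linarith [hp.2.1])
  obtain ⟨s2, i2⟩ := surfhemi_one (surfhemiV (-1) (-1) 0) (surfhemiV 0 2 0) (surfhemiV 0 0 (-1)) 0
    rfl rfl (by rw [surfhemiV0]; norm_num)
    (fun s t h => by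
      have e1 := congrArg (fun z : E3 => z 1) h
      have e2 := congrArg (fun z : E3 => z 2) h
      simp only [PiLp.add_apply, PiLp.smul_apply, smul_eq_mul, surfhemiV1, surfhemiV2,
        PiLp.zero_apply] at e1 e2
      constructor <;> linarith)
    (fun p hp => by
      rw [surfhemiG_apply, surfhemiV2, surfhemiV2, surfhemiV2]; linarith [hp.2.1])
  obtain ⟨s3, i3⟩ := surfhemi_one (surfhemiV (-1) 1 0) (surfhemiV 2 0 0) (surfhemiV 0 0 (-1)) 1
    rfl rfl (by rw [surfhemiV1]; norm_num)
    (fun s t h => by
      have e1 := congrArg (fun z : E3 => z 0) h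
      have e2 := congrArg (fun z : E3 => z 2) h
      simp only [PiLp.add_apply, PiLp.smul_apply, smul_eq_mul, surfhemiV0, surfhemiV2,
        PiLp.zero_apply] at e1 e2
      constructor <;> linarith)
    (fun p hp => by
      rw [surfhemiG_apply, surfhemiV2, surfhemiV2, surfhemiV2]; linarith [hp.2.1])
  obtain ⟨s4, i4⟩ := surfhemi_one (surfhemiV (-1) (-1) 0) (surfhemiV 2 0 0) (surfhemiV 0 0 (-1)) 1
    rfl rfl (by rw [surfhemiV1]; norm_num)
    (fun s t h => by
      have e1 := congrArg (fun z : E3 => z 0) h
      have e2 := congrArg (fun z : E3 => z 2) h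
      simp only [PiLp.add_apply, PiLp.smul_apply, smul_eq_mul, surfhemiV0, surfhemiV2,
        PiLp.zero_apply] at e1 e2
      constructor <;> linarith)
    (fun p hp => by
      rw [surfhemiG_apply, surfhemiV2, surfhemiV2, surfhemiV2]; linarith [hp.2.1])
  have key : hemi = ((surfhemiF (surfhemiV (-1) (-1) (-1)) (surfhemiV 2 0 0) (surfhemiV 0 2 0) ''
      square ∪ surfhemiF (surfhemiV 1 (-1) 0) (surfhemiV 0 2 0) (surfhemiV 0 0 (-1)) '' square) ∪
      (surfhemiF (surfhemiV (-1) (-1) 0) (surfhemiV 0 2 0) (surfhemiV 0 0 (-1)) '' square ∪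
      surfhemiF (surfhemiV (-1) 1 0) (surfhemiV 2 0 0) (surfhemiV 0 0 (-1)) '' square)) ∪
      surfhemiF (surfhemiV (-1) (-1) 0) (surfhemiV 2 0 0) (surfhemiV 0 0 (-1)) '' square := by
    apply Set.Subset.antisymm
    · intro q hq
      obtain ⟨hq1, hq2⟩ := hq
      have hqn : ‖q‖ = 1 := by
        have h := surfhemi_norm q
        rw [hq1] at h
        exact (pow_eq_one_iff_of_nonneg (norm_nonneg q) two_ne_zero).1 h
      obtain ⟨x, hx⟩ : ∃ x, x = q 0 := ⟨_, rfl⟩
      obtain ⟨y, hy⟩ : ∃ y, y = q 1 := ⟨_, rfl⟩
      obtain ⟨z, hz⟩ : ∃ z, z = q 2 := ⟨_, rfl⟩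
      rw [← hx, ← hy, ← hz] at hq1
      rw [← hz] at hq2
      by_cases hA : |x| ≤ -z ∧ |y| ≤ -z
      · -- bottom
        obtain ⟨hA1, hA2⟩ := hA
        have hz0 : 0 < -z := by
          rcases lt_or_eq_of_le ((abs_nonneg x).trans hA1) with h | h
          · exact h
          · exfalso
            rw [← h] at hA1 hA2
            have e1 := abs_eq_zero.1 (le_antisymm hA1 (abs_nonneg _))
            have e2 := abs_eq_zero.1 (le_antisymm hA2 (abs_nonneg _))
            have e3 : z = 0 := by linarith
            rw [e1, e2, e3] at hq1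
            norm_num at hq1
        left; left; left
        obtain ⟨b1, b2⟩ := abs_le.1 hA1
        obtain ⟨b3, b4⟩ := abs_le.1 hA2
        refine surfhemi_mem _ _ _ q hqn (-z)⁻¹ (inv_pos.2 hz0)
          (surfhemiU ((x * (-z)⁻¹ + 1) / 2) ((y * (-z)⁻¹ + 1) / 2)) ?_ ?_
        · have c1 : -1 ≤ x * (-z)⁻¹ := by
            rw [← div_eq_mul_inv, le_div_iff₀ hz0]; linarith
          have c2 : x * (-z)⁻¹ ≤ 1 := by
            rw [← div_eq_mul_inv, div_le_iff₀ hz0]; linarith
          have c3 : -1 ≤ y * (-z)⁻¹ := by
            rw [← div_eq_mul_inv, le_div_iff₀ hz0]; linarith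
          have c4 : y * (-z)⁻¹ ≤ 1 := by
            rw [← div_eq_mul_inv, div_le_iff₀ hz0]; linarith
          exact surfhemi_square _ _ (by linarith) (by linarith) (by linarith) (by linarith)
        · ext i
          rw [surfhemiG_apply, PiLp.smul_apply, smul_eq_mul, surfhemiU0, surfhemiU1]
          fin_cases i
          · simp only [Fin.zero_eta, surfhemiV0, ← hx]; ring
          · simp only [Fin.mk_one, surfhemiV1, ← hy]; ring
          · simp only [Fin.reduceFinMk, surfhemiV2, ← hz]
            have : (-z)⁻¹ * z = -1 := by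
              have hz' : z ≠ 0 := by linarith
              rw [inv_neg, neg_mul, inv_mul_cancel₀ hz']
            linarith
      · -- sides
        have hside : (|y| ≤ |x| ∧ -z ≤ |x|) ∨ (|x| ≤ |y| ∧ -z ≤ |y|) := by
          rw [not_and_or, not_le, not_le] at hA
          rcases le_total (|y|) (|x|) with h | h
          · left
            refine ⟨h, ?_⟩
            rcases hA with h' | h'
            · exact h'.le
            · exact h'.le.trans h
          · right
            refine ⟨h, ?_⟩
            rcases hA with h' | h'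
            · exact h'.le.trans h
            · exact h'.le
        rcases hside with ⟨h1, h2⟩ | ⟨h1, h2⟩
        · have hx0 : 0 < |x| := by
            rcases lt_or_eq_of_le (abs_nonneg x) with h | h
            · exact h
            · exfalso
              rw [← h] at h1 h2
              have e1 := abs_eq_zero.1 h.symm
              have e2 := abs_eq_zero.1 (le_antisymm h1 (abs_nonneg _))
              have e3 : z = 0 := by linarith
              rw [e1, e2, e3] at hq1
              norm_num at hq1
          obtain ⟨b3, b4⟩ := abs_le.1 h1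
          have c3 : -1 ≤ y * |x|⁻¹ := by
            rw [← div_eq_mul_inv, le_div_iff₀ hx0]; linarith
          have c4 : y * |x|⁻¹ ≤ 1 := by
            rw [← div_eq_mul_inv, div_le_iff₀ hx0]; linarith
          have c5 : 0 ≤ -z * |x|⁻¹ := mul_nonneg (by linarith) (inv_nonneg.2 hx0.le)
          have c6 : -z * |x|⁻¹ ≤ 1 := by
            rw [← div_eq_mul_inv, div_le_iff₀ hx0]; linarith
          have hsq := surfhemi_square ((y * |x|⁻¹ + 1) / 2) (-z * |x|⁻¹)
            (by linarith) (by linarith) c5 c6
          rcases abs_cases x with ⟨hx1, hx2⟩ | ⟨hx1, hx2⟩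
          · left; left; right
            refine surfhemi_mem _ _ _ q hqn |x|⁻¹ (inv_pos.2 hx0) _ hsq ?_
            ext i
            rw [surfhemiG_apply, PiLp.smul_apply, smul_eq_mul, surfhemiU0, surfhemiU1]
            fin_cases i
            · simp only [Fin.zero_eta, surfhemiV0, ← hx]
              have : |x|⁻¹ * x = 1 := by
                rw [hx1]; exact inv_mul_cancel₀ (by linarith)
              linarith
            · simp only [Fin.mk_one, surfhemiV1, ← hy]; ring
            · simp only [Fin.reduceFinMk, surfhemiV2, ← hz]; ring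
          · left; right; left
            refine surfhemi_mem _ _ _ q hqn |x|⁻¹ (inv_pos.2 hx0) _ hsq ?_
            ext i
            rw [surfhemiG_apply, PiLp.smul_apply, smul_eq_mul, surfhemiU0, surfhemiU1]
            fin_cases i
            · simp only [Fin.zero_eta, surfhemiV0, ← hx]
              have : |x|⁻¹ * x = -1 := by
                rw [hx1, inv_neg, neg_mul, inv_mul_cancel₀ (by linarith)]
              linarith
            · simp only [Fin.mk_one, surfhemiV1, ← hy]; ring
            · simp only [Fin.reduceFinMk, surfhemiV2, ← hz]; ring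
        · have hy0 : 0 < |y| := by
            rcases lt_or_eq_of_le (abs_nonneg y) with h | h
            · exact h
            · exfalso
              rw [← h] at h1 h2
              have e1 := abs_eq_zero.1 h.symm
              have e2 := abs_eq_zero.1 (le_antisymm h1 (abs_nonneg _))
              have e3 : z = 0 := by linarith
              rw [e1, e2, e3] at hq1
              norm_num at hq1
          obtain ⟨b3, b4⟩ := abs_le.1 h1
          have c3 : -1 ≤ x * |y|⁻¹ := by
            rw [← div_eq_mul_inv, le_div_iff₀ hy0]; linarith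
          have c4 : x * |y|⁻¹ ≤ 1 := by
            rw [← div_eq_mul_inv, div_le_iff₀ hy0]; linarith
          have c5 : 0 ≤ -z * |y|⁻¹ := mul_nonneg (by linarith) (inv_nonneg.2 hy0.le)
          have c6 : -z * |y|⁻¹ ≤ 1 := by
            rw [← div_eq_mul_inv, div_le_iff₀ hy0]; linarith
          have hsq := surfhemi_square ((x * |y|⁻¹ + 1) / 2) (-z * |y|⁻¹)
            (by linarith) (by linarith) c5 c6
          rcases abs_cases y with ⟨hx1, hx2⟩ | ⟨hx1, hx2⟩
          · left; right; right
            refine surfhemi_mem _ _ _ q hqn |y|⁻¹ (inv_pos.2 hy0) _ hsq ?_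
            ext i
            rw [surfhemiG_apply, PiLp.smul_apply, smul_eq_mul, surfhemiU0, surfhemiU1]
            fin_cases i
            · simp only [Fin.zero_eta, surfhemiV0, ← hx]; ring
            · simp only [Fin.mk_one, surfhemiV1, ← hy]
              have : |y|⁻¹ * y = 1 := by
                rw [hx1]; exact inv_mul_cancel₀ (by linarith)
              linarith
            · simp only [Fin.reduceFinMk, surfhemiV2, ← hz]; ring
          · right
            refine surfhemi_mem _ _ _ q hqn |y|⁻¹ (inv_pos.2 hy0) _ hsq ?_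
            ext i
            rw [surfhemiG_apply, PiLp.smul_apply, smul_eq_mul, surfhemiU0, surfhemiU1]
            fin_cases i
            · simp only [Fin.zero_eta, surfhemiV0, ← hx]; ring
            · simp only [Fin.mk_one, surfhemiV1, ← hy]
              have : |y|⁻¹ * y = -1 := by
                rw [hx1, inv_neg, neg_mul, inv_mul_cancel₀ (by linarith)]
              linarith
            · simp only [Fin.reduceFinMk, surfhemiV2, ← hz]; ring
    · exact Set.union_subset (Set.union_subset (Set.union_subset i0 i1)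
        (Set.union_subset i2 i3)) i4
  rw [key]
  exact ((s0.union s1).union (s2.union s3)).union s4

end BallBlock
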