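import Pool.Agent.BallBlock.SurfUnion

/-!
One patch: `F (l, v) = (lr x0 x1 l, lr y0 y1 l, (1-v) lr b0 b1 l + v lr t0 t1 l)` (polynomial map). On the square the height `lr t0 t1 l - lr b0 b1 l` is positive.
-/

open MeasureTheory Set Real

namespace BallBlock

private theorem surfwall_lr (a b l : ℝ) : HasDerivAt (lr a b) (b - a) l := by
  have h : lr a b = fun l => a + (b - a) * l := by
    funext l
    unfold lr
    ring
  rw [h]
  have h1 := ((hasDerivAt_id l).const_mul (b - a)).const_add a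
  simpa using h1

private theorem surfwall_proj (i : Fin 2) (p : E2) :
    HasFDerivAt (fun x : E2 => x i) (EuclideanSpace.proj i : E2 →L[ℝ] ℝ) p :=
  (EuclideanSpace.proj i : E2 →L[ℝ] ℝ).hasFDerivAt

private theorem surfwall_c0 (a b : ℝ) (p : E2) :
    HasFDerivAt (fun x : E2 => lr a b (x 0)) ((b - a) • (EuclideanSpace.proj 0 : E2 →L[ℝ] ℝ)) p := by
  have h := (surfwall_lr a b (p 0)).comp_hasFDerivAt p (surfwall_proj 0 p)
  exact h

private theorem surfwall_c2 (b0 b1 t0 t1 : ℝ) (p : E2) :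
    HasFDerivAt (fun x : E2 => (1 - x 1) * lr b0 b1 (x 0) + x 1 * lr t0 t1 (x 0))
      (((1 - p 1) * (b1 - b0) + p 1 * (t1 - t0)) • (EuclideanSpace.proj 0 : E2 →L[ℝ] ℝ) +
        (lr t0 t1 (p 0) - lr b0 b1 (p 0)) • (EuclideanSpace.proj 1 : E2 →L[ℝ] ℝ)) p := by
  have h1 := surfwall_proj 1 p
  have h2 := surfwall_c0 b0 b1 p
  have h3 := surfwall_c0 t0 t1 p
  have h4 := ((h1.const_sub 1).mul h2).add (h1.mul h3)
  refine h4.congr_fderiv ?_
  ext v
  simp
  ring

private noncomputable def surfwall_F (x0 y0 x1 y1 b0 b1 t0 t1 : ℝ) (p : E2) : E3 :=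
  !₂[lr x0 x1 (p 0), lr y0 y1 (p 0), (1 - p 1) * lr b0 b1 (p 0) + p 1 * lr t0 t1 (p 0)]

theorem surf_wall {x0 y0 x1 y1 b0 b1 t0 t1 : ℝ} (hne : 0 < (x1 - x0) ^ 2 + (y1 - y0) ^ 2)
    (h0 : b0 < t0) (h1 : b1 < t1) : IsSurface (wallSet x0 y0 x1 y1 b0 b1 t0 t1) := by
  apply IsPatch.isSurface
  set F := surfwall_F x0 y0 x1 y1 b0 b1 t0 t1 with hF
  have f0 : ∀ p, F p 0 = lr x0 x1 (p 0) := fun p => rfl
  have f1 : ∀ p, F p 1 = lr y0 y1 (p 0) := fun p => rfl
  have f2 : ∀ p, F p 2 = (1 - p 1) * lr b0 b1 (p 0) + p 1 * lr t0 t1 (p 0) := fun p => rfl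
  have hpos : ∀ l : ℝ, 0 ≤ l → l ≤ 1 → 0 < lr t0 t1 l - lr b0 b1 l := by
    intro l hl0 hl1
    have e : lr t0 t1 l - lr b0 b1 l = (1 - l) * (t0 - b0) + l * (t1 - b1) := by
      unfold lr; ring
    rw [e]
    rcases hl0.eq_or_lt with h | h
    · rw [← h]; linarith
    · have a1 : 0 ≤ (1 - l) * (t0 - b0) := mul_nonneg (by linarith) (by linarith)
      have a2 : 0 < l * (t1 - b1) := mul_pos h (by linarith)
      linarith
  have hdir : ∀ s : ℝ, (x1 - x0) * s = 0 → (y1 - y0) * s = 0 → s = 0 := by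
    intro s e1 e2
    have e3 : ((x1 - x0) ^ 2 + (y1 - y0) ^ 2) * s = 0 := by
      calc ((x1 - x0) ^ 2 + (y1 - y0) ^ 2) * s
          = (x1 - x0) * ((x1 - x0) * s) + (y1 - y0) * ((y1 - y0) * s) := by ring
        _ = 0 := by rw [e1, e2]; ring
    rcases mul_eq_zero.mp e3 with h | h
    · exact absurd h hne.ne'
    · exact h
  refine ⟨F, ?_, ?_, ?_, ?_⟩
  · -- C¹
    rw [contDiff_euclidean]
    have p0 : ContDiff ℝ 1 (fun x : E2 => x 0) := (EuclideanSpace.proj 0 : E2 →L[ℝ] ℝ).contDiff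
    have p1 : ContDiff ℝ 1 (fun x : E2 => x 1) := (EuclideanSpace.proj 1 : E2 →L[ℝ] ℝ).contDiff
    intro i
    fin_cases i
    · show ContDiff ℝ 1 (fun p : E2 => lr x0 x1 (p 0))
      unfold lr
      fun_prop
    · show ContDiff ℝ 1 (fun p : E2 => lr y0 y1 (p 0))
      unfold lr
      fun_prop
    · show ContDiff ℝ 1 (fun p : E2 => (1 - p 1) * lr b0 b1 (p 0) + p 1 * lr t0 t1 (p 0))
      unfold lr
      fun_prop
  · -- injective
    intro p hp q hq hpq
    have g0 := congrArg (fun z : E3 => z 0) hpq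
    have g1 := congrArg (fun z : E3 => z 1) hpq
    have g2 := congrArg (fun z : E3 => z 2) hpq
    simp only [f0, f1, f2] at g0 g1 g2
    have e0 : p 0 - q 0 = 0 := by
      apply hdir
      · unfold lr at g0; linarith
      · unfold lr at g1; linarith
    have e0' : p 0 = q 0 := by linarith
    rw [e0'] at g2
    have hh := hpos (q 0) hq.1.1 hq.1.2
    have e1 : (p 1 - q 1) * (lr t0 t1 (q 0) - lr b0 b1 (q 0)) = 0 := by linarith
    have e1' : p 1 = q 1 := by
      rcases mul_eq_zero.mp e1 with h | h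
      · linarith
      · exact absurd h hh.ne'
    ext i
    fin_cases i
    · exact e0'
    · exact e1'
  · -- the derivative
    intro p hp
    have hD0 := surfwall_c0 x0 x1 p
    have hD1 := surfwall_c0 y0 y1 p
    have hD2 := surfwall_c2 b0 b1 t0 t1 p
    have hcd : DifferentiableAt ℝ F p := by
      rw [differentiableAt_euclidean]
      intro i
      fin_cases i
      · exact hD0.differentiableAt
      · exact hD1.differentiableAt
      · exact hD2.differentiableAt
    have hcoord : ∀ (i : Fin 3) (G : E2 →L[ℝ] ℝ), HasFDerivAt (fun x => F x i) G p →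
        ∀ v, fderiv ℝ F p v i = G v := by
      intro i G hG v
      have h3 : HasFDerivAt (fun x => F x i)
          ((EuclideanSpace.proj i : E3 →L[ℝ] ℝ).comp (fderiv ℝ F p)) p :=
        (EuclideanSpace.proj i : E3 →L[ℝ] ℝ).hasFDerivAt.comp p hcd.hasFDerivAt
      have h4 := h3.unique hG
      rw [← h4]
      rfl
    have k0 := hcoord 0 _ hD0
    have k1 := hcoord 1 _ hD1
    have k2 := hcoord 2 _ hD2
    rw [injective_iff_map_eq_zero]
    intro v hv
    have m0 := k0 v
    have m1 := k1 v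
    have m2 := k2 v
    rw [hv] at m0 m1 m2
    simp at m0 m1 m2
    have n0 : v 0 = 0 := by
      apply hdir
      · rcases m0 with h | h
        · rw [h, zero_mul]
        · rw [h, mul_zero]
      · rcases m1 with h | h
        · rw [h, zero_mul]
        · rw [h, mul_zero]
    have hh := hpos (p 0) hp.1.1 hp.1.2
    rw [n0, mul_zero, zero_add] at m2
    have n1 : v 1 = 0 := by
      rcases mul_eq_zero.mp m2.symm with h | h
      · exact absurd h hh.ne'
      · exact h
    ext i
    fin_cases i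
    · exact n0
    · exact n1
  · -- the image
    ext q
    constructor
    · rintro ⟨l, hl0, hl1, e0, e1, e2, e3⟩
      have hh := hpos l hl0 hl1
      set v := (q 2 - lr b0 b1 l) / (lr t0 t1 l - lr b0 b1 l) with hv
      refine ⟨!₂[l, v], ⟨⟨hl0, hl1⟩, ?_, ?_⟩, ?_⟩
      · show 0 ≤ v
        exact div_nonneg (by linarith) hh.le
      · show v ≤ 1
        rw [hv, div_le_one hh]
        linarith
      · ext i
        fin_cases i
        · exact e0.symm
        · exact e1.symm
        · show (1 - v) * lr b0 b1 l + v * lr t0 t1 l = q 2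
          have : v * (lr t0 t1 l - lr b0 b1 l) = q 2 - lr b0 b1 l := by
            rw [hv, div_mul_cancel₀ _ hh.ne']
          linarith
    · rintro ⟨p, hp, rfl⟩
      have hh := hpos (p 0) hp.1.1 hp.1.2
      have hp2 := hp.2.1
      have hp3 := hp.2.2
      refine ⟨p 0, hp.1.1, hp.1.2, f0 p, f1 p, ?_, ?_⟩
      · rw [f2]
        nlinarith
      · rw [f2]
        nlinarith

end BallBlock
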