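import Pool.Agent.BallBlock.Plan2
import Pool.Agent.BallBlock.Rec

/-!
The total area. In units of the nodes the length of an edge is `256 √L2`, and its area is
`256 √L2 * 32768 * H / 2` with `H = (t_p - u_p) + (t_q - u_q)`. We bound `√L2 ≤ k / 1024`.
-/

open Real

namespace BallBlock

open K

/-- squared length of an edge times `2 ^ 20` -/
private def l2 (x : Nd × Nd) : Nat := 1048576 * d2 x.1.a x.1.b x.2.a x.2.b

/-- upper approximation of the square root (Newton steps) -/
private def rt (n : Nat) : Nat := Nat.rec (motive := fun _ => Nat) 4194304 (fun _ x => Nat.div (Nat.add x (Nat.div n x)) 2) 40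

private def kk (x : Nd × Nd) : Nat := rt (l2 x) + 1

private def hgt (x : Nd × Nd) : Nat := (x.1.t - x.1.u) + (x.2.t - x.2.u)

private def okB (x : Nd × Nd) : Bool :=
  Nat.ble (l2 x) (kk x * kk x) && (Nat.ble x.1.u x.1.t && Nat.ble x.2.u x.2.t)

private theorem all_okB : walls.all okB = true := by decide +kernel

private def tot (l : List (Nd × Nd)) : Nat := l.foldr (fun x s => kk x * hgt x + s) 0

private theorem tot_le : Nat.ble (10000 * tot walls) (20806 * 2 ^ 54) = true := by decide +kernel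

private theorem tot_le' : 10000 * tot walls ≤ 20806 * 2 ^ 54 := by
  have h := tot_le
  revert h
  generalize tot walls = t
  intro h
  exact (Nat.ble_eq (x := 10000 * t) (y := 20806 * 2 ^ 54)).mp h

private theorem ad_cast (x y : Nat) : ((ad x y : Nat) : ℝ) ^ 2 = ((x : ℝ) - y) ^ 2 := by
  have e : ad x y = (x - y) + (y - x) := rfl
  rw [e]
  rcases le_total x y with h | h
  · rw [Nat.sub_eq_zero_of_le h, zero_add, Nat.cast_sub h]; ring
  · rw [Nat.sub_eq_zero_of_le h, add_zero, Nat.cast_sub h]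

private theorem d2_cast (a b a' b' : Nat) : ((d2 a b a' b' : Nat) : ℝ) = ((a : ℝ) - a') ^ 2 + 3 * ((b : ℝ) - b') ^ 2 := by
  have e : d2 a b a' b' = ad a a' * ad a a' + 3 * (ad b b' * ad b b') := rfl
  rw [e]
  push_cast
  have h1 := ad_cast a a'
  have h2 := ad_cast b b'
  rw [← h1, ← h2]; ring

private theorem len_le {x : Nd × Nd} (h : okB x = true) : len x.1 x.2 ≤ (kk x : ℝ) / 4 := by
  unfold okB at h
  rw [Bool.and_eq_true] at h
  have h1 : l2 x ≤ kk x * kk x := Nat.le_of_ble_eq_true h.1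
  have h2 : ((l2 x : Nat) : ℝ) ≤ (kk x : ℝ) * kk x := by exact_mod_cast h1
  unfold l2 at h2
  rw [Nat.cast_mul, d2_cast] at h2
  unfold len
  apply Real.sqrt_le_iff.2
  refine ⟨by positivity, ?_⟩
  have e : (nx x.2 - nx x.1) ^ 2 + (ny x.2 - ny x.1) ^ 2 =
      65536 * (((x.1.a : ℝ) - x.2.a) ^ 2 + 3 * ((x.1.b : ℝ) - x.2.b) ^ 2) := by
    have : ny x.2 - ny x.1 = √3 * (((x.2.b : ℝ) - x.1.b) * 256) := by unfold ny; ring
    rw [this, mul_pow, Real.sq_sqrt (by norm_num)]
    unfold nx; ring
  rw [e]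
  push_cast at h2
  nlinarith

private theorem warea_le {x : Nd × Nd} (h : okB x = true) : warea x ≤ 4096 * ((kk x * hgt x : Nat) : ℝ) := by
  have hl := len_le h
  unfold okB at h
  simp only [Bool.and_eq_true] at h
  have h1 : x.1.u ≤ x.1.t := Nat.le_of_ble_eq_true h.2.1
  have h2 : x.2.u ≤ x.2.t := Nat.le_of_ble_eq_true h.2.2
  have e : (nT x.1 - nB x.1) + (nT x.2 - nB x.2) = 32768 * ((hgt x : Nat) : ℝ) := by
    unfold hgt nT nB
    rw [Nat.cast_add, Nat.cast_sub h1, Nat.cast_sub h2]
    ring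
  unfold warea
  rw [e, Nat.cast_mul]
  have h3 : (0 : ℝ) ≤ ((hgt x : Nat) : ℝ) := Nat.cast_nonneg _
  nlinarith [mul_le_mul_of_nonneg_right hl h3]

private theorem sum_le (l : List (Nd × Nd)) (h : ∀ x ∈ l, okB x = true) :
    (l.map warea).sum ≤ 4096 * ((tot l : Nat) : ℝ) := by
  induction l with
  | nil => simp [tot]
  | cons x l ih =>
    have h1 := warea_le (h x (by simp))
    have h2 := ih (fun y hy => h y (by simp [hy]))
    have e : tot (x :: l) = kk x * hgt x + tot l := rfl
    rw [e, List.map_cons, List.sum_cons, Nat.cast_add]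
    linarith

theorem walls_area : (walls.map warea).sum ≤ 2.0806 * RR ^ 3 := by
  have h1 := sum_le walls (fun x hx => List.all_eq_true.1 all_okB x hx)
  have h2 := tot_le'
  have h3 : (10000 : ℝ) * ((tot walls : Nat) : ℝ) ≤ 20806 * 2 ^ 54 := by exact_mod_cast h2
  revert h1 h3
  generalize ((tot walls : Nat) : ℝ) = t
  intro h1 h3
  refine h1.trans ?_
  unfold RR
  norm_num
  norm_num at h3
  linarith

end BallBlock
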