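import Pool.Agent.BallBlock.Inner
import Pool.Agent.BallBlock.WallsArea
import Pool.Agent.BallBlock.AreaCyl
import Pool.Agent.BallBlock.AreaHemi
import Pool.Agent.BallBlock.AreaWall
import Pool.Agent.BallBlock.AreaUnion
import Pool.Agent.BallBlock.SurfCyl
import Pool.Agent.BallBlock.SurfHemi
import Pool.Agent.BallBlock.SurfWall
import Pool.Agent.BallBlock.Chord
import Pool.Agent.BallBlock.OuterHit
import Pool.Agent.BallBlock.OuterSum
import Pool.Agent.BallBlock.Reduce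

/-! assembly -/

open Real MeasureTheory Set

namespace BallBlock

open K

/-- the wall over an edge in space, `κ` = scale -/
noncomputable def physWall (κ : ℝ) (w : Nd × Nd) : Set E3 :=
  wallSet (κ * nx w.1) (κ * ny w.1) (κ * nx w.2) (κ * ny w.2) (1 + κ ^ 2 * nB w.1) (1 + κ ^ 2 * nB w.2)
    (1 + κ ^ 2 * nT w.1) (1 + κ ^ 2 * nT w.2)

/-- the whole surface -/
noncomputable def whole (α κ : ℝ) (N : ℕ) : Set E3 := (hemi ∪ outer α N) ∪ ⋃ w ∈ walls, physWall κ w

theorem hit_swap {p q : Nd} {X Y z : ℝ} (h : Hit p q X Y z) : Hit q p X Y z := by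
  obtain ⟨l, h0, h1, hX, hY, hB, hT⟩ := h
  refine ⟨1 - l, by linarith, by linarith, ?_, ?_, ?_, ?_⟩
  · rw [hX]; unfold lr; ring
  · rw [hY]; unfold lr; ring
  · refine le_trans (le_of_eq ?_) hB; unfold lr; ring
  · refine le_trans hT (le_of_eq ?_); unfold lr; ring

theorem hit_phys {κ : ℝ} (hκ : 0 < κ) {w : Nd × Nd} {X Y z : ℝ} (h : Hit w.1 w.2 X Y z) {P : E3}
    (h0 : P 0 = κ * X) (h1 : P 1 = κ * Y) (h2 : P 2 = 1 + κ ^ 2 * z) : P ∈ physWall κ w := by
  obtain ⟨l, hl0, hl1, hX, hY, hB, hT⟩ := h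
  refine ⟨l, hl0, hl1, ?_, ?_, ?_, ?_⟩
  · rw [h0, hX]; unfold lr; ring
  · rw [h1, hY]; unfold lr; ring
  · rw [h2]
    have : lr (1 + κ ^ 2 * nB w.1) (1 + κ ^ 2 * nB w.2) l = 1 + κ ^ 2 * lr (nB w.1) (nB w.2) l := by
      unfold lr; ring
    rw [this]
    nlinarith [mul_le_mul_of_nonneg_left hB (sq_nonneg κ)]
  · rw [h2]
    have : lr (1 + κ ^ 2 * nT w.1) (1 + κ ^ 2 * nT w.2) l = 1 + κ ^ 2 * lr (nT w.1) (nT w.2) l := by
      unfold lr; ring
    rw [this]
    nlinarith [mul_le_mul_of_nonneg_left hT (sq_nonneg κ)]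

theorem norm_one_iff (x : E3) : ‖x‖ = 1 ↔ x 0 ^ 2 + x 1 ^ 2 + x 2 ^ 2 = 1 := by
  rw [EuclideanSpace.norm_eq, Fin.sum_univ_three]
  simp only [Real.norm_eq_abs, sq_abs]
  constructor
  · intro h
    have := congrArg (· ^ 2) h
    simp only [one_pow] at this
    rwa [Real.sq_sqrt (by positivity)] at this
  · intro h
    rw [h]; simp

theorem outer_mem {α : ℝ} {N : ℕ} {P : E3} {i : Fin N} (h0 : P 0 ^ 2 + P 1 ^ 2 = sin (ang α N (i + 1)) ^ 2)
    (h1 : cos (ang α N (i + 1)) ≤ P 2) (h2 : P 2 ≤ cos (ang α N i)) : P ∈ outer α N := by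
  refine mem_iUnion.2 ⟨i, h0, h1, h2⟩

theorem whole_blocking {ε α κ : ℝ} (hε : 0 < ε) (hε1 : ε ≤ 1 / 10) (hα0 : 0 < α) (hα1 : α < π / 2)
    (hsin : sin α = ε * (1 - 2 * ε)) (hκ : κ = ε / RR) {N : ℕ} (hN : 0 < N) : IsBlocking (whole α κ N) := by
  have hRR : (0 : ℝ) < RR := by unfold RR; norm_num
  have hκ0 : 0 < κ := by rw [hκ]; positivity
  intro p v hv ht
  obtain ⟨t, ht⟩ := ht
  rw [norm_one_iff] at ht
  simp only [PiLp.add_apply, PiLp.smul_apply, smul_eq_mul] at ht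
  have hv' : 0 < v 0 ^ 2 + v 1 ^ 2 + v 2 ^ 2 := by
    by_contra hcon
    apply hv
    have h0 : v 0 = 0 := by nlinarith [sq_nonneg (v 0), sq_nonneg (v 1), sq_nonneg (v 2)]
    have h1 : v 1 = 0 := by nlinarith [sq_nonneg (v 0), sq_nonneg (v 1), sq_nonneg (v 2)]
    have h2 : v 2 = 0 := by nlinarith [sq_nonneg (v 0), sq_nonneg (v 1), sq_nonneg (v 2)]
    ext i
    fin_cases i
    · simpa using h0
    · simpa using h1
    · simpa using h2
  obtain ⟨s1, s2, h12, hs1, hs2, ho1, ho2⟩ := chord hv' ht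
  have hhemi : ∀ s : ℝ, (p 0 + s * v 0) ^ 2 + (p 1 + s * v 1) ^ 2 + (p 2 + s * v 2) ^ 2 = 1 →
      p 2 + s * v 2 ≤ 0 → ∃ t : ℝ, p + t • v ∈ whole α κ N := by
    intro s hs hz
    refine ⟨s, Or.inl (Or.inl ⟨?_, ?_⟩)⟩
    · simpa only [PiLp.add_apply, PiLp.smul_apply, smul_eq_mul] using hs
    · simpa only [PiLp.add_apply, PiLp.smul_apply, smul_eq_mul] using hz
  by_cases hz1 : p 2 + s1 * v 2 ≤ 0
  · exact hhemi s1 hs1 hz1
  by_cases hz2 : p 2 + s2 * v 2 ≤ 0
  · exact hhemi s2 hs2 hz2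
  push Not at hz1 hz2
  -- lower end point outside the mouth
  have hlow : ∀ s σ : ℝ, (σ = 1 ∨ σ = -1) →
      (p 0 + s * v 0) ^ 2 + (p 1 + s * v 1) ^ 2 + (p 2 + s * v 2) ^ 2 = 1 →
      0 < p 2 + s * v 2 → p 2 + s * v 2 ≤ cos α → σ * v 2 ≤ 0 →
      0 ≤ (p 0 + s * v 0) * (σ * v 0) + (p 1 + s * v 1) * (σ * v 1) + (p 2 + s * v 2) * (σ * v 2) →
      ∃ t : ℝ, p + t • v ∈ whole α κ N := by
    intro s σ hσ hs hz hzα hw hout
    have hσ2 : σ ^ 2 = 1 := by rcases hσ with h | h <;> rw [h] <;> norm_num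
    have hv2 : 0 < (σ * v 0) ^ 2 + (σ * v 1) ^ 2 + (σ * v 2) ^ 2 := by
      have : (σ * v 0) ^ 2 + (σ * v 1) ^ 2 + (σ * v 2) ^ 2 = σ ^ 2 * (v 0 ^ 2 + v 1 ^ 2 + v 2 ^ 2) := by ring
      rw [this, hσ2, one_mul]; exact hv'
    obtain ⟨t, -, i, h0, h1, h2⟩ := outer_hit hα0 hα1 hN hs hz hzα hv2 hw hout
    refine ⟨s + t * σ, Or.inl (Or.inr (outer_mem (i := i) ?_ ?_ ?_))⟩
    · simp only [PiLp.add_apply, PiLp.smul_apply, smul_eq_mul]
      rw [← h0]; ring
    · simp only [PiLp.add_apply, PiLp.smul_apply, smul_eq_mul]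
      refine h1.trans (le_of_eq ?_); ring
    · simp only [PiLp.add_apply, PiLp.smul_apply, smul_eq_mul]
      refine le_trans (le_of_eq ?_) h2; ring
  -- both end points inside the mouth
  have hin : cos α < p 2 + s1 * v 2 → cos α < p 2 + s2 * v 2 → ∃ t : ℝ, p + t • v ∈ whole α κ N := by
    intro hc1 hc2
    have hcos : 0 < cos α := cos_pos_of_mem_Ioo ⟨by linarith, hα1⟩
    have hsc := sin_sq_add_cos_sq α
    have hr : ∀ s : ℝ, (p 0 + s * v 0) ^ 2 + (p 1 + s * v 1) ^ 2 + (p 2 + s * v 2) ^ 2 = 1 →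
        cos α < p 2 + s * v 2 → (p 0 + s * v 0) ^ 2 + (p 1 + s * v 1) ^ 2 ≤ (ε * (1 - 2 * ε)) ^ 2 := by
      intro s hs hc
      rw [← hsin]
      nlinarith [mul_self_nonneg (p 2 + s * v 2 - cos α)]
    obtain ⟨x, y, dx, dy, t1, t2, hd, ht12, hx1, hx2, hall⟩ :=
      reduce hε hε1 hRR hκ hv' h12 hs1 hs2 ho1 ho2 hz1 hz2 (hr s1 hs1 hc1) (hr s2 hs2 hc2)
    obtain ⟨a, b, hE, s, hhit⟩ := inner hd ht12 hx1 hx2
    obtain ⟨t, e0, e1, e2⟩ := hall s
    rcases edge_walls hE with hw | hw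
    · refine ⟨t, Or.inr (mem_iUnion₂.2 ⟨(a, b), hw, hit_phys hκ0 hhit ?_ ?_ ?_⟩)⟩
      · simpa only [PiLp.add_apply, PiLp.smul_apply, smul_eq_mul] using e0
      · simpa only [PiLp.add_apply, PiLp.smul_apply, smul_eq_mul] using e1
      · simpa only [PiLp.add_apply, PiLp.smul_apply, smul_eq_mul] using e2
    · refine ⟨t, Or.inr (mem_iUnion₂.2 ⟨(b, a), hw, hit_phys hκ0 (hit_swap hhit) ?_ ?_ ?_⟩)⟩
      · simpa only [PiLp.add_apply, PiLp.smul_apply, smul_eq_mul] using e0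
      · simpa only [PiLp.add_apply, PiLp.smul_apply, smul_eq_mul] using e1
      · simpa only [PiLp.add_apply, PiLp.smul_apply, smul_eq_mul] using e2
  rcases lt_or_ge (p 2 + s2 * v 2) (p 2 + s1 * v 2) with hlt | hge
  · -- second end point lower
    have hs12 : s1 < s2 := by
      rcases h12.lt_or_eq with h | h
      · exact h
      · rw [h] at hlt; exact absurd hlt (lt_irrefl _)
    have hw : v 2 ≤ 0 := by nlinarith
    by_cases hc : p 2 + s2 * v 2 ≤ cos α
    · exact hlow s2 1 (Or.inl rfl) hs2 hz2 hc (by linarith) (by nlinarith [ho2])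
    · push Not at hc
      exact hin (hc.trans hlt) hc
  · by_cases hc : p 2 + s1 * v 2 ≤ cos α
    · rcases le_total 0 (v 2) with hw | hw
      · exact hlow s1 (-1) (Or.inr rfl) hs1 hz1 hc (by linarith) (by nlinarith [ho1])
      · have hs : s1 = s2 ∨ v 2 = 0 := by
          rcases h12.lt_or_eq with h | h
          · right; nlinarith
          · left; exact h
        rcases hs with hs | hs
        · rw [hs] at hz1 hc
          exact hlow s2 1 (Or.inl rfl) hs2 hz1 hc (by linarith) (by nlinarith [ho2])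
        · exact hlow s1 (-1) (Or.inr rfl) hs1 hz1 hc (by linarith) (by nlinarith [ho1])
    · push Not at hc
      exact hin hc (lt_of_lt_of_le hc hge)

theorem whole_surface {α κ : ℝ} (hα0 : 0 < α) (hα1 : α < π / 2) (hκ : 0 < κ) {N : ℕ} (hN : 0 < N) :
    IsSurface (whole α κ N) := by
  have hNR : (0 : ℝ) < N := by exact_mod_cast hN
  have hstep : 0 < (π / 2 - α) / N := by apply div_pos <;> linarith
  refine IsSurface.union (IsSurface.union surf_hemi (IsSurface.iUnion _ ?_)) (IsSurface.list _ _ ?_)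
  · intro i
    have hi : ((i : ℕ) : ℝ) + 1 ≤ N := by exact_mod_cast i.2
    have hi0 : (0 : ℝ) ≤ ((i : ℕ) : ℝ) := by positivity
    have hN' : (N : ℝ) * ((π / 2 - α) / N) = π / 2 - α := by field_simp
    have ha0 : α ≤ ang α N i := by
      unfold ang; nlinarith [mul_nonneg hi0 hstep.le]
    have ha1 : ang α N i < ang α N (i + 1) := by
      unfold ang; push_cast; nlinarith
    have ha2 : ang α N (i + 1) ≤ π / 2 := by
      unfold ang; push_cast; nlinarith [mul_le_mul_of_nonneg_right hi hstep.le]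
    apply surf_cyl
    · apply sin_pos_of_pos_of_lt_pi <;> linarith [pi_pos]
    · apply cos_lt_cos_of_nonneg_of_le_pi <;> linarith [pi_pos]
  · intro w hw
    obtain ⟨h1, h2, h3⟩ := walls_pos w hw
    apply surf_wall
    · have : (κ * nx w.2 - κ * nx w.1) ^ 2 + (κ * ny w.2 - κ * ny w.1) ^ 2 =
          κ ^ 2 * ((nx w.2 - nx w.1) ^ 2 + (ny w.2 - ny w.1) ^ 2) := by ring
      rw [this]; positivity
    · nlinarith [mul_lt_mul_of_pos_left h2 (pow_pos hκ 2)]
    · nlinarith [mul_lt_mul_of_pos_left h3 (pow_pos hκ 2)]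

theorem area_phys {κ : ℝ} (hκ : 0 < κ) {w : Nd × Nd} (hw : w ∈ walls) :
    area (physWall κ w) ≤ ENNReal.ofReal (κ ^ 3 * warea w) := by
  obtain ⟨h1, h2, h3⟩ := walls_pos w hw
  have h4 : (κ * nx w.2 - κ * nx w.1) ^ 2 + (κ * ny w.2 - κ * ny w.1) ^ 2 =
          κ ^ 2 * ((nx w.2 - nx w.1) ^ 2 + (ny w.2 - ny w.1) ^ 2) := by ring
  refine (area_wall ?_ ?_ ?_).trans (le_of_eq ?_)
  · rw [h4]; positivity
  · nlinarith [mul_lt_mul_of_pos_left h2 (pow_pos hκ 2)]
  · nlinarith [mul_lt_mul_of_pos_left h3 (pow_pos hκ 2)]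
  · rw [h4, Real.sqrt_mul (by positivity), Real.sqrt_sq hκ.le]
    unfold warea len
    congr 1; ring

theorem warea_nonneg {w : Nd × Nd} (hw : w ∈ walls) : 0 ≤ warea w := by
  obtain ⟨h1, h2, h3⟩ := walls_pos w hw
  unfold warea len
  have : 0 ≤ √((nx w.2 - nx w.1) ^ 2 + (ny w.2 - ny w.1) ^ 2) := Real.sqrt_nonneg _
  have h5 : 0 ≤ (nT w.1 - nB w.1) + (nT w.2 - nB w.2) := by linarith
  positivity

theorem whole_area {α κ : ℝ} (hα0 : 0 < α) (hα1 : α < π / 2) (hκ : 0 < κ) {N : ℕ} (hN : 0 < N) :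
    area (whole α κ N) ≤ ENNReal.ofReal (2 * π + (π * (π / 2 - α + sin α * cos α) + 2 * π * ((π / 2) / N)) +
      κ ^ 3 * (walls.map warea).sum) := by
  have hNR : (0 : ℝ) < N := by exact_mod_cast hN
  have hstep : 0 < (π / 2 - α) / N := by apply div_pos <;> linarith
  have hN' : (N : ℝ) * ((π / 2 - α) / N) = π / 2 - α := by field_simp
  have hout : area (outer α N) ≤ ENNReal.ofReal (π * (π / 2 - α + sin α * cos α) + 2 * π * ((π / 2) / N)) := by
    refine (area_iUnion_le _).trans ?_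
    have key : ∀ i : Fin N, 0 ≤ 2 * π * sin (ang α N (i + 1)) * (cos (ang α N i) - cos (ang α N (i + 1))) ∧
        area (cyl (sin (ang α N (i + 1))) (cos (ang α N (i + 1))) (cos (ang α N i))) ≤
        ENNReal.ofReal (2 * π * sin (ang α N (i + 1)) * (cos (ang α N i) - cos (ang α N (i + 1)))) := by
      intro i
      have hi : ((i : ℕ) : ℝ) + 1 ≤ N := by exact_mod_cast i.2
      have hi0 : (0 : ℝ) ≤ ((i : ℕ) : ℝ) := by positivity
      have ha0 : α ≤ ang α N i := by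
        unfold ang; nlinarith [mul_nonneg hi0 hstep.le]
      have ha1 : ang α N i < ang α N (i + 1) := by
        unfold ang; push_cast; nlinarith
      have ha2 : ang α N (i + 1) ≤ π / 2 := by
        unfold ang; push_cast; nlinarith [mul_le_mul_of_nonneg_right hi hstep.le]
      have hsin : 0 < sin (ang α N (i + 1)) := by
        apply sin_pos_of_pos_of_lt_pi <;> linarith [pi_pos]
      have hcos : cos (ang α N (i + 1)) < cos (ang α N i) := by
        apply cos_lt_cos_of_nonneg_of_le_pi <;> linarith [pi_pos]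
      refine ⟨?_, area_cyl hsin hcos.le⟩
      have := pi_pos
      have h3 : 0 < cos (ang α N i) - cos (ang α N (i + 1)) := by linarith
      positivity
    refine (Finset.sum_le_sum fun i _ => (key i).2).trans ?_
    rw [← ENNReal.ofReal_sum_of_nonneg fun i _ => (key i).1]
    exact ENNReal.ofReal_le_ofReal (outer_sum hα0 hα1 hN)
  have hwalls : area (⋃ w ∈ walls, physWall κ w) ≤ ENNReal.ofReal (κ ^ 3 * (walls.map warea).sum) := by
    refine (area_iUnion_list walls (physWall κ) (fun w => κ ^ 3 * warea w) ?_ ?_).trans (le_of_eq ?_)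
    · intro w hw
      have := warea_nonneg hw
      positivity
    · intro w hw; exact area_phys hκ hw
    · rw [List.sum_map_mul_left]
  have hs : 0 ≤ π * (π / 2 - α + sin α * cos α) + 2 * π * ((π / 2) / N) := by
    have hsin : 0 < sin α := by apply sin_pos_of_pos_of_lt_pi <;> linarith [pi_pos]
    have hcos : 0 < cos α := cos_pos_of_mem_Ioo ⟨by linarith, hα1⟩
    have h3 : 0 < π / 2 - α := by linarith
    have := pi_pos
    positivity
  have hw0 : 0 ≤ κ ^ 3 * (walls.map warea).sum := by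
    have : 0 ≤ (walls.map warea).sum := by
      apply List.sum_nonneg
      intro x hx
      obtain ⟨w, hw, rfl⟩ := List.mem_map.1 hx
      exact warea_nonneg hw
    positivity
  unfold whole
  refine (area_union_le _ _).trans ?_
  rw [ENNReal.ofReal_add (by have := pi_pos; positivity) hw0, ENNReal.ofReal_add (by positivity) hs]
  exact add_le_add ((area_union_le _ _).trans (add_le_add area_hemi hout)) hwalls

/-- there is a blocking surface of area less than `2π + π²/2` -/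
theorem exists_surface : ∃ S : Set E3, IsSurface S ∧ IsBlocking S ∧ area S < ENNReal.ofReal (2 * π + π ^ 2 / 2) := by
  set ε : ℝ := 1 / 10000 with hε
  set α : ℝ := arcsin (ε * (1 - 2 * ε)) with hα
  have hb0 : 0 < ε * (1 - 2 * ε) := by rw [hε]; norm_num
  have hb1 : ε * (1 - 2 * ε) < 1 := by rw [hε]; norm_num
  have hsin : sin α = ε * (1 - 2 * ε) := sin_arcsin (by linarith) hb1.le
  have hα0 : 0 < α := arcsin_pos.2 hb0
  have hα1 : α < π / 2 := arcsin_lt_pi_div_two.2 hb1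
  have hRR : (0 : ℝ) < RR := by unfold RR; norm_num
  set κ : ℝ := ε / RR with hκ
  have hκ0 : 0 < κ := by rw [hκ, hε]; positivity
  obtain ⟨N, hN⟩ := exists_nat_gt (10 ^ 16 : ℝ)
  have hN0 : 0 < N := by
    rcases Nat.eq_zero_or_pos N with h | h
    · rw [h] at hN; norm_num at hN
    · exact h
  refine ⟨whole α κ N, whole_surface hα0 hα1 hκ0 hN0,
    whole_blocking (by rw [hε]; norm_num) (by rw [hε]; norm_num) hα0 hα1 hsin rfl hN0, ?_⟩
  refine lt_of_le_of_lt (whole_area hα0 hα1 hκ0 hN0) ?_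
  have hNR : (0 : ℝ) < N := by exact_mod_cast hN0
  have h1 := mouth_ineq hα0.le hα1.le
  rw [hsin] at h1
  have h2 := walls_area
  have h3 : κ ^ 3 * (walls.map warea).sum ≤ ε ^ 3 * 2.0806 := by
    have : κ ^ 3 * (2.0806 * RR ^ 3) = ε ^ 3 * 2.0806 := by
      rw [hκ]; field_simp
    rw [← this]
    exact mul_le_mul_of_nonneg_left h2 (by positivity)
  have hpi3 := pi_gt_d6
  have hpi4 := pi_lt_d6
  have h4 : 2 * π * ((π / 2) / N) < 1 / 10 ^ 15 := by
    have : 2 * π * ((π / 2) / N) = π ^ 2 / N := by field_simp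
    rw [this, div_lt_iff₀ hNR]
    nlinarith
  have h5 : π * (2 / 3 * (ε * (1 - 2 * ε)) ^ 3) ≤ π * (α - sin α * cos α) := by
    rw [hsin]; exact mul_le_mul_of_nonneg_left h1 pi_pos.le
  apply (ENNReal.ofReal_lt_ofReal_iff (by positivity)).2
  have h6 : ε ^ 3 * 2.0806 + 1 / 10 ^ 15 < π * (2 / 3 * (ε * (1 - 2 * ε)) ^ 3) := by
    rw [hε]
    norm_num
    nlinarith
  nlinarith [h3, h4, h5, h6]

theorem astar_lt : AStar < ENNReal.ofReal (2 * π + π ^ 2 / 2) := by
  obtain ⟨S, h1, h2, h3⟩ := exists_surface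
  exact lt_of_le_of_lt (iInf₂_le S ⟨h1, h2⟩) h3

end BallBlock
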