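import Pool.Agent.BallBlock.Chk
import Pool.Agent.BallBlock.Defs

/-! Real interpretation of the integer data. -/

open Real

namespace BallBlock

open K

/-- real coordinates and heights of a node (refined units; the unit disc of the mouth has radius `RR`) -/
noncomputable def nx (p : Nd) : ℝ := ((p.a : ℝ) - 32768) * 256
noncomputable def ny (p : Nd) : ℝ := √3 * (((p.b : ℝ) - 32768) * 256)
noncomputable def nT (p : Nd) : ℝ := ((p.t : ℝ) - 4294967296) * 65536 / 2
noncomputable def nB (p : Nd) : ℝ := ((p.u : ℝ) - 4294967296) * 65536 / 2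

/-- radius of the mouth in refined units -/
def RR : ℝ := 4194304

/-- real coordinates and heights of a vertex -/
noncomputable def vx (v : Vx) : ℝ := (v.a : ℝ) - 8388608
noncomputable def vy (v : Vx) : ℝ := √3 * ((v.b : ℝ) - 8388608)
noncomputable def vT (v : Vx) : ℝ := ((v.t : ℝ) - 281474976710656) / 2
noncomputable def vB (v : Vx) : ℝ := ((v.u : ℝ) - 281474976710656) / 2

/-- the point `(X, Y, z)` is on the wall over the edge `p q` -/
def Hit (p q : Nd) (X Y z : ℝ) : Prop :=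
  ∃ l, 0 ≤ l ∧ l ≤ 1 ∧ X = lr (nx p) (nx q) l ∧ Y = lr (ny p) (ny q) l ∧
    lr (nB p) (nB q) l ≤ z ∧ z ≤ lr (nT p) (nT q) l

/-- some wall with edge in `E` is hit -/
def Blocked (E : Nd → Nd → Prop) (x y dx dy t1 t2 : ℝ) : Prop :=
  ∃ p q, E p q ∧ ∃ s, Hit p q (x + s * dx) (y + s * dy) (zz x y dx dy t1 t2 s)

/-- a point on the plan segment of a sub-edge, with the interpolated data; `l ∈ [0,1]` -/
structure OnSub (s : Sub) (X Y Tp Bt : ℝ) (l : ℝ) : Prop where
  l0 : 0 ≤ l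
  l1 : l ≤ 1
  hX : X = lr (vx s.v) (vx s.w) l
  hY : Y = lr (vy s.v) (vy s.w) l
  hT : Tp = lr (vT s.v) (vT s.w) l
  hB : Bt = lr (vB s.v) (vB s.w) l

/-- consecutive elements of a list -/
inductive Cons2 {α : Type} : List α → α → α → Prop
  | head (p q : α) (l : List α) : Cons2 (p :: q :: l) p q
  | tail (x : α) {l : List α} {p q : α} (h : Cons2 l p q) : Cons2 (x :: l) p q

/-- the sub-edge comes from `mkSub` with admissible parameters -/
def IsMk (s : Sub) : Prop := ∃ j0 j1 : ℕ, j0 ≤ 256 ∧ j1 ≤ 256 ∧ s = mkSub s.p s.q j0 j1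

/-- consecutive sub-edges of the item are linked -/
def Linked : List Sub → Prop
  | [] => True
  | [_] => True
  | s :: t :: l => s.w = t.v ∧ Linked (t :: l)

/-- the plan line through two points, with any chord between them, is blocked -/
def Good (E : Nd → Nd → Prop) (x y x' y' : ℝ) : Prop :=
  ∀ dx dy D t1 t2 : ℝ, dx ^ 2 + dy ^ 2 = 1 → 0 < D → x' = x + D * dx → y' = y + D * dy →
    0 ≤ t1 → t1 ≤ t2 → t2 ≤ D → Blocked E x y dx dy t1 t2

/-- level `h` as a real height -/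
noncomputable def hR (h : ℕ) : ℝ := ((h : ℝ) - 281474976710656) / 2

/-- bottom of an edge: below the paraboloid, or below the level `h` -/
def BotOK (h : ℕ) (p q : Nd) : Prop :=
  (nB p ≤ -(nx p ^ 2 + ny p ^ 2) / 2 ∧ nB q ≤ -(nx q ^ 2 + ny q ^ 2) / 2) ∨ (nB p ≤ hR h ∧ nB q ≤ hR h)

/-- rim side: bottom below the paraboloid, top above the level `h` -/
def RimOK (h : ℕ) (p q : Nd) : Prop :=
  nB p ≤ -(nx p ^ 2 + ny p ^ 2) / 2 ∧ nB q ≤ -(nx q ^ 2 + ny q ^ 2) / 2 ∧ hR h ≤ nT p ∧ hR h ≤ nT q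

/-- admissible item -/
def ItemOK (E : Nd → Nd → Prop) (h : ℕ) (A : List Sub) : Prop :=
  Linked A ∧ ∀ s ∈ A, IsMk s ∧ E s.p s.q ∧ BotOK h s.p s.q

end BallBlock
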