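import Pool.Agent.BallBlock.Plan
import Pool.Agent.BallBlock.Table

/-! definitions about the concrete table -/

open Real

namespace BallBlock

open K

/-- side number `i` of the rim -/
def Side (i : ℕ) (p q : Nd) : Prop := ∃ l, dropC rim i = p :: q :: l

/-- all edges -/
def EE (p q : Nd) : Prop := (∃ c ∈ chains, Cons2 c p q) ∨ ∃ i < 192, Side i p q

/-- all lines through side `I` and side `J` are blocked -/
def GoodS (I J : ℕ) : Prop := ∀ p q p' q', Side I p q → Side J p' q' → ∀ l m : ℝ, 0 ≤ l → l ≤ 1 → 0 ≤ m → m ≤ 1 →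
  Good EE (lr (nx p) (nx q) l) (lr (ny p) (ny q) l) (lr (nx p') (nx q') m) (lr (ny p') (ny q') m)

/-- representatives of the pairs of sides -/
def isRep (I J : ℕ) : Prop := I < 64 ∧ I < J ∧ J ≤ I + 96 ∧ (I + J + 1) % 128 ≤ 64

/-- consecutive pairs of a list -/
def pairs {α : Type} : List α → List (α × α)
  | p :: q :: l => (p, q) :: pairs (q :: l)
  | _ => []

/-- the edges carrying a wall -/
def walls : List (Nd × Nd) := (chains.take 24).flatMap pairs ++ pairs (rim.take 193)

/-- plan length -/
noncomputable def len (p q : Nd) : ℝ := √((nx q - nx p) ^ 2 + (ny q - ny p) ^ 2)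

/-- area of the wall over an edge -/
noncomputable def warea (w : Nd × Nd) : ℝ := len w.1 w.2 * ((nT w.1 - nB w.1) + (nT w.2 - nB w.2)) / 2

end BallBlock
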