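import Pool.Agent.BallBlock.Plan2

/-!
The rim is a convex polygon with 192 sides, strictly containing the disc of radius `RR = 4194304`. Sides are consecutive nodes
`p, q` of the list `rim` (numbers 0..191; `rim` has 291 nodes, node `192 + j` = node `j`), counterclockwise.
In units of the nodes (`A = a - 32768`, `B = b - 32768`; real coordinates `256 A`, `√3 256 B`; disc radius `16384`):
`side_pos`: check by `decide +kernel` over the list (write a Bool test with `Int` or `Nat` arithmetic) that `D = A_p B_q - B_p A_q > 0`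
and `3 D² > ((A_q - A_p)² + 3 (B_q - B_p)²) * 16384²`; then `ℓ(x,y) = ℓ(0,0) + (q - p) × (x,y) ≥ p × q - |q - p| |(x,y)| > 0`.
`exit_side`: let `ℓ_i` be the functional of side `i`, `c_i = (q_i - p_i) × d` its slope in the direction `d = (dx,dy)`. Sides 0, 64, 128 have
direction vectors with sum 0 (rotations by 120 degrees), so `c_0 + c_64 + c_128 = 0` and not all three vanish (not parallel), so some
`c_i < 0`. Let `s` be the minimum over the `i < 192` with `c_i < 0` of `ℓ_i(x,y) / (- c_i)` (`Finset.exists_min_image`), attained at `i`; then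
`ℓ_j(x + s d) ≥ 0` for all `j` and `= 0` for `j = i`. The point `p_i + l (q_i - p_i)` of the line of side `i` has
`ℓ_{i-1} = l ℓ_{i-1}(q_i)` and `ℓ_{i+1} = (1 - l) ℓ_{i+1}(p_i)` (indices mod 192) and `ℓ_{i-1}(q_i) > 0`, `ℓ_{i+1}(p_i) > 0` (decide), so `0 ≤ l ≤ 1`.
-/

open Real

namespace BallBlock

open K

private def polygonA (p : Nd) : ℤ := (p.a : ℤ) - 32768
private def polygonB (p : Nd) : ℤ := (p.b : ℤ) - 32768
private def polygonD (p q : Nd) : ℤ := polygonA p * polygonB q - polygonB p * polygonA q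
private def polygonL (p q v : Nd) : ℤ :=
  (polygonA q - polygonA p) * (polygonB v - polygonB p) -
    (polygonB q - polygonB p) * (polygonA v - polygonA p)
private def polygonN (p q : Nd) : ℤ :=
  (polygonA q - polygonA p) * (polygonA q - polygonA p) +
    3 * ((polygonB q - polygonB p) * (polygonB q - polygonB p))

/-- the test for one side, with the previous and the next side -/
private def polygonT : List Nd → List Nd → List Nd → Bool
  | p :: q :: _, p' :: q' :: _, p'' :: q'' :: _ =>
    decide (0 < polygonD p q) &&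
    (decide (polygonN p q * 268435456 < 3 * (polygonD p q * polygonD p q)) &&
    (decide (q'.a = p.a) && (decide (q'.b = p.b) &&
    (decide (p''.a = q.a) && (decide (p''.b = q.b) &&
    (decide (0 < polygonL p' q' q) && decide (0 < polygonL p'' q'' p)))))))
  | _, _, _ => false

private theorem polygonT_all : ∀ i < 192,
    polygonT (dropC rim i) (dropC rim ((i + 191) % 192)) (dropC rim ((i + 1) % 192)) = true := by
  decide +kernel

private theorem polygonT_spec {l l' l'' : List Nd} (h : polygonT l l' l'' = true) :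
    ∃ p q r p' q' r' p'' q'' r'', l = p :: q :: r ∧ l' = p' :: q' :: r' ∧ l'' = p'' :: q'' :: r'' ∧
      0 < polygonD p q ∧ polygonN p q * 268435456 < 3 * (polygonD p q * polygonD p q) ∧
      q'.a = p.a ∧ q'.b = p.b ∧ p''.a = q.a ∧ p''.b = q.b ∧
      0 < polygonL p' q' q ∧ 0 < polygonL p'' q'' p := by
  unfold polygonT at h
  split at h
  · rename_i p q r p' q' r' p'' q'' r''
    simp only [Bool.and_eq_true, decide_eq_true_eq] at h
    exact ⟨p, q, r, p', q', r', p'', q'', r'', rfl, rfl, rfl, h⟩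
  · exact absurd h Bool.false_ne_true

/-- the test for three sides whose direction vectors have sum `0` -/
private def polygonT3 : List Nd → List Nd → List Nd → Bool
  | p :: q :: _, p' :: q' :: _, p'' :: q'' :: _ =>
    decide ((polygonA q - polygonA p) + (polygonA q' - polygonA p') +
      (polygonA q'' - polygonA p'') = 0) &&
    (decide ((polygonB q - polygonB p) + (polygonB q' - polygonB p') +
      (polygonB q'' - polygonB p'') = 0) &&
    decide ((polygonA q - polygonA p) * (polygonB q' - polygonB p') -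
      (polygonB q - polygonB p) * (polygonA q' - polygonA p') ≠ 0))
  | _, _, _ => false

private theorem polygonT3_all :
    polygonT3 (dropC rim 0) (dropC rim 64) (dropC rim 128) = true := by
  decide +kernel

private theorem polygonT3_spec {l l' l'' : List Nd} (h : polygonT3 l l' l'' = true) :
    ∃ p q r p' q' r' p'' q'' r'', l = p :: q :: r ∧ l' = p' :: q' :: r' ∧ l'' = p'' :: q'' :: r'' ∧
      (polygonA q - polygonA p) + (polygonA q' - polygonA p') + (polygonA q'' - polygonA p'') = 0 ∧
      (polygonB q - polygonB p) + (polygonB q' - polygonB p') + (polygonB q'' - polygonB p'') = 0 ∧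
      (polygonA q - polygonA p) * (polygonB q' - polygonB p') -
        (polygonB q - polygonB p) * (polygonA q' - polygonA p') ≠ 0 := by
  unfold polygonT3 at h
  split at h
  · rename_i p q r p' q' r' p'' q'' r''
    simp only [Bool.and_eq_true, decide_eq_true_eq] at h
    exact ⟨p, q, r, p', q', r', p'', q'', r'', rfl, rfl, rfl, h⟩
  · exact absurd h Bool.false_ne_true

private theorem polygon_nx (p : Nd) : nx p = 256 * (polygonA p : ℝ) := by
  unfold nx polygonA; push_cast; ring

private theorem polygon_ny (p : Nd) : ny p = √3 * (256 * (polygonB p : ℝ)) := by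
  unfold ny polygonB; push_cast; ring

/-- the functional of the side `p q` -/
private noncomputable def polygonF (p q : Nd) (X Y : ℝ) : ℝ :=
  (nx q - nx p) * (Y - ny p) - (ny q - ny p) * (X - nx p)

private theorem polygonF_node (p q v : Nd) :
    polygonF p q (nx v) (ny v) = √3 * 65536 * (polygonL p q v : ℝ) := by
  unfold polygonF polygonL
  rw [polygon_nx, polygon_nx, polygon_nx, polygon_ny, polygon_ny, polygon_ny]
  push_cast
  ring

private theorem polygonF_pos {p q : Nd} (h1 : 0 < polygonD p q)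
    (h2 : polygonN p q * 268435456 < 3 * (polygonD p q * polygonD p q)) {x y : ℝ}
    (hr : x ^ 2 + y ^ 2 ≤ RR ^ 2) : 0 < polygonF p q x y := by
  have h3 : (0 : ℝ) < √3 := Real.sqrt_pos.2 (by norm_num)
  have h33 : √3 * √3 = 3 := Real.mul_self_sqrt (by norm_num)
  set D : ℝ := (polygonD p q : ℝ) with hD
  have hD0 : 0 < D := by rw [hD]; exact_mod_cast h1
  set N : ℝ := (polygonN p q : ℝ) with hN
  have hND : N * 268435456 < 3 * (D * D) := by rw [hN, hD]; exact_mod_cast h2
  set ex : ℝ := nx q - nx p with hex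
  set ey : ℝ := ny q - ny p with hey
  have hNe : ex ^ 2 + ey ^ 2 = 65536 * N := by
    rw [hex, hey, hN, polygon_nx, polygon_nx, polygon_ny, polygon_ny]
    unfold polygonN
    push_cast
    have h4 : (√3 * (256 * (polygonB q : ℝ)) - √3 * (256 * (polygonB p : ℝ))) ^ 2 =
        (√3 * √3) * (65536 * ((polygonB q : ℝ) - polygonB p) ^ 2) := by ring
    rw [h4, h33]
    ring
  have hF : polygonF p q x y = √3 * 65536 * D + (ex * y - ey * x) := by
    rw [hex, hey, hD]
    unfold polygonF polygonD
    rw [polygon_nx, polygon_nx, polygon_ny, polygon_ny]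
    push_cast
    ring
  have hC : (ex * y - ey * x) ^ 2 < (√3 * 65536 * D) ^ 2 := by
    have h5 : (ex * y - ey * x) ^ 2 ≤ (ex ^ 2 + ey ^ 2) * (x ^ 2 + y ^ 2) := by
      nlinarith [sq_nonneg (ex * x + ey * y)]
    have h6 : (ex ^ 2 + ey ^ 2) * (x ^ 2 + y ^ 2) ≤ (ex ^ 2 + ey ^ 2) * RR ^ 2 :=
      mul_le_mul_of_nonneg_left hr (by positivity)
    have h7 : (√3 * 65536 * D) ^ 2 = (√3 * √3) * (4294967296 * (D * D)) := by ring
    rw [h7, h33]
    rw [hNe] at h6
    have h8 : (RR : ℝ) ^ 2 = 65536 * 268435456 := by unfold RR; norm_num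
    rw [hNe] at h5
    rw [h8] at h6
    linarith
  have h9 := abs_lt_of_sq_lt_sq hC (by positivity)
  rw [abs_lt] at h9
  rw [hF]
  linarith [h9.1]

theorem side_pos {i : ℕ} {p q : Nd} (hi : i < 192) (hs : Side i p q) {x y : ℝ} (hr : x ^ 2 + y ^ 2 ≤ RR ^ 2) :
    0 < (nx q - nx p) * (y - ny p) - (ny q - ny p) * (x - nx p) := by
  obtain ⟨l, hl⟩ := hs
  obtain ⟨p₀, q₀, r, _, _, _, _, _, _, h1, _, _, h2, h3, _⟩ := polygonT_spec (polygonT_all i hi)
  rw [hl] at h1
  injection h1 with h4 h5
  injection h5 with h6 _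
  subst h4 h6
  exact polygonF_pos h2 h3 hr

/-- the first node of side `i` -/
private noncomputable def polygonP (i : ℕ) : Nd := (dropC rim i).getD 0 ⟨0, 0, 0, 0⟩
/-- the second node of side `i` -/
private noncomputable def polygonQ (i : ℕ) : Nd := (dropC rim i).getD 1 ⟨0, 0, 0, 0⟩

private theorem polygon_side {i : ℕ} {p q : Nd} (h : Side i p q) :
    p = polygonP i ∧ q = polygonQ i := by
  obtain ⟨l, hl⟩ := h
  unfold polygonP polygonQ
  rw [hl]
  exact ⟨rfl, rfl⟩

private theorem polygon_isSide {i : ℕ} (hi : i < 192) : Side i (polygonP i) (polygonQ i) := by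
  obtain ⟨p, q, r, _, _, _, _, _, _, h1, _⟩ := polygonT_spec (polygonT_all i hi)
  have h2 : Side i p q := ⟨r, h1⟩
  obtain ⟨h3, h4⟩ := polygon_side h2
  rw [← h3, ← h4]
  exact h2

/-- the previous and next sides -/
private theorem polygon_neighbours {i : ℕ} (hi : i < 192) :
    0 < polygonN (polygonP i) (polygonQ i) ∧
    (∃ j < 192, polygonF (polygonP j) (polygonQ j) (nx (polygonP i)) (ny (polygonP i)) = 0 ∧
      0 < polygonF (polygonP j) (polygonQ j) (nx (polygonQ i)) (ny (polygonQ i))) ∧
    (∃ j < 192, polygonF (polygonP j) (polygonQ j) (nx (polygonQ i)) (ny (polygonQ i)) = 0 ∧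
      0 < polygonF (polygonP j) (polygonQ j) (nx (polygonP i)) (ny (polygonP i))) := by
  have h3 : (0 : ℝ) < √3 := Real.sqrt_pos.2 (by norm_num)
  obtain ⟨p, q, r, p', q', r', p'', q'', r'', h1, h1', h1'', hD, _, ha, hb, ha', hb', hL, hL'⟩ :=
    polygonT_spec (polygonT_all i hi)
  obtain ⟨e1, e2⟩ := polygon_side (i := i) ⟨r, h1⟩
  obtain ⟨e1', e2'⟩ := polygon_side (i := (i + 191) % 192) ⟨r', h1'⟩
  obtain ⟨e1'', e2''⟩ := polygon_side (i := (i + 1) % 192) ⟨r'', h1''⟩
  rw [← e1, ← e2]
  refine ⟨?_, ⟨(i + 191) % 192, Nat.mod_lt _ (by norm_num), ?_, ?_⟩,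
    ⟨(i + 1) % 192, Nat.mod_lt _ (by norm_num), ?_, ?_⟩⟩
  · unfold polygonN
    by_contra hcon
    have hA : polygonA q - polygonA p = 0 := by
      nlinarith [mul_self_nonneg (polygonA q - polygonA p),
        mul_self_nonneg (polygonB q - polygonB p)]
    have hB : polygonB q - polygonB p = 0 := by
      nlinarith [mul_self_nonneg (polygonA q - polygonA p),
        mul_self_nonneg (polygonB q - polygonB p)]
    unfold polygonD at hD
    rw [sub_eq_zero.1 hA, sub_eq_zero.1 hB] at hD
    rw [mul_comm (polygonB p), sub_self] at hD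
    exact lt_irrefl _ hD
  · rw [← e1', ← e2', polygonF_node]
    have : polygonL p' q' p = 0 := by
      unfold polygonL polygonA polygonB
      rw [← ha, ← hb]
      ring
    rw [this]; simp
  · rw [← e1', ← e2', polygonF_node]
    have : (0 : ℝ) < (polygonL p' q' q : ℝ) := by exact_mod_cast hL
    positivity
  · rw [← e1'', ← e2'', polygonF_node]
    have : polygonL p'' q'' q = 0 := by
      unfold polygonL polygonA polygonB
      rw [← ha', ← hb']
      ring
    rw [this]; simp
  · rw [← e1'', ← e2'', polygonF_node]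
    have : (0 : ℝ) < (polygonL p'' q'' p : ℝ) := by exact_mod_cast hL'
    positivity

/-- slope of the functional of the side `p q` -/
private noncomputable def polygonC (p q : Nd) (dx dy : ℝ) : ℝ :=
  (nx q - nx p) * dy - (ny q - ny p) * dx

private theorem polygon_slope {dx dy : ℝ} (hd : dx ^ 2 + dy ^ 2 = 1) :
    ∃ i < 192, polygonC (polygonP i) (polygonQ i) dx dy < 0 := by
  have h3 : (0 : ℝ) < √3 := Real.sqrt_pos.2 (by norm_num)
  obtain ⟨p, q, r, p', q', r', p'', q'', r'', h1, h1', h1'', hA, hB, hX⟩ :=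
    polygonT3_spec polygonT3_all
  obtain ⟨e1, e2⟩ := polygon_side (i := 0) ⟨r, h1⟩
  obtain ⟨e1', e2'⟩ := polygon_side (i := 64) ⟨r', h1'⟩
  obtain ⟨e1'', e2''⟩ := polygon_side (i := 128) ⟨r'', h1''⟩
  by_contra hcon
  push Not at hcon
  have c0 := hcon 0 (by norm_num)
  have c1 := hcon 64 (by norm_num)
  have c2 := hcon 128 (by norm_num)
  rw [← e1, ← e2] at c0
  rw [← e1', ← e2'] at c1
  rw [← e1'', ← e2''] at c2
  unfold polygonC at c0 c1 c2
  rw [polygon_nx, polygon_nx, polygon_ny, polygon_ny] at c0 c1 c2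
  have hA' : ((polygonA q : ℝ) - polygonA p) + ((polygonA q' : ℝ) - polygonA p') +
      ((polygonA q'' : ℝ) - polygonA p'') = 0 := by exact_mod_cast hA
  have hB' : ((polygonB q : ℝ) - polygonB p) + ((polygonB q' : ℝ) - polygonB p') +
      ((polygonB q'' : ℝ) - polygonB p'') = 0 := by exact_mod_cast hB
  have hX' : ((polygonA q : ℝ) - polygonA p) * ((polygonB q' : ℝ) - polygonB p') -
      ((polygonB q : ℝ) - polygonB p) * ((polygonA q' : ℝ) - polygonA p') ≠ 0 := by
    exact_mod_cast hX
  set a : ℝ := (polygonA q : ℝ) - polygonA p with ha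
  set b : ℝ := (polygonB q : ℝ) - polygonB p with hb
  set a' : ℝ := (polygonA q' : ℝ) - polygonA p' with ha'
  set b' : ℝ := (polygonB q' : ℝ) - polygonB p' with hb'
  set a'' : ℝ := (polygonA q'' : ℝ) - polygonA p'' with ha''
  set b'' : ℝ := (polygonB q'' : ℝ) - polygonB p'' with hb''
  have k0 : 0 ≤ a * dy - √3 * (b * dx) := by nlinarith
  have k1 : 0 ≤ a' * dy - √3 * (b' * dx) := by nlinarith
  have k2 : 0 ≤ a'' * dy - √3 * (b'' * dx) := by nlinarith
  have ksum : (a * dy - √3 * (b * dx)) + (a' * dy - √3 * (b' * dx)) +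
      (a'' * dy - √3 * (b'' * dx)) = 0 := by
    have : (a * dy - √3 * (b * dx)) + (a' * dy - √3 * (b' * dx)) +
      (a'' * dy - √3 * (b'' * dx)) = (a + a' + a'') * dy - √3 * ((b + b' + b'') * dx) := by ring
    rw [this, hA', hB']; ring
  have z0 : a * dy - √3 * (b * dx) = 0 := by linarith
  have z1 : a' * dy - √3 * (b' * dx) = 0 := by linarith
  have y0 : (a * b' - b * a') * dy = 0 := by
    have : (a * b' - b * a') * dy = b' * (a * dy - √3 * (b * dx)) -
      b * (a' * dy - √3 * (b' * dx)) := by ring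
    rw [this, z0, z1]; ring
  have x0 : √3 * ((a * b' - b * a') * dx) = 0 := by
    have : √3 * ((a * b' - b * a') * dx) = a' * (a * dy - √3 * (b * dx)) -
      a * (a' * dy - √3 * (b' * dx)) := by ring
    rw [this, z0, z1]; ring
  have y1 : dy = 0 := (mul_eq_zero.1 y0).resolve_left hX'
  have x1 : dx = 0 := (mul_eq_zero.1 ((mul_eq_zero.1 x0).resolve_left h3.ne')).resolve_left hX'
  rw [x1, y1] at hd
  norm_num at hd

private theorem polygonF_line (p q : Nd) (x y dx dy s : ℝ) :
    polygonF p q (x + s * dx) (y + s * dy) = polygonF p q x y + s * polygonC p q dx dy := by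
  unfold polygonF polygonC; ring

private theorem polygonF_lr (p q : Nd) (x y x' y' l : ℝ) :
    polygonF p q (lr x x' l) (lr y y' l) = (1 - l) * polygonF p q x y + l * polygonF p q x' y' := by
  unfold polygonF lr; ring

/-- the points of the line of a side -/
private theorem polygon_on {p q : Nd} (hN : 0 < polygonN p q) {X Y : ℝ}
    (h : polygonF p q X Y = 0) : ∃ l : ℝ, X = lr (nx p) (nx q) l ∧ Y = lr (ny p) (ny q) l := by
  have h33 : √3 * √3 = 3 := Real.mul_self_sqrt (by norm_num)
  set ex : ℝ := nx q - nx p with hex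
  set ey : ℝ := ny q - ny p with hey
  have hN' : (0 : ℝ) < (polygonN p q : ℝ) := by exact_mod_cast hN
  have hNe : ex ^ 2 + ey ^ 2 = 65536 * (polygonN p q : ℝ) := by
    rw [hex, hey, polygon_nx, polygon_nx, polygon_ny, polygon_ny]
    unfold polygonN
    push_cast
    have h4 : (√3 * (256 * (polygonB q : ℝ)) - √3 * (256 * (polygonB p : ℝ))) ^ 2 =
        (√3 * √3) * (65536 * ((polygonB q : ℝ) - polygonB p) ^ 2) := by ring
    rw [h4, h33]
    ring
  have he : 0 < ex ^ 2 + ey ^ 2 := by rw [hNe]; positivity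
  have h1 : ex * (Y - ny p) - ey * (X - nx p) = 0 := h
  refine ⟨((X - nx p) * ex + (Y - ny p) * ey) / (ex ^ 2 + ey ^ 2), ?_, ?_⟩
  · have h2 : ((X - nx p) * ex + (Y - ny p) * ey) * ex = (X - nx p) * (ex ^ 2 + ey ^ 2) := by
      linear_combination (ey) * h1
    have h3 : ((X - nx p) * ex + (Y - ny p) * ey) / (ex ^ 2 + ey ^ 2) * ex = X - nx p := by
      rw [div_mul_eq_mul_div, h2, mul_div_cancel_right₀ _ he.ne']
    unfold lr
    have h4 : nx q = nx p + ex := by rw [hex]; ring
    rw [h4]
    linarith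
  · have h2 : ((X - nx p) * ex + (Y - ny p) * ey) * ey = (Y - ny p) * (ex ^ 2 + ey ^ 2) := by
      linear_combination (-ex) * h1
    have h3 : ((X - nx p) * ex + (Y - ny p) * ey) / (ex ^ 2 + ey ^ 2) * ey = Y - ny p := by
      rw [div_mul_eq_mul_div, h2, mul_div_cancel_right₀ _ he.ne']
    unfold lr
    have h4 : ny q = ny p + ey := by rw [hey]; ring
    rw [h4]
    linarith

theorem exit_side {x y dx dy : ℝ} (hr : x ^ 2 + y ^ 2 ≤ RR ^ 2) (hd : dx ^ 2 + dy ^ 2 = 1) :
    ∃ i < 192, ∃ p q, Side i p q ∧ ∃ s l : ℝ, 0 ≤ s ∧ 0 ≤ l ∧ l ≤ 1 ∧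
      x + s * dx = lr (nx p) (nx q) l ∧ y + s * dy = lr (ny p) (ny q) l := by
  classical
  set T : Finset ℕ := (Finset.range 192).filter
    (fun i => polygonC (polygonP i) (polygonQ i) dx dy < 0) with hT
  have hTne : T.Nonempty := by
    obtain ⟨i, hi, h⟩ := polygon_slope hd
    exact ⟨i, Finset.mem_filter.2 ⟨Finset.mem_range.2 hi, h⟩⟩
  obtain ⟨i, hiT, hmin⟩ := Finset.exists_min_image T
    (fun i => polygonF (polygonP i) (polygonQ i) x y /
      (-polygonC (polygonP i) (polygonQ i) dx dy)) hTne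
  obtain ⟨hi', hic⟩ := Finset.mem_filter.1 hiT
  have hi : i < 192 := Finset.mem_range.1 hi'
  have hpos : ∀ j < 192, 0 < polygonF (polygonP j) (polygonQ j) x y :=
    fun j hj => side_pos hj (polygon_isSide hj) hr
  have hic' : 0 < -polygonC (polygonP i) (polygonQ i) dx dy := neg_pos.2 hic
  set s : ℝ := polygonF (polygonP i) (polygonQ i) x y /
      (-polygonC (polygonP i) (polygonQ i) dx dy) with hs
  have hs0 : 0 ≤ s := div_nonneg (hpos i hi).le hic'.le
  have hFi : polygonF (polygonP i) (polygonQ i) (x + s * dx) (y + s * dy) = 0 := by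
    rw [polygonF_line]
    have : s * (-polygonC (polygonP i) (polygonQ i) dx dy) =
        polygonF (polygonP i) (polygonQ i) x y := by
      rw [hs, div_mul_cancel₀ _ hic'.ne']
    linarith
  have hFj : ∀ j < 192, 0 ≤ polygonF (polygonP j) (polygonQ j) (x + s * dx) (y + s * dy) := by
    intro j hj
    rw [polygonF_line]
    rcases le_or_gt 0 (polygonC (polygonP j) (polygonQ j) dx dy) with h | h
    · exact add_nonneg (hpos j hj).le (mul_nonneg hs0 h)
    · have h1 : s ≤ polygonF (polygonP j) (polygonQ j) x y /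
          (-polygonC (polygonP j) (polygonQ j) dx dy) :=
        hmin j (Finset.mem_filter.2 ⟨Finset.mem_range.2 hj, h⟩)
      rw [le_div_iff₀ (neg_pos.2 h)] at h1
      linarith
  obtain ⟨hN, ⟨j, hj, hj1, hj2⟩, ⟨k, hk, hk1, hk2⟩⟩ := polygon_neighbours hi
  obtain ⟨l, hX, hY⟩ := polygon_on hN hFi
  refine ⟨i, hi, _, _, polygon_isSide hi, s, l, hs0, ?_, ?_, hX, hY⟩
  · have h1 := hFj j hj
    rw [hX, hY, polygonF_lr, hj1, mul_zero, zero_add] at h1
    exact nonneg_of_mul_nonneg_left h1 hj2
  · have h1 := hFj k hk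
    rw [hX, hY, polygonF_lr, hk1, mul_zero, add_zero] at h1
    have := nonneg_of_mul_nonneg_left h1 hk2
    linarith

end BallBlock
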