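import Pool.Agent.BallBlock.Defs

/-!
Let `σ = √(u²+v²)`. First `σ > 0`: if `u = v = 0`, then the two end points have the same `(x,y)` and `c + s1 w = - (c + s2 w)` or `s1 = s2`; in both cases with `z > 0` at the end points one gets a
contradiction with `ho1, ho2` (`ho1`: `(c+s1 w) w ≤ 0`, `ho2`: `(c + s2 w) w ≥ 0` so `w = 0`). Plan parameter `s' = (s σ)/κ`, `(dx,dy) = (u,v)/σ`, `x = a/κ`, `y = b/κ`;
`X(s') = (a + s u)/κ`, height `Z(s') = (c + s w - 1)/κ²`, affine with slope `m = w/(σ κ)`. The function `f(s') = -Z - |X|²/2` is quadratic with leading coefficient `-1/2`. The ball is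
`|X|² + 2 Z + κ² Z² ≤ 0`, i.e. `2 f ≥ κ² Z²`. At the end points `s1', s2'` equality holds, so `f ≥ 0` there and `f(s') = (s' - t1)(t2 - s')/2` with real roots `t1 ≤ s1' ≤ s2' ≤ t2` (this gives the formula
with `zz`). Also `0 ≤ -Z ≤ |X|² ≤ R²` at the end points (`z > 0`: `1 - √(1-r²) ≤ r²`), where `κ |X| = r ≤ ε (1-2ε)`, `κ R = ε`.
Slope: subtracting the sphere equations at the end points, `m (2 + κ² (Z1 + Z2)) = -(X1 + X2)·d` if `s1' < s2'`, and by `ho1, ho2` the same with `X1 = X2` when `s1 = s2`; so `|m| ≤ 2R/(2 - 2ε²) ≤ 2R`.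
Let `A = s1' - t1 ≥ 0`, `B = t2 - s1' ≥ 0`: `A B = κ² Z1² ≤ κ² R⁴ = ε² R²`. The function `g = 2f - κ² Z²` is concave quadratic, zero at `s1', s2'`, so `g'(s1') ≥ 0` (also by `ho1`), and
`2 f'(s1') = B - A = g'(s1') + 2 κ² Z1 m ≥ -4 κ² R³ = -4 ε² R`. If `A > 2 ε R` then `B < ε R/2` and `B - A < - 3/2 ε R < -4 ε² R` (`ε ≤ 1/10`), contradiction. So `A ≤ 2 ε R` and
`|X(t1)| ≤ |X(s1')| + A ≤ R (1-2ε) + 2 ε R = R`. Same for `t2` with `ho2`.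
-/

open Real

namespace BallBlock

private theorem reduce_end {ε R κ A B Z m : ℝ} (hε : 0 < ε) (hε1 : ε ≤ 1 / 10) (hR : 0 < R)
    (hκR : κ * R = ε) (hB : 0 ≤ B) (hAB : A * B = κ ^ 2 * Z ^ 2) (hZ : |Z| ≤ R ^ 2)
    (hm : |m| ≤ 1.1 * R) (hBA : -(2 * κ ^ 2 * (|Z| * |m|)) ≤ B - A) : A ≤ 2 * ε * R := by
  by_contra hcon
  rw [not_le] at hcon
  have h1 : κ ^ 2 * Z ^ 2 ≤ (ε * R) ^ 2 := by
    have h2 : Z ^ 2 ≤ (R ^ 2) ^ 2 := by
      rw [← sq_abs Z]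
      exact pow_le_pow_left₀ (abs_nonneg _) hZ 2
    calc κ ^ 2 * Z ^ 2 ≤ κ ^ 2 * (R ^ 2) ^ 2 := mul_le_mul_of_nonneg_left h2 (sq_nonneg _)
      _ = (κ * R) ^ 2 * R ^ 2 := by ring
      _ = (ε * R) ^ 2 := by rw [hκR]; ring
  have hεR : 0 < ε * R := mul_pos hε hR
  have h3 : 2 * ε * R * B ≤ (ε * R) ^ 2 := by
    calc 2 * ε * R * B ≤ A * B := mul_le_mul_of_nonneg_right hcon.le hB
      _ ≤ _ := by rw [hAB]; exact h1
  have h4 : B ≤ ε * R / 2 := by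
    have h5 : (ε * R) * (2 * B) ≤ (ε * R) * (ε * R) := by linarith
    have h6 := le_of_mul_le_mul_left h5 hεR
    linarith
  have h7 : κ ^ 2 * (|Z| * |m|) ≤ 1.1 * ε ^ 2 * R := by
    calc κ ^ 2 * (|Z| * |m|) ≤ κ ^ 2 * (R ^ 2 * (1.1 * R)) := by
          apply mul_le_mul_of_nonneg_left _ (sq_nonneg _)
          exact mul_le_mul hZ hm (abs_nonneg _) (sq_nonneg _)
      _ = 1.1 * (κ * R) ^ 2 * R := by ring
      _ = 1.1 * ε ^ 2 * R := by rw [hκR]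
  have h8 : ε ^ 2 * R ≤ 1 / 10 * (ε * R) := by
    have : ε * (ε * R) ≤ 1 / 10 * (ε * R) := mul_le_mul_of_nonneg_right hε1 hεR.le
    linarith
  linarith

private theorem reduce_dot {X Y dx dy q : ℝ} (hd : dx ^ 2 + dy ^ 2 = 1) (hq : 0 ≤ q)
    (hXY : X ^ 2 + Y ^ 2 ≤ q ^ 2) : |X * dx + Y * dy| ≤ q := by
  have h1 : (X * dx + Y * dy) ^ 2 ≤ q ^ 2 := by
    have : (X * dx + Y * dy) ^ 2 + (X * dy - Y * dx) ^ 2 = (X ^ 2 + Y ^ 2) * (dx ^ 2 + dy ^ 2) := by ring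
    rw [hd, mul_one] at this
    have := sq_nonneg (X * dy - Y * dx)
    linarith
  exact abs_le_of_sq_le_sq h1 hq

private theorem reduce_norm {R A q x1 y1 dx dy : ℝ} (hd : dx ^ 2 + dy ^ 2 = 1)
    (hp : x1 ^ 2 + y1 ^ 2 ≤ q ^ 2) (hq : 0 ≤ q) (hA : |A| ≤ R - q) :
    (x1 + A * dx) ^ 2 + (y1 + A * dy) ^ 2 ≤ R ^ 2 := by
  have h1 : (x1 * dx + y1 * dy) ^ 2 ≤ q ^ 2 := by
    have : (x1 * dx + y1 * dy) ^ 2 + (x1 * dy - y1 * dx) ^ 2 = (x1 ^ 2 + y1 ^ 2) * (dx ^ 2 + dy ^ 2) := by ring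
    rw [hd, mul_one] at this
    nlinarith [sq_nonneg (x1 * dy - y1 * dx)]
  have h2 : |x1 * dx + y1 * dy| ≤ q := abs_le_of_sq_le_sq h1 hq
  have h3 : A * (x1 * dx + y1 * dy) ≤ |A| * q := by
    calc A * (x1 * dx + y1 * dy) ≤ |A * (x1 * dx + y1 * dy)| := le_abs_self _
      _ = |A| * |x1 * dx + y1 * dy| := abs_mul _ _
      _ ≤ |A| * q := mul_le_mul_of_nonneg_left h2 (abs_nonneg _)
  have h4 : (x1 + A * dx) ^ 2 + (y1 + A * dy) ^ 2 =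
      (x1 ^ 2 + y1 ^ 2) + 2 * (A * (x1 * dx + y1 * dy)) + A ^ 2 * (dx ^ 2 + dy ^ 2) := by ring
  rw [h4, hd, mul_one]
  have h5 : (q + |A|) ^ 2 ≤ R ^ 2 := pow_le_pow_left₀ (by positivity) (by linarith) 2
  have h6 : A ^ 2 = |A| ^ 2 := (sq_abs A).symm
  nlinarith

private theorem reduce_point {ε R κ X Y Z z : ℝ} (hε : 0 < ε) (hε1 : ε ≤ 1 / 10) (hR : 0 < R) (hκ : 0 < κ)
    (hκR : κ * R = ε) (hz : z = 1 + κ ^ 2 * Z) (hz0 : 0 < z)
    (hs : (κ * X) ^ 2 + (κ * Y) ^ 2 + z ^ 2 = 1) (hr : (κ * X) ^ 2 + (κ * Y) ^ 2 ≤ (ε * (1 - 2 * ε)) ^ 2) :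
    X ^ 2 + Y ^ 2 + 2 * Z + κ ^ 2 * Z ^ 2 = 0 ∧ |Z| ≤ R ^ 2 ∧ 0.99 ≤ z ∧
      X ^ 2 + Y ^ 2 ≤ (R * (1 - 2 * ε)) ^ 2 := by
  have hκ2 : 0 < κ ^ 2 := by positivity
  have h1 : X ^ 2 + Y ^ 2 + 2 * Z + κ ^ 2 * Z ^ 2 = 0 := by
    have : κ ^ 2 * (X ^ 2 + Y ^ 2 + 2 * Z + κ ^ 2 * Z ^ 2) = 0 := by
      rw [hz] at hs
      linarith
    exact (mul_eq_zero.1 this).resolve_left hκ2.ne'
  have h2 : X ^ 2 + Y ^ 2 ≤ (R * (1 - 2 * ε)) ^ 2 := by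
    have : κ ^ 2 * (X ^ 2 + Y ^ 2) ≤ κ ^ 2 * (R * (1 - 2 * ε)) ^ 2 := by
      have e : κ ^ 2 * (R * (1 - 2 * ε)) ^ 2 = (ε * (1 - 2 * ε)) ^ 2 := by
        rw [← hκR]; ring
      rw [e]
      linarith
    exact le_of_mul_le_mul_left this hκ2
  have h3 : z ≤ 1 := by nlinarith [sq_nonneg (κ * X), sq_nonneg (κ * Y)]
  have h4 : 0.99 ≤ z := by
    have h5 : (ε * (1 - 2 * ε)) ^ 2 ≤ 0.01 := by
      have h6 : 0 ≤ ε * (1 - 2 * ε) := mul_nonneg hε.le (by linarith)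
      have h7 : ε * (1 - 2 * ε) ≤ 0.1 := by nlinarith
      nlinarith
    nlinarith
  have h8 : Z ≤ 0 := by
    by_contra hc
    rw [not_le] at hc
    have := mul_pos hκ2 hc
    linarith
  have h9 : -Z ≤ X ^ 2 + Y ^ 2 := by
    -- -Z (2 + κ² Z) = X² + Y², 2 + κ² Z = 1 + z ≥ 1
    have h10 : -Z * (1 + z) = X ^ 2 + Y ^ 2 := by
      rw [hz]; linarith
    nlinarith
  have h11 : (R * (1 - 2 * ε)) ^ 2 ≤ R ^ 2 := by
    apply pow_le_pow_left₀ (mul_nonneg hR.le (by linarith))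
    nlinarith
  refine ⟨h1, ?_, h4, h2⟩
  rw [abs_of_nonpos h8]
  linarith

/-- Both end points of the chord of the unit ball are above the equator and at distance at most
`ε (1 - 2 ε)` from the axis. In the coordinates `X = x / κ`, `Z = (z - 1) / κ ^ 2` with `κ = ε / R` the
line is `zz ...` over a plan line of unit speed, and the end points of its chord of the paraboloid are at
distance at most `R` from the axis. -/
theorem reduce {ε R κ : ℝ} (hε : 0 < ε) (hε1 : ε ≤ 1 / 10) (hR : 0 < R) (hκ : κ = ε / R)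
    {a b c u v w s1 s2 : ℝ} (hv : 0 < u ^ 2 + v ^ 2 + w ^ 2) (h12 : s1 ≤ s2)
    (hs1 : (a + s1 * u) ^ 2 + (b + s1 * v) ^ 2 + (c + s1 * w) ^ 2 = 1)
    (hs2 : (a + s2 * u) ^ 2 + (b + s2 * v) ^ 2 + (c + s2 * w) ^ 2 = 1)
    (ho1 : (a + s1 * u) * u + (b + s1 * v) * v + (c + s1 * w) * w ≤ 0)
    (ho2 : 0 ≤ (a + s2 * u) * u + (b + s2 * v) * v + (c + s2 * w) * w)
    (hz1 : 0 < c + s1 * w) (hz2 : 0 < c + s2 * w)
    (hr1 : (a + s1 * u) ^ 2 + (b + s1 * v) ^ 2 ≤ (ε * (1 - 2 * ε)) ^ 2)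
    (hr2 : (a + s2 * u) ^ 2 + (b + s2 * v) ^ 2 ≤ (ε * (1 - 2 * ε)) ^ 2) :
    ∃ x y dx dy t1 t2 : ℝ, dx ^ 2 + dy ^ 2 = 1 ∧ t1 ≤ t2 ∧
      (x + t1 * dx) ^ 2 + (y + t1 * dy) ^ 2 ≤ R ^ 2 ∧ (x + t2 * dx) ^ 2 + (y + t2 * dy) ^ 2 ≤ R ^ 2 ∧
      ∀ s : ℝ, ∃ t : ℝ, a + t * u = κ * (x + s * dx) ∧ b + t * v = κ * (y + s * dy) ∧
        c + t * w = 1 + κ ^ 2 * zz x y dx dy t1 t2 s := by
  have hκ0 : 0 < κ := by rw [hκ]; positivity
  have hκR : κ * R = ε := by rw [hκ]; field_simp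
  -- the plan direction does not vanish
  have huv : 0 < u ^ 2 + v ^ 2 := by
    by_contra hcon
    have hu : u = 0 := by nlinarith [sq_nonneg u, sq_nonneg v]
    have hv' : v = 0 := by nlinarith [sq_nonneg u, sq_nonneg v]
    subst hu hv'
    have hw : 0 < w ^ 2 := by linarith
    have h1 : (c + s1 * w) = (c + s2 * w) := by
      have h2 : (c + s1 * w) ^ 2 = (c + s2 * w) ^ 2 := by
        simp only [mul_zero, add_zero] at hs1 hs2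
        linarith
      nlinarith
    have h3 : 0 ≤ w := by
      by_contra hc
      rw [not_le] at hc
      have := mul_neg_of_pos_of_neg hz2 hc
      simp only [mul_zero] at ho2
      linarith
    have h4 : w ≤ 0 := by
      by_contra hc
      rw [not_le] at hc
      have := mul_pos hz1 hc
      simp only [mul_zero] at ho1
      linarith
    have : w = 0 := le_antisymm h4 h3
    rw [this] at hw
    norm_num at hw
  obtain ⟨σ, hσd⟩ : ∃ r : ℝ, r = √(u ^ 2 + v ^ 2) := ⟨_, rfl⟩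
  have hσ : 0 < σ := by rw [hσd]; exact Real.sqrt_pos.2 huv
  have hσ2 : σ ^ 2 = u ^ 2 + v ^ 2 := by rw [hσd]; exact Real.sq_sqrt huv.le
  obtain ⟨dx, hdx⟩ : ∃ r : ℝ, r = u / σ := ⟨_, rfl⟩
  obtain ⟨dy, hdy⟩ : ∃ r : ℝ, r = v / σ := ⟨_, rfl⟩
  have hu : u = σ * dx := by rw [hdx]; field_simp
  have hv' : v = σ * dy := by rw [hdy]; field_simp
  have hd : dx ^ 2 + dy ^ 2 = 1 := by
    rw [hdx, hdy, div_pow, div_pow, ← add_div, ← hσ2]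
    field_simp
  obtain ⟨x, hx⟩ : ∃ r : ℝ, r = a / κ := ⟨_, rfl⟩
  obtain ⟨y, hy⟩ : ∃ r : ℝ, r = b / κ := ⟨_, rfl⟩
  have ha : a = κ * x := by rw [hx]; field_simp
  have hb : b = κ * y := by rw [hy]; field_simp
  obtain ⟨m, hm⟩ : ∃ r : ℝ, r = w / (σ * κ) := ⟨_, rfl⟩
  have hw : w = m * σ * κ := by rw [hm]; field_simp
  obtain ⟨z0, hz0⟩ : ∃ r : ℝ, r = (c - 1) / κ ^ 2 := ⟨_, rfl⟩
  have hc : c = 1 + κ ^ 2 * z0 := by rw [hz0]; field_simp; ring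
  obtain ⟨S1, hS1⟩ : ∃ r : ℝ, r = s1 * σ / κ := ⟨_, rfl⟩
  obtain ⟨S2, hS2⟩ : ∃ r : ℝ, r = s2 * σ / κ := ⟨_, rfl⟩
  have hs1' : s1 = S1 * κ / σ := by rw [hS1]; field_simp
  have hs2' : s2 = S2 * κ / σ := by rw [hS2]; field_simp
  obtain ⟨X1, hX1⟩ : ∃ r : ℝ, r = x + S1 * dx := ⟨_, rfl⟩
  obtain ⟨Y1, hY1⟩ : ∃ r : ℝ, r = y + S1 * dy := ⟨_, rfl⟩
  obtain ⟨X2, hX2⟩ : ∃ r : ℝ, r = x + S2 * dx := ⟨_, rfl⟩
  obtain ⟨Y2, hY2⟩ : ∃ r : ℝ, r = y + S2 * dy := ⟨_, rfl⟩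
  obtain ⟨Z1, hZ1⟩ : ∃ r : ℝ, r = z0 + m * S1 := ⟨_, rfl⟩
  obtain ⟨Z2, hZ2⟩ : ∃ r : ℝ, r = z0 + m * S2 := ⟨_, rfl⟩
  have eX1 : a + s1 * u = κ * X1 := by rw [hX1, ha, hs1', hu]; field_simp
  have eY1 : b + s1 * v = κ * Y1 := by rw [hY1, hb, hs1', hv']; field_simp
  have eZ1 : c + s1 * w = 1 + κ ^ 2 * Z1 := by rw [hZ1, hc, hs1', hw]; field_simp; ring
  have eX2 : a + s2 * u = κ * X2 := by rw [hX2, ha, hs2', hu]; field_simp
  have eY2 : b + s2 * v = κ * Y2 := by rw [hY2, hb, hs2', hv']; field_simp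
  have eZ2 : c + s2 * w = 1 + κ ^ 2 * Z2 := by rw [hZ2, hc, hs2', hw]; field_simp; ring
  rw [eX1, eY1] at hs1 ho1 hr1
  rw [eX2, eY2] at hs2 ho2 hr2
  obtain ⟨q1, q2, q3, q4⟩ := reduce_point hε hε1 hR hκ0 hκR eZ1 hz1 hs1 hr1
  obtain ⟨r1, r2, r3, r4⟩ := reduce_point hε hε1 hR hκ0 hκR eZ2 hz2 hs2 hr2
  have hκσ : 0 < κ * σ := mul_pos hκ0 hσ
  -- outward conditions
  have o1 : (X1 * dx + Y1 * dy) + (c + s1 * w) * m ≤ 0 := by
    have e : κ * X1 * u + κ * Y1 * v + (c + s1 * w) * w =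
        (κ * σ) * ((X1 * dx + Y1 * dy) + (c + s1 * w) * m) := by
      rw [hu, hv']
      have : (c + s1 * w) * w = (c + s1 * w) * (m * σ * κ) := by rw [← hw]
      rw [this]
      ring
    rw [e] at ho1
    by_contra hcon
    rw [not_le] at hcon
    exact absurd ho1 (not_le.2 (mul_pos hκσ hcon))
  have o2 : 0 ≤ (X2 * dx + Y2 * dy) + (c + s2 * w) * m := by
    have e : κ * X2 * u + κ * Y2 * v + (c + s2 * w) * w =
        (κ * σ) * ((X2 * dx + Y2 * dy) + (c + s2 * w) * m) := by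
      rw [hu, hv']
      have : (c + s2 * w) * w = (c + s2 * w) * (m * σ * κ) := by rw [← hw]
      rw [this]
      ring
    rw [e] at ho2
    by_contra hcon
    rw [not_le] at hcon
    exact absurd ho2 (not_le.2 (mul_neg_of_pos_of_neg hκσ hcon))
  have hq0 : 0 ≤ R * (1 - 2 * ε) := mul_nonneg hR.le (by linarith only [hε1])
  have hεR : 0 < ε * R := mul_pos hε hR
  have hqR : R * (1 - 2 * ε) ≤ R := by linarith only [hεR]
  have hdot : ∀ {X Y : ℝ}, X ^ 2 + Y ^ 2 ≤ (R * (1 - 2 * ε)) ^ 2 → |X * dx + Y * dy| ≤ R :=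
    fun hXY => (reduce_dot hd hq0 hXY).trans hqR
  have hmabs : |m| ≤ 1.1 * R := by
    have d1 := abs_le.1 (hdot q4)
    have d2 := abs_le.1 (hdot r4)
    rw [abs_le]
    constructor
    · by_contra hcon
      rw [not_le] at hcon
      have hm0 : m < 0 := by linarith only [hcon, hR]
      have : (c + s2 * w) * m ≤ 0.99 * m := mul_le_mul_of_nonpos_right r3 hm0.le
      linarith only [d2.2, this, o2, hcon, hR]
    · by_contra hcon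
      rw [not_le] at hcon
      have hm0 : 0 < m := by linarith only [hcon, hR]
      have : 0.99 * m ≤ (c + s1 * w) * m := mul_le_mul_of_nonneg_right q3 hm0.le
      linarith only [d1.1, this, o1, hcon, hR]
  obtain ⟨β, hβ⟩ : ∃ r : ℝ, r = m + (x * dx + y * dy) := ⟨_, rfl⟩
  obtain ⟨γ, hγ⟩ : ∃ r : ℝ, r = z0 + (x ^ 2 + y ^ 2) / 2 := ⟨_, rfl⟩
  obtain ⟨D, hD⟩ : ∃ r : ℝ, r = β ^ 2 - 2 * γ := ⟨_, rfl⟩
  have k1 : X1 * dx + Y1 * dy = (x * dx + y * dy) + S1 := by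
    rw [hX1, hY1]
    linear_combination S1 * hd
  have k2 : X2 * dx + Y2 * dy = (x * dx + y * dy) + S2 := by
    rw [hX2, hY2]
    linear_combination S2 * hd
  have hD1 : D - (S1 + β) ^ 2 = κ ^ 2 * Z1 ^ 2 := by
    have e : X1 ^ 2 + Y1 ^ 2 = x ^ 2 + y ^ 2 + 2 * S1 * (x * dx + y * dy) + S1 ^ 2 := by
      rw [hX1, hY1]
      linear_combination S1 ^ 2 * hd
    rw [e] at q1
    rw [hD, hγ, hβ]
    rw [hZ1] at q1 ⊢
    linarith only [q1]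
  have hD2 : D - (S2 + β) ^ 2 = κ ^ 2 * Z2 ^ 2 := by
    have e : X2 ^ 2 + Y2 ^ 2 = x ^ 2 + y ^ 2 + 2 * S2 * (x * dx + y * dy) + S2 ^ 2 := by
      rw [hX2, hY2]
      linear_combination S2 ^ 2 * hd
    rw [e] at r1
    rw [hD, hγ, hβ]
    rw [hZ2] at r1 ⊢
    linarith only [r1]
  have hD1' : (S1 + β) ^ 2 ≤ D := by
    have : 0 ≤ κ ^ 2 * Z1 ^ 2 := mul_nonneg (sq_nonneg _) (sq_nonneg _)
    linarith only [this, hD1]
  have hD2' : (S2 + β) ^ 2 ≤ D := by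
    have : 0 ≤ κ ^ 2 * Z2 ^ 2 := mul_nonneg (sq_nonneg _) (sq_nonneg _)
    linarith only [this, hD2]
  have hD0 : 0 ≤ D := (sq_nonneg _).trans hD1'
  obtain ⟨ρ, hρ⟩ : ∃ r : ℝ, r = √D := ⟨_, rfl⟩
  have hρ0 : 0 ≤ ρ := by rw [hρ]; exact Real.sqrt_nonneg _
  have hρ2 : ρ ^ 2 = D := by rw [hρ]; exact Real.sq_sqrt hD0
  have a1 : |S1 + β| ≤ ρ := by rw [hρ]; exact Real.abs_le_sqrt hD1'
  have a2 : |S2 + β| ≤ ρ := by rw [hρ]; exact Real.abs_le_sqrt hD2'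
  have b1 := abs_le.1 a1
  have b2 := abs_le.1 a2
  -- the bounds of the two overhangs
  have e1 : S1 + β + ρ ≤ 2 * ε * R := by
    apply reduce_end (A := S1 + β + ρ) (B := ρ - (S1 + β)) (Z := Z1) (m := m) hε hε1 hR hκR
      (by linarith only [b1.2]) _ q2 hmabs
    · have h1 : S1 + β + κ ^ 2 * Z1 * m ≤ 0 := by
        have : S1 + β + κ ^ 2 * Z1 * m = (X1 * dx + Y1 * dy) + (c + s1 * w) * m := by
          rw [k1, eZ1, hβ]; ring
        rw [this]; exact o1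
      have h2 : -(|Z1| * |m|) ≤ Z1 * m := by
        rw [← abs_mul]; exact neg_abs_le _
      have h3 : κ ^ 2 * (-(|Z1| * |m|)) ≤ κ ^ 2 * (Z1 * m) := mul_le_mul_of_nonneg_left h2 (sq_nonneg _)
      linarith only [h1, h3]
    · rw [← hD1, ← hρ2]; ring
  have e2 : ρ - (S2 + β) ≤ 2 * ε * R := by
    apply reduce_end (A := ρ - (S2 + β)) (B := S2 + β + ρ) (Z := Z2) (m := m) hε hε1 hR hκR
      (by linarith only [b2.1]) _ r2 hmabs
    · have h1 : 0 ≤ S2 + β + κ ^ 2 * Z2 * m := by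
        have : S2 + β + κ ^ 2 * Z2 * m = (X2 * dx + Y2 * dy) + (c + s2 * w) * m := by
          rw [k2, eZ2, hβ]; ring
        rw [this]; exact o2
      have h2 : Z2 * m ≤ |Z2| * |m| := by
        rw [← abs_mul]; exact le_abs_self _
      have h3 : κ ^ 2 * (Z2 * m) ≤ κ ^ 2 * (|Z2| * |m|) := mul_le_mul_of_nonneg_left h2 (sq_nonneg _)
      linarith only [h1, h3]
    · rw [← hD2, ← hρ2]; ring
  refine ⟨x, y, dx, dy, -β - ρ, -β + ρ, hd, by linarith only [hρ0], ?_, ?_, ?_⟩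
  · have h := reduce_norm (R := R) (A := -(S1 + β + ρ)) hd q4 hq0 (by
      rw [abs_neg, abs_of_nonneg (by linarith only [b1.1])]
      linarith only [e1])
    have f1 : x + (-β - ρ) * dx = X1 + -(S1 + β + ρ) * dx := by rw [hX1]; ring
    have f2 : y + (-β - ρ) * dy = Y1 + -(S1 + β + ρ) * dy := by rw [hY1]; ring
    rw [f1, f2]
    exact h
  · have h := reduce_norm (R := R) (A := ρ - (S2 + β)) hd r4 hq0 (by
      rw [abs_of_nonneg (by linarith only [b2.2])]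
      linarith only [e2])
    have f1 : x + (-β + ρ) * dx = X2 + (ρ - (S2 + β)) * dx := by rw [hX2]; ring
    have f2 : y + (-β + ρ) * dy = Y2 + (ρ - (S2 + β)) * dy := by rw [hY2]; ring
    rw [f1, f2]
    exact h
  · intro s
    refine ⟨s * κ / σ, ?_, ?_, ?_⟩
    · rw [ha, hu]; field_simp
    · rw [hb, hv']; field_simp
    · have h1 : zz x y dx dy (-β - ρ) (-β + ρ) s = z0 + m * s := by
        unfold zz
        have h2 : (s - (-β - ρ)) * (-β + ρ - s) = D - (s + β) ^ 2 := by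
          rw [← hρ2]; ring
        have h3 : (x + s * dx) ^ 2 + (y + s * dy) ^ 2 = x ^ 2 + y ^ 2 + 2 * s * (x * dx + y * dy) + s ^ 2 := by
          linear_combination s ^ 2 * hd
        rw [h2, h3, hD, hγ, hβ]
        ring
      rw [h1, hc, hw]
      field_simp
      ring

end BallBlock
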