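import Pool.Agent.BallBlock.Plan

/-!
Vertices of `mkSub p q j0 j1` are the points of the edge `p q` with parameters `j0 / 256`, `j1 / 256`:
`vx (mkV p q (256 - j) j) = lr (nx p) (nx q) (j / 256)` for `j ≤ 256` (note `Nat.sub 256 j + j = 256`), same for
`vy`, `vT`, `vB` (heights: `(256 * (t_p i + t_q j) - 2^48) / 2` and `65536 = 256 * 256`). All `Nat.add`, `Nat.mul` have
to be turned into `+`, `*` first (`Nat.add_eq`, `Nat.mul_eq` or `show`), then `push_cast [Nat.cast_sub]` and `ring`.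
`onSub_edge`: take `m = ((1 - l) * j0 + l * j1) / 256`. `edge_onSub`: solve for `l` (case `j0 = j1`: `l = 0`).
-/

open Real

namespace BallBlock

open K

private theorem subreal_lin (p q j : ℕ) (hj : j ≤ 256) :
    ((lin p q (Nat.sub 256 j) j : ℕ) : ℝ) = (p : ℝ) * (256 - (j : ℝ)) + (q : ℝ) * (j : ℝ) := by
  have h : lin p q (Nat.sub 256 j) j = p * (256 - j) + q * j := rfl
  rw [h]
  push_cast [Nat.cast_sub hj]
  ring

private theorem subreal_lin2 (p q j : ℕ) (hj : j ≤ 256) :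
    ((Nat.mul 256 (lin p q (Nat.sub 256 j) j) : ℕ) : ℝ) =
      256 * ((p : ℝ) * (256 - (j : ℝ)) + (q : ℝ) * (j : ℝ)) := by
  have h : Nat.mul 256 (lin p q (Nat.sub 256 j) j) = 256 * lin p q (Nat.sub 256 j) j := rfl
  rw [h, Nat.cast_mul, subreal_lin p q j hj]
  norm_num

private theorem subreal_vx (p q : Nd) (j : ℕ) (hj : j ≤ 256) :
    vx (mkV p q (Nat.sub 256 j) j) = lr (nx p) (nx q) ((j : ℝ) / 256) := by
  have h : vx (mkV p q (Nat.sub 256 j) j) =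
      ((lin p.a q.a (Nat.sub 256 j) j : ℕ) : ℝ) - 8388608 := rfl
  rw [h, subreal_lin p.a q.a j hj]
  unfold lr nx
  ring

private theorem subreal_vy (p q : Nd) (j : ℕ) (hj : j ≤ 256) :
    vy (mkV p q (Nat.sub 256 j) j) = lr (ny p) (ny q) ((j : ℝ) / 256) := by
  have h : vy (mkV p q (Nat.sub 256 j) j) =
      √3 * (((lin p.b q.b (Nat.sub 256 j) j : ℕ) : ℝ) - 8388608) := rfl
  rw [h, subreal_lin p.b q.b j hj]
  unfold lr ny
  ring

private theorem subreal_vT (p q : Nd) (j : ℕ) (hj : j ≤ 256) :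
    vT (mkV p q (Nat.sub 256 j) j) = lr (nT p) (nT q) ((j : ℝ) / 256) := by
  have h : vT (mkV p q (Nat.sub 256 j) j) =
      (((Nat.mul 256 (lin p.t q.t (Nat.sub 256 j) j) : ℕ) : ℝ) - 281474976710656) / 2 := rfl
  rw [h, subreal_lin2 p.t q.t j hj]
  unfold lr nT
  ring

private theorem subreal_vB (p q : Nd) (j : ℕ) (hj : j ≤ 256) :
    vB (mkV p q (Nat.sub 256 j) j) = lr (nB p) (nB q) ((j : ℝ) / 256) := by
  have h : vB (mkV p q (Nat.sub 256 j) j) =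
      (((Nat.mul 256 (lin p.u q.u (Nat.sub 256 j) j) : ℕ) : ℝ) - 281474976710656) / 2 := rfl
  rw [h, subreal_lin2 p.u q.u j hj]
  unfold lr nB
  ring

private theorem subreal_lr (a b s t l : ℝ) :
    lr (lr a b s) (lr a b t) l = lr a b (lr s t l) := by
  unfold lr
  ring

/-- a point of a sub-edge is the corresponding point of the edge -/
theorem onSub_edge {s : Sub} (hs : IsMk s) {X Y Tp Bt l : ℝ} (o : OnSub s X Y Tp Bt l) :
    ∃ m, 0 ≤ m ∧ m ≤ 1 ∧ X = lr (nx s.p) (nx s.q) m ∧ Y = lr (ny s.p) (ny s.q) m ∧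
      Tp = lr (nT s.p) (nT s.q) m ∧ Bt = lr (nB s.p) (nB s.q) m := by
  obtain ⟨j0, j1, h0, h1, hs⟩ := hs
  have hv : s.v = mkV s.p s.q (Nat.sub 256 j0) j0 := by
    conv_lhs => rw [hs]
    rfl
  have hw : s.w = mkV s.p s.q (Nat.sub 256 j1) j1 := by
    conv_lhs => rw [hs]
    rfl
  have c0 : (0 : ℝ) ≤ (j0 : ℝ) := Nat.cast_nonneg _
  have c1 : (0 : ℝ) ≤ (j1 : ℝ) := Nat.cast_nonneg _
  have d0 : (j0 : ℝ) ≤ 256 := by exact_mod_cast h0
  have d1 : (j1 : ℝ) ≤ 256 := by exact_mod_cast h1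
  have l0 := o.l0
  have l1 := o.l1
  refine ⟨lr ((j0 : ℝ) / 256) ((j1 : ℝ) / 256) l, ?_, ?_, ?_, ?_, ?_, ?_⟩
  · unfold lr
    have e1 : 0 ≤ (1 - l) * ((j0 : ℝ) / 256) := mul_nonneg (by linarith) (by positivity)
    have e2 : 0 ≤ l * ((j1 : ℝ) / 256) := mul_nonneg l0 (by positivity)
    linarith
  · unfold lr
    have e1 : (1 - l) * ((j0 : ℝ) / 256) ≤ (1 - l) * 1 :=
      mul_le_mul_of_nonneg_left (by linarith) (by linarith)
    have e2 : l * ((j1 : ℝ) / 256) ≤ l * 1 := mul_le_mul_of_nonneg_left (by linarith) l0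
    linarith
  · rw [o.hX, hv, hw, subreal_vx _ _ _ h0, subreal_vx _ _ _ h1, subreal_lr]
  · rw [o.hY, hv, hw, subreal_vy _ _ _ h0, subreal_vy _ _ _ h1, subreal_lr]
  · rw [o.hT, hv, hw, subreal_vT _ _ _ h0, subreal_vT _ _ _ h1, subreal_lr]
  · rw [o.hB, hv, hw, subreal_vB _ _ _ h0, subreal_vB _ _ _ h1, subreal_lr]

/-- conversely, parameters between `j0 / 256` and `j1 / 256` give points of the sub-edge -/
theorem edge_onSub {p q : Nd} {j0 j1 : ℕ} (h0 : j0 ≤ 256) (h1 : j1 ≤ 256) {m : ℝ}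
    (hm0 : (j0 : ℝ) / 256 ≤ m) (hm1 : m ≤ (j1 : ℝ) / 256) :
    ∃ l, OnSub (mkSub p q j0 j1) (lr (nx p) (nx q) m) (lr (ny p) (ny q) m) (lr (nT p) (nT q) m)
      (lr (nB p) (nB q) m) l := by
  have hv : (mkSub p q j0 j1).v = mkV p q (Nat.sub 256 j0) j0 := rfl
  have hw : (mkSub p q j0 j1).w = mkV p q (Nat.sub 256 j1) j1 := rfl
  obtain ⟨l, l0, l1, hl⟩ : ∃ l : ℝ, 0 ≤ l ∧ l ≤ 1 ∧
      lr ((j0 : ℝ) / 256) ((j1 : ℝ) / 256) l = m := by
    by_cases hj : (j0 : ℝ) / 256 = (j1 : ℝ) / 256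
    · refine ⟨0, le_rfl, zero_le_one, ?_⟩
      unfold lr
      rw [sub_zero, one_mul, zero_mul, add_zero]
      exact le_antisymm hm0 (hj ▸ hm1)
    · have hlt : (j0 : ℝ) / 256 < (j1 : ℝ) / 256 := lt_of_le_of_ne (hm0.trans hm1) hj
      have hpos : 0 < (j1 : ℝ) / 256 - (j0 : ℝ) / 256 := by linarith
      refine ⟨(m - (j0 : ℝ) / 256) / ((j1 : ℝ) / 256 - (j0 : ℝ) / 256),
        div_nonneg (by linarith) hpos.le, (div_le_one hpos).2 (by linarith), ?_⟩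
      have e1 : (m - (j0 : ℝ) / 256) / ((j1 : ℝ) / 256 - (j0 : ℝ) / 256) *
          ((j1 : ℝ) / 256 - (j0 : ℝ) / 256) = m - (j0 : ℝ) / 256 :=
        div_mul_cancel₀ _ hpos.ne'
      unfold lr
      linear_combination e1
  refine ⟨l, l0, l1, ?_, ?_, ?_, ?_⟩
  · rw [hv, hw, subreal_vx _ _ _ h0, subreal_vx _ _ _ h1, subreal_lr, hl]
  · rw [hv, hw, subreal_vy _ _ _ h0, subreal_vy _ _ _ h1, subreal_lr, hl]
  · rw [hv, hw, subreal_vT _ _ _ h0, subreal_vT _ _ _ h1, subreal_lr, hl]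
  · rw [hv, hw, subreal_vB _ _ _ h0, subreal_vB _ _ _ h1, subreal_lr, hl]

theorem isMk_mkSub {p q : Nd} {j0 j1 : ℕ} (h0 : j0 ≤ 256) (h1 : j1 ≤ 256) : IsMk (mkSub p q j0 j1) :=
  ⟨j0, j1, h0, h1, rfl⟩

private theorem subreal_linlink (a b c : ℕ) :
    lin a b (Nat.sub 256 256) 256 = lin b c (Nat.sub 256 0) 0 := by
  have h1 : lin a b (Nat.sub 256 256) 256 = a * 0 + b * 256 := rfl
  have h2 : lin b c (Nat.sub 256 0) 0 = b * 256 + c * 0 := rfl
  rw [h1, h2]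
  omega

/-- consecutive sub-edges share their end vertex -/
theorem mkSub_link {p q r : Nd} {j0 j1 : ℕ} : (mkSub p q j0 256).w = (mkSub q r 0 j1).v := by
  have hw : (mkSub p q j0 256).w = mkV p q (Nat.sub 256 256) 256 := rfl
  have hv : (mkSub q r 0 j1).v = mkV q r (Nat.sub 256 0) 0 := rfl
  rw [hw, hv]
  unfold mkV
  rw [subreal_linlink p.a q.a r.a, subreal_linlink p.b q.b r.b, subreal_linlink p.t q.t r.t,
    subreal_linlink p.u q.u r.u]

end BallBlock
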