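import Pool.Agent.BallBlock.Defs

/-!
Finite unions of surfaces (re-index with `Fin (n+m)`, `Fin.append` / or via `Fintype.equivFin` of a sigma type).
-/

open MeasureTheory Set

namespace BallBlock

theorem IsPatch.isSurface {S : Set E3} (h : IsPatch S) : IsSurface S := by
  refine ⟨1, fun _ => S, fun _ => h, ?_⟩
  rw [Set.iUnion_const]

private theorem surfunion_fintype {ι : Type} [Fintype ι] (P : ι → Set E3) (h : ∀ i, IsPatch (P i)) :
    IsSurface (⋃ i, P i) := by
  refine ⟨Fintype.card ι, fun k => P ((Fintype.equivFin ι).symm k), fun k => h _, ?_⟩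
  exact ((Fintype.equivFin ι).symm.surjective.iUnion_comp P).symm

private theorem surfunion_iUnion {ι : Type} [Fintype ι] (P : ι → Set E3)
    (h : ∀ i, IsSurface (P i)) : IsSurface (⋃ i, P i) := by
  choose n Q hQ hP using h
  have h1 : (⋃ i, P i) = ⋃ s : (i : ι) × Fin (n i), Q s.1 s.2 := by
    rw [Set.iUnion_sigma]
    exact Set.iUnion_congr fun i => hP i
  rw [h1]
  exact surfunion_fintype _ fun s => hQ s.1 s.2

theorem IsSurface.union {S T : Set E3} (hS : IsSurface S) (hT : IsSurface T) : IsSurface (S ∪ T) := by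
  have h1 : S ∪ T = ⋃ b : Bool, cond b S T := Set.union_eq_iUnion
  rw [h1]
  refine surfunion_iUnion _ fun b => ?_
  cases b
  · exact hT
  · exact hS

theorem IsSurface.iUnion {n : ℕ} (P : Fin n → Set E3) (h : ∀ i, IsSurface (P i)) : IsSurface (⋃ i, P i) :=
  surfunion_iUnion P h

theorem IsSurface.list {ι : Type} (l : List ι) (P : ι → Set E3) (h : ∀ i ∈ l, IsSurface (P i)) :
    IsSurface (⋃ i ∈ l, P i) := by
  have h1 : (⋃ i ∈ l, P i) = ⋃ k : Fin l.length, P (l.get k) := by
    ext x
    simp only [Set.mem_iUnion, exists_prop]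
    constructor
    · rintro ⟨i, hi, hx⟩
      obtain ⟨k, rfl⟩ := List.get_of_mem hi
      exact ⟨k, hx⟩
    · rintro ⟨k, hx⟩
      exact ⟨_, List.get_mem l k, hx⟩
  rw [h1]
  exact surfunion_iUnion _ fun k => h _ (List.get_mem l k)

end BallBlock
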